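import Pool.Agent.ZEN.Zd

set_option autoImplicit false

/-! Module Ca: commuting permutations.  The action `act S v x = (S_0^{v_0} ⋯ S_{k-1}^{v_{k-1}}) x` of
`ℤ^k` and the versions of the theorems for it, with arbitrary (also constant) polynomials. -/

open Finset Filter Topology MeasureTheory Polynomial

namespace Pool.Agent.ZEN

universe u

/-- the action of `ℤ^k` generated by the permutations `S i` -/
def act {X : Type*} {k : ℕ} (S : Fin k → Equiv.Perm X) (v : Zr k) (x : X) : X :=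
  (List.ofFn fun i => S i ^ v i).prod x

theorem Ca_zero {G : Type*} [Group G] {k : ℕ} (S : Fin k → G) :
    (List.ofFn fun i => S i ^ (0 : ℤ)).prod = 1 := by
  induction k with
  | zero => simp
  | succ k ih =>
    rw [List.ofFn_succ, List.prod_cons, zpow_zero, one_mul]
    exact ih fun i => S i.succ

theorem Ca_add {G : Type*} [Group G] {k : ℕ} (S : Fin k → G) (hc : ∀ i j, Commute (S i) (S j))
    (u v : Fin k → ℤ) : (List.ofFn fun i => S i ^ (u i + v i)).prod =
      (List.ofFn fun i => S i ^ u i).prod * (List.ofFn fun i => S i ^ v i).prod := by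
  induction k with
  | zero => simp
  | succ k ih =>
    simp only [List.ofFn_succ, List.prod_cons]
    rw [ih (fun i => S i.succ) (fun i j => hc _ _) (fun i => u i.succ) (fun i => v i.succ),
      zpow_add]
    have h : Commute (S 0 ^ v 0) (List.ofFn fun i : Fin k => S i.succ ^ u i.succ).prod := by
      apply Commute.list_prod_right
      intro g hg
      rw [List.mem_ofFn] at hg
      obtain ⟨i, rfl⟩ := hg
      exact (hc 0 i.succ).zpow_zpow _ _
    have h' := h.eq
    calc S 0 ^ u 0 * S 0 ^ v 0 * ((List.ofFn fun i : Fin k => S i.succ ^ u i.succ).prod *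
          (List.ofFn fun i : Fin k => S i.succ ^ v i.succ).prod)
        = S 0 ^ u 0 * (S 0 ^ v 0 * (List.ofFn fun i : Fin k => S i.succ ^ u i.succ).prod) *
          (List.ofFn fun i : Fin k => S i.succ ^ v i.succ).prod := by simp only [mul_assoc]
      _ = _ := by rw [h']; simp only [mul_assoc]

theorem Ca_single {G : Type*} [Group G] {k : ℕ} (S : Fin k → G) (j : Fin k) (m : ℤ) :
    (List.ofFn fun i => S i ^ ((m • (Pi.single j 1 : Fin k → ℤ)) i)).prod = S j ^ m := by
  induction k with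
  | zero => exact j.elim0
  | succ k ih =>
    rw [List.ofFn_succ, List.prod_cons]
    refine Fin.cases ?_ (fun j => ?_) j
    · have h : (fun i : Fin k => S i.succ ^ ((m • (Pi.single 0 1 : Fin (k + 1) → ℤ)) i.succ)) =
          fun i => S i.succ ^ (0 : ℤ) := by
        funext i
        simp
      rw [h, Ca_zero (fun i : Fin k => S i.succ)]
      simp
    · have h : (fun i : Fin k => S i.succ ^ ((m • (Pi.single j.succ 1 : Fin (k + 1) → ℤ)) i.succ)) =
          fun i => S i.succ ^ ((m • (Pi.single j 1 : Fin k → ℤ)) i) := by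
        funext i
        simp [Pi.single_apply]
      rw [h, ih (fun i => S i.succ) j]
      simp

theorem Ca_mp {X : Type*} [MeasurableSpace X] (μ : Measure X) (S : Equiv.Perm X)
    (hm : Measurable S.symm) (hmp : MeasurePreserving S μ μ) (n : ℤ) :
    MeasurePreserving (⇑(S ^ n)) μ μ := by
  have hinv : MeasurePreserving S.symm μ μ := by
    refine ⟨hm, ?_⟩
    conv_lhs => rw [← hmp.map_eq]
    rw [Measure.map_map hm hmp.measurable]
    have : (⇑S.symm ∘ ⇑S) = id := by
      funext x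
      simp
    rw [this, Measure.map_id]
  cases n with
  | ofNat n =>
    rw [Int.ofNat_eq_natCast, zpow_natCast, ← Equiv.Perm.iterate_eq_pow]
    exact hmp.iterate n
  | negSucc n =>
    rw [zpow_negSucc, ← inv_pow, ← Equiv.Perm.iterate_eq_pow]
    exact hinv.iterate (n + 1)

theorem act_isAct {X : Type*} [MeasurableSpace X] (μ : Measure X) {k : ℕ}
    (S : Fin k → Equiv.Perm X) (hm : ∀ i, Measurable (⇑(S i).symm))
    (hmp : ∀ i, MeasurePreserving (⇑(S i)) μ μ) (hc : ∀ i j, S i * S j = S j * S i) :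
    IsAct μ (act S) := by
  refine ⟨?_, ?_, ?_⟩
  · funext x
    have := Ca_zero S
    simp only [act, Pi.zero_apply, this]
    rfl
  · intro u v
    funext x
    have := Ca_add S (fun i j => hc i j) u v
    simp only [act, Pi.add_apply, this]
    rfl
  · intro v
    have key : ∀ l : List (Equiv.Perm X), (∀ g ∈ l, MeasurePreserving (⇑g) μ μ) →
        MeasurePreserving (⇑l.prod) μ μ := by
      intro l
      induction l with
      | nil => intro _; exact MeasurePreserving.id μ
      | cons a l ih =>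
        intro h
        rw [List.prod_cons]
        exact (h a (by simp)).comp (ih fun g hg => h g (by simp [hg]))
    refine key _ ?_
    intro g hg
    rw [List.mem_ofFn] at hg
    obtain ⟨i, rfl⟩ := hg
    exact Ca_mp μ (S i) (hm i) (hmp i) (v i)

theorem act_single {X : Type*} {k : ℕ} (S : Fin k → Equiv.Perm X) (j : Fin k) (m : ℤ) (x : X) :
    act S (m • (Pi.single j 1 : Zr k) + 0) x = (S j ^ m) x := by
  rw [add_zero]
  unfold act
  rw [Ca_single]

/-- splitting off the constant polynomials -/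
theorem Ca_split {X : Type*} {k : ℕ} (S : Fin k → Equiv.Perm X) (p : Fin k → ℤ[X])
    (m : ℕ) (e : Fin m ≃ {i : Fin k // 1 ≤ (p i).natDegree}) (F : Fin k → X → ℝ) (x : X) (n : ℕ) :
    ∏ i, F i ((S i ^ ((p i).eval (n : ℤ))) x) =
      (∏ i ∈ univ.filter (fun i => ¬ 1 ≤ (p i).natDegree), F i ((S i ^ ((p i).eval 0)) x)) *
      ∏ a, F (e a).1 (act S ((p (e a).1).eval (n : ℤ) • (Pi.single (e a).1 1 : Zr k) + 0) x) := by
  rw [← Finset.prod_filter_mul_prod_filter_not univ (fun i => 1 ≤ (p i).natDegree), mul_comm]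
  congr 1
  · refine prod_congr rfl fun i hi => ?_
    have h0 : (p i).natDegree = 0 := by
      have := (Finset.mem_filter.1 hi).2
      omega
    rw [Polynomial.eq_C_of_natDegree_eq_zero h0]
    simp
  · simp_rw [act_single]
    rw [← Finset.prod_subtype_eq_prod_filter]
    simp only [Finset.subtype_univ]
    exact (Equiv.prod_comp e (fun i : {i : Fin k // 1 ≤ (p i).natDegree} =>
      F i.1 ((S i.1 ^ ((p i.1).eval (n : ℤ))) x))).symm

theorem Ca_hv {k : ℕ} (p : Fin k → ℤ[X]) (m : ℕ)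
    (e : Fin m ≃ {i : Fin k // 1 ≤ (p i).natDegree}) :
    (∀ a, (Pi.single (e a).1 1 : Zr k) ≠ 0) ∧
    (∀ a b, a ≠ b → ∃ s : ℕ, 1 ≤ s ∧ (p (e a).1).coeff s • (Pi.single (e a).1 1 : Zr k) ≠
      (p (e b).1).coeff s • (Pi.single (e b).1 1 : Zr k)) := by
  refine ⟨fun a h => ?_, fun a b hab => ?_⟩
  · have := congrFun h (e a).1
    simp at this
  · refine ⟨(p (e a).1).natDegree, (e a).2, fun h => ?_⟩
    have h1 := congrFun h (e a).1
    have hne : (e a).1 ≠ (e b).1 := fun h => hab (e.injective (Subtype.ext h))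
    simp only [Pi.smul_apply, Pi.single_eq_same, smul_eq_mul, mul_one, Pi.single_apply, hne,
      if_false, mul_zero] at h1
    have h2 : p (e a).1 = 0 := Polynomial.leadingCoeff_eq_zero.1 h1
    have h3 := (e a).2
    rw [h2] at h3
    simp at h3

theorem comm_main {X : Type*} [mX : MeasurableSpace X] (μ : Measure X) [IsProbabilityMeasure μ]
    {k : ℕ} (S : Fin k → Equiv.Perm X) (hm : ∀ i, Measurable (⇑(S i).symm))
    (hmp : ∀ i, MeasurePreserving (⇑(S i)) μ μ) (hc : ∀ i j, S i * S j = S j * S i)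
    (p : Fin k → ℤ[X]) (f g : Fin k → X → ℝ) (hf : ∀ i, Measurable (f i))
    (hb : ∀ i, ∃ C : ℝ, ∀ x, |f i x| ≤ C)
    (hg : ∀ i, 1 ≤ (p i).natDegree → g i = μ[f i|Pin μ (act S)])
    (hg0 : ∀ i, ¬ 1 ≤ (p i).natDegree → g i = f i) :
    ∀ᵐ x ∂μ, Tendsto (fun N : ℕ => (1 / (N : ℝ)) * ∑ n ∈ Finset.Icc 1 N,
      (∏ i, f i ((S i ^ ((p i).eval (n : ℤ))) x) - ∏ i, g i ((S i ^ ((p i).eval (n : ℤ))) x)))
        atTop (𝓝 0) := by
  classical
  set e := (Fintype.equivFin {i : Fin k // 1 ≤ (p i).natDegree}).symm with he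
  have hT := act_isAct μ S hm hmp hc
  have h := main_poly μ (act S) hT (fun a => (Pi.single (e a).1 1 : Zr k)) (fun _ => 0)
    (fun a => p (e a).1) (Ca_hv p _ e).1 (fun a => (e a).2) (Ca_hv p _ e).2
    (fun a => f (e a).1) (fun a => hf _) (fun a => hb _)
  filter_upwards [h] with x hx
  have h2 := hx.const_mul
    (∏ i ∈ univ.filter (fun i => ¬ 1 ≤ (p i).natDegree), f i ((S i ^ ((p i).eval 0)) x))
  rw [mul_zero] at h2
  refine h2.congr fun N => ?_
  rw [mul_left_comm, mul_sum]
  congr 1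
  refine sum_congr rfl fun n _ => ?_
  rw [Ca_split S p _ e f x n, Ca_split S p _ e g x n, mul_sub]
  congr 2
  · refine prod_congr rfl fun i hi => ?_
    rw [hg0 i (Finset.mem_filter.1 hi).2]
  · refine prod_congr rfl fun a _ => ?_
    rw [hg (e a).1 (e a).2]

theorem comm_reduce
    (H : ∀ (X : Type u) [MeasurableSpace X] (μ : Measure X) [IsProbabilityMeasure μ]
      (k : ℕ) (S : Fin k → Equiv.Perm X) (p : Fin k → ℤ[X]) (f : Fin k → X → ℝ),
      (∀ i, Measurable (⇑(S i))) → (∀ i, Measurable (⇑(S i).symm)) →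
      (∀ i, MeasurePreserving (⇑(S i)) μ μ) → (∀ i j, S i * S j = S j * S i) →
      (∀ i, Measurable (f i)) → (∀ i, ∃ C : ℝ, ∀ x, |f i x| ≤ C) →
      (∀ A : Set X, MeasurableSet A → IsZE μ (act S) A) →
      ∀ᵐ x ∂μ, ∃ L : ℝ, Tendsto (fun N : ℕ => (1 / (N : ℝ)) * ∑ n ∈ Finset.Icc 1 N,
        ∏ i, f i ((S i ^ ((p i).eval (n : ℤ))) x)) atTop (𝓝 L))
    (X : Type u) [mX : MeasurableSpace X] (μ : Measure X) [IsProbabilityMeasure μ]
    (k : ℕ) (S : Fin k → Equiv.Perm X) (p : Fin k → ℤ[X]) (f : Fin k → X → ℝ)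
    (hm : ∀ i, Measurable (⇑(S i).symm)) (hmp : ∀ i, MeasurePreserving (⇑(S i)) μ μ)
    (hc : ∀ i j, S i * S j = S j * S i) (hf : ∀ i, Measurable (f i))
    (hb : ∀ i, ∃ C : ℝ, ∀ x, |f i x| ≤ C) :
    ∀ᵐ x ∂μ, ∃ L : ℝ, Tendsto (fun N : ℕ => (1 / (N : ℝ)) * ∑ n ∈ Finset.Icc 1 N,
      ∏ i, f i ((S i ^ ((p i).eval (n : ℤ))) x)) atTop (𝓝 L) := by
  classical
  have hT := act_isAct μ S hm hmp hc
  choose Cf hCf using hb
  have hpin := pin_le' μ (act S)
  have hG : ∀ i, ∃ g : X → ℝ, @Measurable X ℝ (Pin μ (act S)) _ g ∧ (∀ x, |g x| ≤ Cf i) ∧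
      g =ᵐ[μ] μ[f i|Pin μ (act S)] :=
    fun i => cond_version μ (Pin μ (act S)) hpin (f i) (hf i) (Cf i) (hCf i)
  choose G hGm hGC hGE using hG
  have hpr : @IsProbabilityMeasure X (Pin μ (act S)) (μ.trim hpin) := ⟨by
    rw [trim_measurableSet_eq hpin MeasurableSet.univ]
    exact measure_univ⟩
  have hA := zc_act μ (act S) hT
  have hs1 : ∀ i, (fun x => act S (Pi.single i 1) x) = ⇑(S i) := by
    intro i
    funext x
    have := act_single S i 1 x
    simpa using this
  have hs2 : ∀ i, (fun x => act S (-Pi.single i 1) x) = ⇑(S i).symm := by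
    intro i
    funext x
    have := act_single S i (-1) x
    simpa using this
  have hmp1 : ∀ i, @MeasurePreserving X X (Pin μ (act S)) (Pin μ (act S)) (⇑(S i))
      (μ.trim hpin) (μ.trim hpin) := by
    intro i
    have h := @IsAct.mp X (Pin μ (act S)) (μ.trim hpin) k (act S) hA (Pi.single i 1)
    have e : act S (Pi.single i 1) = ⇑(S i) := hs1 i
    rwa [e] at h
  have hmp2 : ∀ i, @MeasurePreserving X X (Pin μ (act S)) (Pin μ (act S)) (⇑(S i).symm)
      (μ.trim hpin) (μ.trim hpin) := by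
    intro i
    have h := @IsAct.mp X (Pin μ (act S)) (μ.trim hpin) k (act S) hA (-Pi.single i 1)
    have e : act S (-Pi.single i 1) = ⇑(S i).symm := hs2 i
    rwa [e] at h
  set G' : Fin k → X → ℝ := fun i => if 1 ≤ (p i).natDegree then G i else fun _ => 1 with hG'
  have hG'm : ∀ i, @Measurable X ℝ (Pin μ (act S)) _ (G' i) := by
    intro i
    simp only [hG']
    split_ifs
    · exact hGm i
    · exact @measurable_const ℝ X _ (Pin μ (act S)) 1
  have hG'b : ∀ i, ∃ C : ℝ, ∀ x, |G' i x| ≤ C := by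
    intro i
    simp only [hG']
    split_ifs
    · exact ⟨Cf i, hGC i⟩
    · exact ⟨1, fun x => by simp⟩
  have h1 := @H X (Pin μ (act S)) (μ.trim hpin) hpr k S p G' (fun i => @MeasurePreserving.measurable X X
      (Pin μ (act S)) (Pin μ (act S)) _ _ _ (hmp1 i))
    (fun i => @MeasurePreserving.measurable X X (Pin μ (act S)) (Pin μ (act S)) _ _ _ (hmp2 i)) hmp1 hc hG'm hG'b (fun A hA' => zc_ze μ (act S) hT A hA')
  have h2 := ae_of_ae_trim hpin h1
  set g : Fin k → X → ℝ := fun i =>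
    if 1 ≤ (p i).natDegree then μ[f i|Pin μ (act S)] else f i with hg
  have h3 := comm_main μ S hm hmp hc p f g hf (fun i => ⟨Cf i, hCf i⟩)
    (fun i hi => by simp only [hg, if_pos hi]) (fun i hi => by simp only [hg, if_neg hi])
  have h4 : ∀ᵐ x ∂μ, ∀ (n : ℕ) (i : Fin k), G i ((S i ^ ((p i).eval (n : ℤ))) x) =
      (μ[f i|Pin μ (act S)]) ((S i ^ ((p i).eval (n : ℤ))) x) := by
    rw [ae_all_iff]
    intro n
    rw [ae_all_iff]
    intro i
    exact (Ca_mp μ (S i) (hm i) (hmp i) ((p i).eval (n : ℤ))).quasiMeasurePreserving.ae (hGE i)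
  filter_upwards [h2, h3, h4] with x h2 h3 h4
  obtain ⟨L, hL⟩ := h2
  refine ⟨(∏ i ∈ univ.filter (fun i => ¬ 1 ≤ (p i).natDegree), f i ((S i ^ ((p i).eval 0)) x)) * L,
    ?_⟩
  have h5 := h3.add (hL.const_mul (∏ i ∈ univ.filter (fun i => ¬ 1 ≤ (p i).natDegree),
    f i ((S i ^ ((p i).eval 0)) x)))
  rw [zero_add] at h5
  refine h5.congr fun N => ?_
  rw [mul_left_comm, ← mul_add]
  congr 1
  rw [mul_sum, ← Finset.sum_add_distrib]
  refine Finset.sum_congr rfl fun n _ => ?_
  set e := (Fintype.equivFin {i : Fin k // 1 ≤ (p i).natDegree}).symm with he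
  have h6 : (∏ i ∈ univ.filter (fun i => ¬ 1 ≤ (p i).natDegree), f i ((S i ^ ((p i).eval 0)) x)) *
      ∏ i, G' i ((S i ^ ((p i).eval (n : ℤ))) x) = ∏ i, g i ((S i ^ ((p i).eval (n : ℤ))) x) := by
    rw [Ca_split S p _ e G' x n, Ca_split S p _ e g x n]
    have h7 : ∏ i ∈ univ.filter (fun i => ¬ 1 ≤ (p i).natDegree),
        G' i ((S i ^ ((p i).eval 0)) x) = 1 := by
      refine prod_eq_one fun i hi => ?_
      simp only [hG', if_neg (Finset.mem_filter.1 hi).2]
    rw [h7, one_mul]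
    congr 1
    · refine prod_congr rfl fun i hi => ?_
      simp only [hg, if_neg (Finset.mem_filter.1 hi).2]
    · refine prod_congr rfl fun a _ => ?_
      have h8 := h4 n (e a).1
      simp only [act_single, hG', hg, if_pos (e a).2]
      exact h8
  rw [h6]
  ring

end Pool.Agent.ZEN
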