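import Pool.Agent.ZEN.HsA

set_option autoImplicit false
set_option linter.unusedSectionVars false

/-! Module App: a set measurable with respect to infinitely many `Y_i`, `i ∈ V`, is nearly determined by finitely many.
`app_set`: the class of measurable sets `A` such that for every `δ > 0` there are a finite `D ⊆ V` and a set `B` with `μ(A ∆ B) ≤ δ` and `B` of the form
`{x | (Y_i x)_{i ∈ D} ∈ S}` is a σ-algebra (complements; countable unions: approximate by finite unions, enlarge `D`) containing the sets `Y_i⁻¹{b}`, `i ∈ V`.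
`app`: with `Q = 1_A` (values `z ≠ o`), `R = 1_{A ∆ B}`: `(Q, (Y_i)_{i∈D})` is a function of `(R, (Y_i)_{i∈D})`, so `ent (Q, Y_D) ≤ ent R + ent Y_D` (`ent_map_le`; subadditivity = `ent_submod` with
trivial `W`) and `ent R = negMulLog δ' + negMulLog (1 - δ') → 0` as `δ' = μ(A ∆ B) → 0` (continuity of `negMulLog`). -/

open Finset Filter Topology MeasureTheory

namespace Pool.Agent.ZEN

variable {X : Type*} [mX : MeasurableSpace X] (μ : Measure X) [IsProbabilityMeasure μ]

/-- `B` is determined by the values `Y i`, `i ∈ D` -/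
def App_det {I β : Type*} (Y : I → X → β) (D : Finset I) (B : Set X) : Prop :=
  ∀ x y, (∀ i ∈ D, Y i x = Y i y) → x ∈ B → y ∈ B

lemma App_det_set {I β : Type*} (Y : I → X → β) (D : Finset I) (B : Set X)
    (h : App_det Y D B) : ∃ S : Set (D → β), B = {x | (fun i : D => Y i x) ∈ S} := by
  refine ⟨{f | ∃ x ∈ B, f = fun i : D => Y i x}, ?_⟩
  ext x
  constructor
  · intro hx
    exact ⟨x, hx, rfl⟩
  · rintro ⟨y, hy, hf⟩
    refine h y x (fun i hi => ?_) hy
    exact (congrFun hf ⟨i, hi⟩).symm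

/-- the class of approximable sets -/
def App_cls {I β : Type*} (Y : I → X → β) (V : Set I) (A : Set X) : Prop :=
  MeasurableSet A ∧ ∀ δ : ℝ, 0 < δ → ∃ D : Finset I, (D : Set I) ⊆ V ∧ ∃ B : Set X,
    App_det Y D B ∧ μ.real (symmDiff A B) ≤ δ

lemma App_empty {I β : Type*} (Y : I → X → β) (V : Set I) : App_cls μ Y V ∅ := by
  refine ⟨MeasurableSet.empty, fun δ hδ => ⟨∅, by simp, ∅, fun _ _ _ h => h, ?_⟩⟩
  simp [hδ.le]

lemma App_compl {I β : Type*} (Y : I → X → β) (V : Set I) (A : Set X) (h : App_cls μ Y V A) :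
    App_cls μ Y V Aᶜ := by
  refine ⟨h.1.compl, fun δ hδ => ?_⟩
  obtain ⟨D, hD, B, hB, hm⟩ := h.2 δ hδ
  refine ⟨D, hD, Bᶜ, fun x y hxy hx hy => hx (hB y x (fun i hi => (hxy i hi).symm) hy), ?_⟩
  rwa [compl_symmDiff_compl]

lemma App_iUnion {I β : Type*} [DecidableEq I] (Y : I → X → β) (V : Set I) (A : ℕ → Set X)
    (h : ∀ n, App_cls μ Y V (A n)) : App_cls μ Y V (⋃ n, A n) := by
  refine ⟨MeasurableSet.iUnion fun n => (h n).1, fun δ hδ => ?_⟩
  -- tail estimate
  have hlim : Tendsto (fun N : ℕ => μ.real ((⋃ n, A n) \ ⋃ n ∈ Finset.range N, A n)) atTop (𝓝 0) := by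
    have h1 : ∀ N : ℕ, μ.real ((⋃ n, A n) \ ⋃ n ∈ Finset.range N, A n) =
        μ.real (⋃ n, A n) - μ.real (⋃ n ∈ Finset.range N, A n) := by
      intro N
      rw [measureReal_sdiff]
      · exact Set.iUnion₂_subset fun n _ => Set.subset_iUnion A n
      · exact Finset.measurableSet_biUnion _ fun n _ => (h n).1
    simp_rw [h1]
    have h2 : Tendsto (fun N : ℕ => μ.real (⋃ n ∈ Finset.range N, A n)) atTop
        (𝓝 (μ.real (⋃ n, A n))) := by
      have hmono : Monotone fun N : ℕ => ⋃ n ∈ Finset.range N, A n := by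
        intro a b hab
        exact Set.biUnion_subset_biUnion_left fun n hn => by
          simp only [Finset.mem_coe, Finset.mem_range] at hn ⊢; omega
      have h3 := tendsto_measure_iUnion_atTop (μ := μ) hmono
      have h4 : (⋃ N : ℕ, ⋃ n ∈ Finset.range N, A n) = ⋃ n, A n := by
        ext x
        simp only [Set.mem_iUnion, Finset.mem_range]
        constructor
        · rintro ⟨N, n, _, hx⟩; exact ⟨n, hx⟩
        · rintro ⟨n, hx⟩; exact ⟨n + 1, n, by omega, hx⟩
      rw [h4] at h3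
      exact (ENNReal.tendsto_toReal (measure_ne_top μ _)).comp h3
    have := (tendsto_const_nhds (x := μ.real (⋃ n, A n))).sub h2
    simpa using this
  obtain ⟨N, hN⟩ := ((hlim.eventually_lt_const (half_pos hδ)).exists)
  -- approximations
  have hpos : 0 < δ / 2 / (N + 1 : ℝ) := by positivity
  choose D hD B hB hm using fun n => (h n).2 (δ / 2 / (N + 1 : ℝ)) hpos
  refine ⟨(Finset.range N).biUnion D, ?_, ⋃ n ∈ Finset.range N, B n, ?_, ?_⟩
  · intro i hi
    simp only [Finset.coe_biUnion, Set.mem_iUnion] at hi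
    obtain ⟨n, _, hi⟩ := hi
    exact hD n hi
  · intro x y hxy hx
    simp only [Set.mem_iUnion] at hx ⊢
    obtain ⟨n, hn, hx⟩ := hx
    exact ⟨n, hn, hB n x y (fun i hi => hxy i (Finset.mem_biUnion.2 ⟨n, hn, hi⟩)) hx⟩
  · have hsub : symmDiff (⋃ n, A n) (⋃ n ∈ Finset.range N, B n) ⊆
        ((⋃ n, A n) \ ⋃ n ∈ Finset.range N, A n) ∪
          ⋃ n ∈ Finset.range N, symmDiff (A n) (B n) := by
      intro x hx
      rw [Set.mem_symmDiff] at hx
      rcases hx with ⟨h1, h2⟩ | ⟨h1, h2⟩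
      · by_cases h3 : x ∈ ⋃ n ∈ Finset.range N, A n
        · right
          simp only [Set.mem_iUnion] at h3 h2 ⊢
          obtain ⟨n, hn, hx⟩ := h3
          refine ⟨n, hn, Set.mem_symmDiff.2 (Or.inl ⟨hx, fun hb => h2 ⟨n, hn, hb⟩⟩)⟩
        · left
          exact ⟨h1, h3⟩
      · right
        simp only [Set.mem_iUnion] at h1 h2 ⊢
        obtain ⟨n, hn, hx⟩ := h1
        exact ⟨n, hn, Set.mem_symmDiff.2 (Or.inr ⟨hx, fun ha => h2 ⟨n, ha⟩⟩)⟩
    calc μ.real (symmDiff (⋃ n, A n) (⋃ n ∈ Finset.range N, B n)) ≤ _ := measureReal_mono hsub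
      _ ≤ μ.real ((⋃ n, A n) \ ⋃ n ∈ Finset.range N, A n) +
          μ.real (⋃ n ∈ Finset.range N, symmDiff (A n) (B n)) := measureReal_union_le _ _
      _ ≤ δ / 2 + ∑ n ∈ Finset.range N, μ.real (symmDiff (A n) (B n)) := by
          gcongr
          exact measureReal_biUnion_finset_le _ _
      _ ≤ δ / 2 + ∑ n ∈ Finset.range N, δ / 2 / (N + 1 : ℝ) := by
          gcongr with n hn
          exact hm n
      _ = δ / 2 + N / (N + 1 : ℝ) * (δ / 2) := by
          rw [Finset.sum_const, Finset.card_range, nsmul_eq_mul]; ring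
      _ ≤ δ / 2 + 1 * (δ / 2) := by
          gcongr
          rw [div_le_one (by positivity)]
          linarith
      _ = δ := by ring

lemma App_meas_pre {I β : Type*} [Fintype β] (Y : I → X → β)
    (hY : ∀ i b, MeasurableSet (Y i ⁻¹' {b})) (i : I) (s : Set β) : MeasurableSet (Y i ⁻¹' s) := by
  have : Y i ⁻¹' s = ⋃ b ∈ s, Y i ⁻¹' {b} := by
    ext x; simp
  rw [this]
  exact MeasurableSet.biUnion (Set.to_countable s) fun b _ => hY i b

lemma App_le {I β : Type*} [Fintype β] [DecidableEq I] (Y : I → X → β)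
    (hY : ∀ i b, MeasurableSet (Y i ⁻¹' {b})) (V : Set I) (A : Set X)
    (hA : MeasurableSet[⨆ i : V, MeasurableSpace.comap (Y i) ⊤] A) : App_cls μ Y V A := by
  have hpre : ∀ (i : V) (t : Set β), App_cls μ Y V (Y i ⁻¹' t) := by
    intro i t
    refine ⟨App_meas_pre Y hY i t, fun δ hδ => ⟨{(i : I)}, ?_, Y i ⁻¹' t, ?_, ?_⟩⟩
    · simp
    · intro x y hxy hx
      have := hxy i (Finset.mem_singleton_self _)
      simpa [Set.mem_preimage, ← this] using hx
    · simp [hδ.le]
  let m' : MeasurableSpace X :=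
    { MeasurableSet' := fun A => App_cls μ Y V A
      measurableSet_empty := App_empty μ Y V
      measurableSet_compl := fun A h => App_compl μ Y V A h
      measurableSet_iUnion := fun A h => App_iUnion μ Y V A h }
  have hle : (⨆ i : V, MeasurableSpace.comap (Y i) ⊤) ≤ m' := by
    refine iSup_le fun i => ?_
    rintro s ⟨t, _, rfl⟩
    exact hpre i t
  exact hle A hA

theorem app_set {I β : Type*} [Fintype β] [DecidableEq I] (Y : I → X → β)
    (hY : ∀ i b, MeasurableSet (Y i ⁻¹' {b})) (V : Set I) (A : Set X)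
    (hA : MeasurableSet[⨆ i : V, MeasurableSpace.comap (Y i) ⊤] A) (δ : ℝ) (hδ : 0 < δ) :
    ∃ D : Finset I, (D : Set I) ⊆ V ∧ ∃ S : Set (D → β),
      μ.real (symmDiff A {x | (fun i : D => Y i x) ∈ S}) ≤ δ := by
  obtain ⟨D, hD, B, hB, hm⟩ := (App_le μ Y hY V A hA).2 δ hδ
  obtain ⟨S, rfl⟩ := App_det_set Y D B hB
  exact ⟨D, hD, S, hm⟩

lemma App_meas_tuple {I β : Type*} [Fintype β] (Y : I → X → β)
    (hY : ∀ i b, MeasurableSet (Y i ⁻¹' {b})) (D : Finset I) (S : Set (D → β)) :
    MeasurableSet {x | (fun i : D => Y i x) ∈ S} := by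
  classical
  have : {x | (fun i : D => Y i x) ∈ S} = ⋃ f ∈ S, ⋂ i : D, Y i ⁻¹' {f i} := by
    ext x
    simp only [Set.mem_ofPred_eq, Set.mem_iUnion, Set.mem_iInter, Set.mem_preimage,
      Set.mem_singleton_iff, exists_prop]
    constructor
    · intro h
      exact ⟨_, h, fun i => rfl⟩
    · rintro ⟨f, hf, h⟩
      have : (fun i : D => Y i x) = f := funext h
      rwa [this]
  rw [this]
  exact MeasurableSet.biUnion (Set.to_countable S) fun f _ =>
    MeasurableSet.iInter fun i => hY i (f i)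

lemma App_ent_add {α γ : Type*} [Fintype α] [Fintype γ] (U : X → α) (V : X → γ)
    (hU : ∀ b, MeasurableSet (U ⁻¹' {b})) (hV : ∀ b, MeasurableSet (V ⁻¹' {b})) :
    ent μ (fun x => (U x, V x)) ≤ ent μ U + ent μ V := by
  have hW : ∀ b : Unit, MeasurableSet ((fun _ : X => ()) ⁻¹' {b}) := by
    intro b
    simp
  have h1 := ent_submod μ U V (fun _ => ()) hU hV hW
  have h0 : ent μ (fun _ : X => ()) = 0 := by
    simp [ent]
  have e1 := ent_map_inj μ U (fun u => (u, ())) (fun a b h => (Prod.ext_iff.1 h).1) hU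
  have e2 := ent_map_inj μ V (fun u => (u, ())) (fun a b h => (Prod.ext_iff.1 h).1) hV
  have hUV : ∀ b : α × γ × Unit, MeasurableSet ((fun x => (U x, V x, ())) ⁻¹' {b}) := by
    rintro ⟨a, c, u⟩
    have : (fun x => (U x, V x, ())) ⁻¹' {(a, c, u)} = U ⁻¹' {a} ∩ V ⁻¹' {c} := by
      ext x; simp
    rw [this]
    exact (hU a).inter (hV c)
  have e3 := ent_map_le μ (fun x => (U x, V x, ())) (fun p => (p.1, p.2.1)) hUV
  simp only at e1 e2 e3
  rw [e1, e2, h0] at h1
  linarith

lemma App_ent_bool (R : Set X) (hR : MeasurableSet R) : open Classical in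
    ent μ (fun x => decide (x ∈ R)) =
      Real.negMulLog (μ.real R) + Real.negMulLog (1 - μ.real R) := by
  classical
  unfold ent
  rw [Fintype.sum_bool]
  have h1 : (fun x => decide (x ∈ R)) ⁻¹' {true} = R := by
    ext x; simp
  have h2 : (fun x => decide (x ∈ R)) ⁻¹' {false} = Rᶜ := by
    ext x; simp
  rw [h1, h2, probReal_compl_eq_one_sub hR]

lemma App_small (ε : ℝ) (hε : 0 < ε) : ∃ δ : ℝ, 0 < δ ∧ ∀ t : ℝ, 0 ≤ t → t ≤ δ →
    Real.negMulLog t + Real.negMulLog (1 - t) ≤ ε := by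
  have hc : Continuous fun t : ℝ => Real.negMulLog t + Real.negMulLog (1 - t) := by
    have := Real.continuous_negMulLog
    fun_prop
  have h1 : Tendsto (fun t : ℝ => Real.negMulLog t + Real.negMulLog (1 - t)) (𝓝 0) (𝓝 0) := by
    have := hc.tendsto 0
    simpa using this
  rw [Metric.tendsto_nhds] at h1
  have h2 := h1 ε hε
  rw [Metric.eventually_nhds_iff] at h2
  obtain ⟨δ, hδ, h3⟩ := h2
  refine ⟨δ / 2, by positivity, fun t ht0 ht => ?_⟩
  have h4 := h3 (y := t) (by rw [Real.dist_eq, sub_zero, abs_of_nonneg ht0]; linarith)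
  rw [Real.dist_eq, sub_zero] at h4
  exact (le_abs_self _).trans h4.le

theorem app {I β : Type*} [Fintype β] [DecidableEq I] (Y : I → X → β)
    (hY : ∀ i b, MeasurableSet (Y i ⁻¹' {b})) (V : Set I) (A : Set X)
    (hA : MeasurableSet[⨆ i : V, MeasurableSpace.comap (Y i) ⊤] A) (z o : β) (ε : ℝ)
    (hε : 0 < ε) : open Classical in
    ∃ D : Finset I, (D : Set I) ⊆ V ∧
      ent μ (fun x => ((if x ∈ A then o else z : β), fun i : D => Y i x)) ≤ Hs μ Y D + ε := by
  classical
  obtain ⟨δ, hδ, hsm⟩ := App_small ε hε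
  obtain ⟨D, hD, S, hS⟩ := app_set μ Y hY V A hA δ hδ
  refine ⟨D, hD, ?_⟩
  set R := symmDiff A {x | (fun i : D => Y i x) ∈ S} with hR
  have hRm : MeasurableSet R :=
    ((App_le μ Y hY V A hA).1).symmDiff (App_meas_tuple Y hY D S)
  set φ : Bool × (D → β) → β × (D → β) := fun p =>
    ((if (p.1 = true ↔ p.2 ∉ S) then o else z), p.2) with hφ
  have hRb : ∀ b : Bool, MeasurableSet ((fun x => decide (x ∈ R)) ⁻¹' {b}) := by
    intro b
    cases b
    · have h2 : (fun x => decide (x ∈ R)) ⁻¹' {false} = Rᶜ := by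
        ext x; simp
      rw [h2]; exact hRm.compl
    · have h1 : (fun x => decide (x ∈ R)) ⁻¹' {true} = R := by
        ext x; simp
      rw [h1]; exact hRm
  have hYD : ∀ b : D → β, MeasurableSet ((fun x (i : D) => Y i x) ⁻¹' {b}) := fun b =>
    App_meas_tuple Y hY D {b}
  have hP : ∀ b : Bool × (D → β),
      MeasurableSet ((fun x => (decide (x ∈ R), fun i : D => Y i x)) ⁻¹' {b}) := by
    rintro ⟨b, f⟩
    have : (fun x => (decide (x ∈ R), fun i : D => Y i x)) ⁻¹' {(b, f)} =
        (fun x => decide (x ∈ R)) ⁻¹' {b} ∩ (fun x (i : D) => Y i x) ⁻¹' {f} := by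
      ext x
      simp only [Set.mem_preimage, Set.mem_singleton_iff, Prod.mk.injEq, Set.mem_inter_iff]
    rw [this]
    exact (hRb b).inter (hYD f)
  have e1 : (fun x => ((if x ∈ A then o else z : β), fun i : D => Y i x)) =
      fun x => φ (decide (x ∈ R), fun i : D => Y i x) := by
    funext x
    simp only [hφ, decide_eq_true_eq]
    congr 1
    by_cases h1 : x ∈ A <;> by_cases h2 : (fun i : D => Y i x) ∈ S
    · have : x ∉ R := by rw [hR, Set.mem_symmDiff]; simp [h1, h2]
      simp [h1, h2, this]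
    · have : x ∈ R := by rw [hR, Set.mem_symmDiff]; simp [h1, h2]
      simp [h1, h2, this]
    · have : x ∈ R := by rw [hR, Set.mem_symmDiff]; simp [h1, h2]
      simp [h1, h2, this]
    · have : x ∉ R := by rw [hR, Set.mem_symmDiff]; simp [h1, h2]
      simp [h1, h2, this]
  calc ent μ (fun x => ((if x ∈ A then o else z : β), fun i : D => Y i x))
      = ent μ (fun x => φ (decide (x ∈ R), fun i : D => Y i x)) := by rw [e1]
    _ ≤ ent μ (fun x => (decide (x ∈ R), fun i : D => Y i x)) := ent_map_le μ _ φ hP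
    _ ≤ ent μ (fun x => decide (x ∈ R)) + ent μ (fun x (i : D) => Y i x) :=
        App_ent_add μ _ _ hRb hYD
    _ ≤ ε + Hs μ Y D := by
        have := App_ent_bool μ R hRm
        rw [this]
        have := hsm (μ.real R) measureReal_nonneg hS
        unfold Hs
        linarith
    _ = Hs μ Y D + ε := by ring

end Pool.Agent.ZEN
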