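import Pool.Agent.ZEN.Defs

set_option autoImplicit false

/-! Module AvgZ: convergence to zero of averages of real functions.
`orth_ae`: `∫ (∑_{n<N} G n)² ≤ C² (n0² + 2 n0 N + (2d + 1) N) ≤ C' N` (pairs with `n, n' ≥ n0` and `|n - n'| ≥ d` contribute `0`); `CAM.ae_of_l2` with `F n = G n / (|C| + 1)` (as a complex function), `m = 2`.
`cloz`: as `CAM.clo` but with limit `0`: choose `g_j` with `∫|f - g_j| ≤ 4^(-j)`, `CAM.max_erg`, Borel-Cantelli: for a.e. `x` and all large `j`, `|avg (f(S^n x) w n x) N - avg (g_j(S^n x) w n x) N| ≤ C 2^(-j)` for all `N`,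
so `limsup |avg (f (S^n x) w n x)| ≤ C 2^(-j)`. -/

open Finset Filter Topology MeasureTheory

namespace Pool.Agent.ZEN

private theorem AvgZ_count (N n0 d : ℕ) :
    ∑ n ∈ range N, ∑ n' ∈ range N, ((if n < n0 then (1 : ℝ) else 0) + (if n' < n0 then (1 : ℝ) else 0) +
      (if n < n' + d ∧ n' < n + d then (1 : ℝ) else 0)) ≤ (2 * n0 + 2 * d) * N := by
  simp only [sum_add_distrib]
  have h1 : ∑ n ∈ range N, (if n < n0 then (1 : ℝ) else 0) ≤ n0 := by
    rw [← sum_filter, sum_const, nsmul_eq_mul, mul_one]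
    have : ((range N).filter (fun n => n < n0)).card ≤ n0 := by
      calc ((range N).filter (fun n => n < n0)).card ≤ (range n0).card := by
            apply card_le_card
            intro n hn
            simp only [mem_filter, mem_range] at hn ⊢
            exact hn.2
        _ = n0 := card_range n0
    exact_mod_cast this
  have h2 : ∀ n, ∑ n' ∈ range N, (if n < n' + d ∧ n' < n + d then (1 : ℝ) else 0) ≤ 2 * d := by
    intro n
    rw [← sum_filter, sum_const, nsmul_eq_mul, mul_one]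
    have : ((range N).filter (fun n' => n < n' + d ∧ n' < n + d)).card ≤ 2 * d := by
      calc ((range N).filter (fun n' => n < n' + d ∧ n' < n + d)).card ≤ (Ico (n - d) (n + d)).card := by
            apply card_le_card
            intro m hm
            simp only [mem_filter, mem_range, mem_Ico] at hm ⊢
            omega
        _ ≤ 2 * d := by rw [Nat.card_Ico]; omega
    exact_mod_cast this
  have e1 : ∑ n ∈ range N, ∑ n' ∈ range N, (if n < n0 then (1 : ℝ) else 0) ≤ N * n0 := by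
    simp only [sum_const, card_range, nsmul_eq_mul]
    rw [← mul_sum]
    exact mul_le_mul_of_nonneg_left h1 (Nat.cast_nonneg N)
  have e2 : ∑ n ∈ range N, ∑ n' ∈ range N, (if n' < n0 then (1 : ℝ) else 0) ≤ N * n0 := by
    rw [sum_const, card_range, nsmul_eq_mul]
    exact mul_le_mul_of_nonneg_left h1 (Nat.cast_nonneg N)
  have e3 : ∑ n ∈ range N, ∑ n' ∈ range N, (if n < n' + d ∧ n' < n + d then (1 : ℝ) else 0) ≤
      N * (2 * d) := by
    calc _ ≤ ∑ n ∈ range N, (2 * (d : ℝ)) := sum_le_sum fun n _ => h2 n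
      _ = N * (2 * d) := by rw [sum_const, card_range, nsmul_eq_mul]
  nlinarith [e1, e2, e3]

private theorem AvgZ_l2 {X : Type*} [MeasurableSpace X] (μ : Measure X) [IsProbabilityMeasure μ]
    (G : ℕ → X → ℝ) (hm : ∀ n, Measurable (G n)) (C : ℝ) (hC : ∀ n x, |G n x| ≤ C) (n0 d : ℕ)
    (horth : ∀ n n', n0 ≤ n → n + d ≤ n' → ∫ x, G n x * G n' x ∂μ = 0) (N : ℕ) :
    ∫ x, (∑ n ∈ range N, G n x) ^ 2 ∂μ ≤ C ^ 2 * ((2 * n0 + 2 * d) * N) := by
  have hb : ∀ n n' x, |G n x * G n' x| ≤ C ^ 2 := by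
    intro n n' x
    rw [abs_mul, sq]
    exact mul_le_mul (hC n x) (hC n' x) (abs_nonneg _) ((abs_nonneg _).trans (hC n x))
  have hi : ∀ n n', Integrable (fun x => G n x * G n' x) μ := by
    intro n n'
    exact Integrable.of_bound ((hm n).mul (hm n')).aestronglyMeasurable (C ^ 2)
      (Eventually.of_forall fun x => by rw [Real.norm_eq_abs]; exact hb n n' x)
  have e : ∀ x, (∑ n ∈ range N, G n x) ^ 2 = ∑ n ∈ range N, ∑ n' ∈ range N, G n x * G n' x := by
    intro x
    rw [sq, sum_mul_sum]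
  simp_rw [e]
  rw [integral_finsetSum _ (fun n _ => integrable_finsetSum _ (fun n' _ => hi n n'))]
  have e2 : ∀ n ∈ range N, ∫ x, ∑ n' ∈ range N, G n x * G n' x ∂μ =
      ∑ n' ∈ range N, ∫ x, G n x * G n' x ∂μ := by
    intro n _
    rw [integral_finsetSum _ (fun n' _ => hi n n')]
  rw [sum_congr rfl e2]
  refine le_trans ?_ (mul_le_mul_of_nonneg_left (AvgZ_count N n0 d) (sq_nonneg C))
  rw [mul_sum]
  refine sum_le_sum fun n _ => ?_
  rw [mul_sum]
  refine sum_le_sum fun n' _ => ?_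
  have hle : ∫ x, G n x * G n' x ∂μ ≤ C ^ 2 := by
    calc ∫ x, G n x * G n' x ∂μ ≤ ∫ _, C ^ 2 ∂μ :=
          integral_mono (hi n n') (integrable_const _) (fun x => (le_abs_self _).trans (hb n n' x))
      _ = C ^ 2 := by simp
  have hC2 : 0 ≤ C ^ 2 := sq_nonneg C
  by_cases h1 : n < n0
  · rw [if_pos h1]
    refine hle.trans ?_
    have ha : (0 : ℝ) ≤ (if n' < n0 then (1 : ℝ) else 0) := by split_ifs <;> norm_num
    have hb : (0 : ℝ) ≤ (if n < n' + d ∧ n' < n + d then (1 : ℝ) else 0) := by split_ifs <;> norm_num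
    nlinarith [mul_nonneg hC2 ha, mul_nonneg hC2 hb]
  · rw [if_neg h1]
    by_cases h2 : n' < n0
    · rw [if_pos h2]
      refine hle.trans ?_
      have hb : (0 : ℝ) ≤ (if n < n' + d ∧ n' < n + d then (1 : ℝ) else 0) := by
        split_ifs <;> norm_num
      nlinarith [mul_nonneg hC2 hb]
    · rw [if_neg h2]
      by_cases h3 : n < n' + d ∧ n' < n + d
      · rw [if_pos h3]
        linarith
      · rw [if_neg h3]
        have h4 : ∫ x, G n x * G n' x ∂μ = 0 := by
          rcases Nat.lt_or_ge n' (n + d) with h5 | h5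
          · have h6 : n' + d ≤ n := by
              by_contra h7
              exact h3 ⟨by omega, h5⟩
            have h8 := horth n' n (by omega) h6
            simpa only [mul_comm] using h8
          · exact horth n n' (by omega) h5
        rw [h4]
        simp

theorem orth_ae {X : Type*} [MeasurableSpace X] (μ : Measure X) [IsProbabilityMeasure μ]
    (G : ℕ → X → ℝ) (hm : ∀ n, Measurable (G n)) (C : ℝ) (hC : ∀ n x, |G n x| ≤ C) (n0 d : ℕ)
    (horth : ∀ n n', n0 ≤ n → n + d ≤ n' → ∫ x, G n x * G n' x ∂μ = 0) :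
    ∀ᵐ x ∂μ, Tendsto (avg (fun n => G n x)) atTop (𝓝 0) := by
  have hK : 0 < |C| + 1 := by positivity
  have h1 := CAM.ae_of_l2 μ (fun n x => ((G n x / (|C| + 1) : ℝ) : ℂ))
    (fun n => (Complex.measurable_ofReal.comp ((hm n).div_const _)).aestronglyMeasurable)
    (fun n x => by
      rw [Complex.norm_real, Real.norm_eq_abs, abs_div, abs_of_pos hK, div_le_one hK]
      exact (hC n x).trans ((le_abs_self C).trans (by linarith)))
    2 (by norm_num) (C ^ 2 * (2 * n0 + 2 * d)) (by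
      intro j hj
      have hj0 : (0 : ℝ) < j := by exact_mod_cast hj
      have e1 : ∀ x, ‖∑ n ∈ range (j ^ 2), ((G n x / (|C| + 1) : ℝ) : ℂ)‖ ^ 2 =
          (∑ n ∈ range (j ^ 2), G n x) ^ 2 / (|C| + 1) ^ 2 := by
        intro x
        rw [← Complex.ofReal_sum, Complex.norm_real, Real.norm_eq_abs, sq_abs, ← sum_div, div_pow]
      simp_rw [e1]
      rw [integral_div]
      have h2 := AvgZ_l2 μ G hm C hC n0 d horth (j ^ 2)
      have h3 : 0 ≤ ∫ x, (∑ n ∈ range (j ^ 2), G n x) ^ 2 ∂μ :=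
        integral_nonneg fun x => sq_nonneg _
      have h4 : (∫ x, (∑ n ∈ range (j ^ 2), G n x) ^ 2 ∂μ) / (|C| + 1) ^ 2 ≤
          ∫ x, (∑ n ∈ range (j ^ 2), G n x) ^ 2 ∂μ := by
        apply div_le_self h3
        have : (1 : ℝ) ≤ |C| + 1 := by linarith [abs_nonneg C]
        exact one_le_pow₀ this
      refine h4.trans (h2.trans (le_of_eq ?_))
      push_cast
      field_simp)
  filter_upwards [h1] with x hx
  have h2 : Tendsto (fun N => (|C| + 1) * (CAM.ces (fun n => ((G n x / (|C| + 1) : ℝ) : ℂ)) N).re)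
      atTop (𝓝 0) := by
    have h3 := (Complex.continuous_re.tendsto (0 : ℂ)).comp hx
    have h4 := h3.const_mul (|C| + 1)
    simpa using h4
  refine h2.congr fun N => ?_
  have e2 : CAM.ces (fun n => ((G n x / (|C| + 1) : ℝ) : ℂ)) N =
      (((1 / (N : ℝ)) * ∑ n ∈ range N, G n x / (|C| + 1) : ℝ) : ℂ) := by
    unfold CAM.ces
    push_cast
    rfl
  rw [e2, Complex.ofReal_re, avg, ← sum_div]
  field_simp

private theorem AvgZ_avg_le (s t : ℕ → ℝ) (l : ℝ) (hl : 0 ≤ l) (N : ℕ)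
    (h : ∑ n ∈ range N, |s n - t n| ≤ l * N) : |avg s N - avg t N| ≤ l := by
  rcases Nat.eq_zero_or_pos N with rfl | hN
  · simp only [avg, Finset.range_zero, Finset.sum_empty, mul_zero, sub_zero, abs_zero]
    exact hl
  · have hN' : (0 : ℝ) < N := by exact_mod_cast hN
    have e : avg s N - avg t N = (1 / (N : ℝ)) * ∑ n ∈ range N, (s n - t n) := by
      simp only [avg, Finset.sum_sub_distrib, mul_sub]
    rw [e, abs_mul, abs_of_pos (by positivity : (0 : ℝ) < 1 / N)]
    have h2 : |∑ n ∈ range N, (s n - t n)| ≤ l * N := (abs_sum_le_sum_abs _ _).trans h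
    calc 1 / (N : ℝ) * |∑ n ∈ range N, (s n - t n)| ≤ 1 / (N : ℝ) * (l * N) :=
          mul_le_mul_of_nonneg_left h2 (by positivity)
      _ = l := by field_simp

theorem cloz {X : Type*} [MeasurableSpace X] (μ : Measure X) [IsProbabilityMeasure μ] (S : X → X)
    (hS : MeasurePreserving S μ μ) (w : ℕ → X → ℝ) (C : ℝ) (hw : ∀ n x, |w n x| ≤ C) (f : X → ℝ)
    (hfm : Measurable f) (hf : Integrable f μ)
    (h : ∀ ε : ℝ, 0 < ε → ∃ g : X → ℝ, Measurable g ∧ Integrable g μ ∧ ∫ x, |f x - g x| ∂μ ≤ ε ∧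
      ∀ᵐ x ∂μ, Tendsto (avg (fun n => g (S^[n] x) * w n x)) atTop (𝓝 0)) :
    ∀ᵐ x ∂μ, Tendsto (avg (fun n => f (S^[n] x) * w n x)) atTop (𝓝 0) := by
  have h4 : ∀ j : ℕ, ∃ g : X → ℝ, Measurable g ∧ Integrable g μ ∧
      ∫ x, |f x - g x| ∂μ ≤ (1 / 2 : ℝ) ^ j * (1 / 2 : ℝ) ^ j ∧
      ∀ᵐ x ∂μ, Tendsto (avg (fun n => g (S^[n] x) * w n x)) atTop (𝓝 0) :=
    fun j => h _ (by positivity)
  choose g hgm hgi hgε hgc using h4
  let B : ℕ → Set X := fun j =>
    {x | ∃ N : ℕ, (1 / 2 : ℝ) ^ j * N < ∑ n ∈ range N, |f (S^[n] x) - g j (S^[n] x)|}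
  have hB : ∀ j, μ (B j) ≤ ENNReal.ofReal ((1 / 2 : ℝ) ^ j) := by
    intro j
    have hm : Measurable (fun x => |f x - g j x|) := (hfm.sub (hgm j)).norm
    have hi : Integrable (fun x => |f x - g j x|) μ := (hf.sub (hgi j)).abs
    have h1 := CAM.max_erg μ S hS (fun x => |f x - g j x|) (fun x => abs_nonneg _) hm hi
      ((1 / 2 : ℝ) ^ j) (by positivity)
    refine h1.trans (ENNReal.ofReal_le_ofReal ?_)
    rw [div_le_iff₀ (by positivity)]
    exact hgε j
  have hsum : ∑' j, μ (B j) ≠ ⊤ := by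
    refine ne_top_of_le_ne_top ?_ (ENNReal.tsum_le_tsum hB)
    rw [← ENNReal.ofReal_tsum_of_nonneg (fun j => by positivity) summable_geometric_two]
    exact ENNReal.ofReal_ne_top
  have hBC := ae_eventually_notMem hsum
  have hC : ∀ᵐ x ∂μ, ∀ j, Tendsto (avg (fun n => g j (S^[n] x) * w n x)) atTop (𝓝 0) :=
    ae_all_iff.mpr hgc
  filter_upwards [hBC, hC] with x hx hxc
  have hC0 : 0 ≤ C := (abs_nonneg _).trans (hw 0 x)
  rw [Metric.tendsto_atTop]
  intro ε hε
  have hlim : Tendsto (fun j : ℕ => C * (1 / 2 : ℝ) ^ j) atTop (𝓝 0) := by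
    simpa using (tendsto_pow_atTop_nhds_zero_of_lt_one (by norm_num : (0 : ℝ) ≤ 1 / 2)
      (by norm_num)).const_mul C
  obtain ⟨j, hj1, hj2⟩ := ((hlim.eventually (gt_mem_nhds (half_pos hε))).and hx).exists
  obtain ⟨N0, hN0⟩ := (Metric.tendsto_atTop.mp (hxc j)) (ε / 2) (by positivity)
  refine ⟨N0, fun N hN => ?_⟩
  have h1 := hN0 N hN
  rw [Real.dist_eq, sub_zero] at h1 ⊢
  have h2 : |avg (fun n => f (S^[n] x) * w n x) N - avg (fun n => g j (S^[n] x) * w n x) N| ≤
      C * (1 / 2 : ℝ) ^ j := by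
    refine AvgZ_avg_le _ _ _ (by positivity) N ?_
    have hj3 : ∑ n ∈ range N, |f (S^[n] x) - g j (S^[n] x)| ≤ (1 / 2 : ℝ) ^ j * N := by
      by_contra hcon
      exact hj2 ⟨N, not_le.mp hcon⟩
    calc ∑ n ∈ range N, |f (S^[n] x) * w n x - g j (S^[n] x) * w n x|
        ≤ ∑ n ∈ range N, C * |f (S^[n] x) - g j (S^[n] x)| := by
          refine sum_le_sum fun n _ => ?_
          rw [← sub_mul, abs_mul, mul_comm]
          exact mul_le_mul_of_nonneg_right (hw n x) (abs_nonneg _)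
      _ = C * ∑ n ∈ range N, |f (S^[n] x) - g j (S^[n] x)| := by rw [mul_sum]
      _ ≤ C * ((1 / 2 : ℝ) ^ j * N) := mul_le_mul_of_nonneg_left hj3 hC0
      _ = C * (1 / 2 : ℝ) ^ j * N := by ring
  calc |avg (fun n => f (S^[n] x) * w n x) N|
      = |(avg (fun n => f (S^[n] x) * w n x) N - avg (fun n => g j (S^[n] x) * w n x) N) +
        avg (fun n => g j (S^[n] x) * w n x) N| := by rw [sub_add_cancel]
    _ ≤ _ := abs_add_le _ _
    _ < ε := by linarith

theorem avg_add (s t : ℕ → ℝ) (N : ℕ) : avg (fun n => s n + t n) N = avg s N + avg t N := by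
  simp only [avg, sum_add_distrib, mul_add]

/-- uniform approximation -/
theorem avg_approx {s : ℕ → ℝ} (h : ∀ ε : ℝ, 0 < ε → ∃ t : ℕ → ℝ,
    Tendsto (avg t) atTop (𝓝 0) ∧ ∀ n, |s n - t n| ≤ ε) : Tendsto (avg s) atTop (𝓝 0) := by
  rw [Metric.tendsto_atTop]
  intro ε hε
  obtain ⟨t, ht, hst⟩ := h (ε / 2) (by positivity)
  obtain ⟨N0, hN0⟩ := (Metric.tendsto_atTop.mp ht) (ε / 2) (by positivity)
  refine ⟨N0, fun N hN => ?_⟩
  have h1 := hN0 N hN
  rw [Real.dist_eq, sub_zero] at h1 ⊢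
  have h2 : |avg s N - avg t N| ≤ ε / 2 := AvgZ_avg_le s t (ε / 2) (by positivity) N
    ((sum_le_sum fun n _ => hst n).trans (by
      rw [sum_const, card_range, nsmul_eq_mul, mul_comm]))
  calc |avg s N| = |(avg s N - avg t N) + avg t N| := by rw [sub_add_cancel]
    _ ≤ |avg s N - avg t N| + |avg t N| := abs_add_le _ _
    _ < ε := by linarith

end Pool.Agent.ZEN
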