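import Pool.Agent.ZEN.Defs

set_option autoImplicit false

/-! Module Box: boxes in `ℤ^r` have small boundary, and an injective homomorphism `ℤ^r → ℝ` exists.
`box_card`: `n^r`.  `box_bdry`: if `v ∈ box n` and `v + d ∉ box n` then some coordinate `v_j` satisfies `v_j < K` or `v_j ≥ n - K`, `K = max |d_j|` over `D`; for each `j` at most
`2 K n^(r-1)` such `v` (`2K/n` of the box), so at most `2 K r n^(r-1) ≤ ε n^r` for `n ≥ 2 K r / ε` (for `r = 0` there are none: `v + d = v`).
`ell`: `l v = ∑ v_j α^j` with `α` transcendental (`Liouville`, `transcendental_liouvilleNumber`, or a cardinality argument): `l v = 0` says that the integer polynomial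
`∑ v_j X^j` vanishes at `α`, so it is `0`. -/

open Finset Filter Topology MeasureTheory

namespace Pool.Agent.ZEN

theorem box_card (r n : ℕ) : (box r n).card = n ^ r := by
  unfold box
  rw [Fintype.card_piFinset]
  simp

theorem mem_box {r n : ℕ} {v : Zr r} : v ∈ box r n ↔ ∀ j, 0 ≤ v j ∧ v j < n := by
  unfold box
  rw [Fintype.mem_piFinset]
  simp only [Finset.mem_Ico]

theorem box_bdry {r : ℕ} (D : Finset (Zr r)) (ε : ℝ) (hε : 0 < ε) : ∃ n0 : ℕ, 1 ≤ n0 ∧
    ∀ n : ℕ, n0 ≤ n → open Classical in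
      (((box r n).filter (fun v => ∃ d ∈ D, v + d ∉ box r n)).card : ℝ) ≤ ε * (n : ℝ) ^ r := by
  classical
  -- a bound for the coordinates
  obtain ⟨K, hK⟩ : ∃ K : ℕ, ∀ d ∈ D, ∀ j, |d j| ≤ (K : ℤ) := by
    refine ⟨∑ d ∈ D, ∑ j, (d j).natAbs, fun d hd j => ?_⟩
    have h1 : (d j).natAbs ≤ ∑ d ∈ D, ∑ j, (d j).natAbs :=
      (single_le_sum (f := fun j => (d j).natAbs) (fun _ _ => Nat.zero_le _) (mem_univ j)).trans
        (single_le_sum (f := fun d : Zr r => ∑ j, (d j).natAbs) (fun _ _ => Nat.zero_le _) hd)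
    have h2 : ((d j).natAbs : ℤ) = |d j| := Int.natCast_natAbs _
    rw [← h2]
    exact_mod_cast h1
  refine ⟨max 1 (max (2 * K) ⌈2 * K * r / ε⌉₊), le_max_left _ _, fun n hn => ?_⟩
  have hn1 : 1 ≤ n := (le_max_left _ _).trans hn
  have hn2 : 2 * K ≤ n := ((le_max_left _ _).trans (le_max_right _ _)).trans hn
  have hn3 : 2 * K * r / ε ≤ n := by
    have h1 : ⌈2 * (K : ℝ) * r / ε⌉₊ ≤ n := ((le_max_right _ _).trans (le_max_right _ _)).trans hn
    exact (Nat.le_ceil _).trans (by exact_mod_cast h1)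
  have hnR : (0 : ℝ) < n := by exact_mod_cast hn1
  set G : Finset (Zr r) := Fintype.piFinset (fun _ => Finset.Ico (K : ℤ) (n - K)) with hG
  have hGc : G.card = (n - 2 * K) ^ r := by
    rw [hG, Fintype.card_piFinset]
    simp only [Int.card_Ico, prod_const, card_univ, Fintype.card_fin]
    congr 1
    omega
  have hGs : G ⊆ box r n := by
    intro v hv
    rw [hG, Fintype.mem_piFinset] at hv
    rw [mem_box]
    intro j
    have := Finset.mem_Ico.1 (hv j)
    omega
  have hsub : (box r n).filter (fun v => ∃ d ∈ D, v + d ∉ box r n) ⊆ box r n \ G := by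
    intro v hv
    rw [mem_filter] at hv
    obtain ⟨h1, d, hd, h2⟩ := hv
    refine Finset.mem_sdiff.2 ⟨h1, fun h3 => h2 ?_⟩
    rw [hG, Fintype.mem_piFinset] at h3
    rw [mem_box]
    intro j
    have h4 := Finset.mem_Ico.1 (h3 j)
    have h5 := abs_le.1 (hK d hd j)
    simp only [Pi.add_apply]
    omega
  have hcard : (((box r n).filter (fun v => ∃ d ∈ D, v + d ∉ box r n)).card : ℝ) ≤
      (n : ℝ) ^ r - ((n : ℝ) - 2 * K) ^ r := by
    have h1 := card_le_card hsub
    have h2 : (((box r n) \ G).card : ℝ) = (n : ℝ) ^ r - ((n : ℝ) - 2 * K) ^ r := by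
      rw [card_sdiff_of_subset hGs, Nat.cast_sub (card_le_card hGs), box_card, hGc]
      push_cast [Nat.cast_sub hn2]
      rfl
    rw [← h2]
    exact_mod_cast h1
  have hbern : 1 - (r : ℝ) * (2 * K / n) ≤ (1 - 2 * K / n) ^ r := by
    have h1 : (-2 : ℝ) ≤ -(2 * K / n) := by
      have : (2 * (K : ℝ)) / n ≤ 1 := by
        rw [div_le_one hnR]
        exact_mod_cast hn2
      linarith
    have h2 := one_add_mul_le_pow h1 r
    have h3 : (1 : ℝ) + r * -(2 * K / n) = 1 - r * (2 * K / n) := by ring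
    have h4 : (1 : ℝ) + -(2 * K / n) = 1 - 2 * K / n := by ring
    rw [h3, h4] at h2
    exact h2
  have hpow : ((n : ℝ) - 2 * K) ^ r = (n : ℝ) ^ r * (1 - 2 * K / n) ^ r := by
    rw [← mul_pow]
    congr 1
    field_simp
  have hfin : (r : ℝ) * (2 * K / n) ≤ ε := by
    rw [div_le_iff₀ hε] at hn3
    rw [mul_div_assoc', div_le_iff₀ hnR]
    linarith
  have hnr : (0 : ℝ) ≤ (n : ℝ) ^ r := by positivity
  calc _ ≤ (n : ℝ) ^ r - ((n : ℝ) - 2 * K) ^ r := hcard
    _ = (n : ℝ) ^ r * (1 - (1 - 2 * K / n) ^ r) := by rw [hpow]; ring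
    _ ≤ (n : ℝ) ^ r * ((r : ℝ) * (2 * K / n)) := mul_le_mul_of_nonneg_left (by linarith) hnr
    _ ≤ (n : ℝ) ^ r * ε := mul_le_mul_of_nonneg_left hfin hnr
    _ = ε * (n : ℝ) ^ r := by ring

theorem ell (r : ℕ) : ∃ l : Zr r →+ ℝ, Function.Injective l := by
  have hα : Transcendental ℤ (liouvilleNumber (2 : ℕ)) := transcendental_liouvilleNumber le_rfl
  set α : ℝ := liouvilleNumber (2 : ℕ) with hαd
  let l : Zr r →+ ℝ :=
    { toFun := fun v => ∑ j, (v j : ℝ) * α ^ (j : ℕ)
      map_zero' := by simp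
      map_add' := fun u v => by
        rw [← sum_add_distrib]
        apply sum_congr rfl
        intro j _
        simp only [Pi.add_apply]
        push_cast
        ring }
  refine ⟨l, (injective_iff_map_eq_zero l).2 fun v hv => ?_⟩
  set p : Polynomial ℤ := ∑ j : Fin r, Polynomial.C (v j) * Polynomial.X ^ (j : ℕ) with hp
  have h1 : Polynomial.aeval α p = 0 := by
    rw [hp, map_sum]
    have h2 : l v = ∑ j, (v j : ℝ) * α ^ (j : ℕ) := rfl
    rw [h2] at hv
    rw [← hv]
    apply sum_congr rfl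
    intro j _
    simp
  have h2 : p = 0 := by
    by_contra hne
    exact hα ⟨p, hne, h1⟩
  funext j
  have h3 : p.coeff (j : ℕ) = v j := by
    rw [hp, Polynomial.finset_sum_coeff]
    rw [sum_eq_single j]
    · simp
    · intro i _ hij
      simp only [Polynomial.coeff_C_mul, Polynomial.coeff_X_pow]
      rw [if_neg, mul_zero]
      intro h
      exact hij (Fin.ext h.symm)
    · intro h
      exact absurd (mem_univ j) h
  rw [← h3, h2]
  rfl

end Pool.Agent.ZEN
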