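import Pool.Agent.CAM.Edl
import Pool.Agent.CAM.Mxe

set_option autoImplicit false

/-! Common definitions for squad ZEN (MP_d464d9_an: the Pinsker factor of a measure preserving
action of `ℤ^r` is pointwise characteristic for multiple averages with linear exponents). -/

open Finset Filter Topology MeasureTheory

namespace Pool.Agent.ZEN

/-- the lattice `ℤ^r` -/
abbrev Zr (r : ℕ) := Fin r → ℤ

/-- measure preserving action of `ℤ^r` -/
structure IsAct {X : Type*} [MeasurableSpace X] (μ : Measure X) {r : ℕ} (T : Zr r → X → X) :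
    Prop where
  zero : T 0 = id
  add : ∀ u v, T (u + v) = T u ∘ T v
  mp : ∀ v, MeasurePreserving (T v) μ μ

/-- Shannon entropy of a finite valued function -/
noncomputable def ent {X β : Type*} [MeasurableSpace X] [Fintype β] (μ : Measure X) (P : X → β) :
    ℝ :=
  ∑ b, Real.negMulLog (μ.real (P ⁻¹' {b}))

/-- the box `[0, n)^r` -/
noncomputable def box (r n : ℕ) : Finset (Zr r) := Fintype.piFinset (fun _ => Finset.Ico (0 : ℤ) n)

/-- measurable sets of zero entropy: the entropy of the partitions generated by the translates of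
`{A, Aᶜ}` in boxes is `o(volume)` -/
def IsZE {X : Type*} [MeasurableSpace X] (μ : Measure X) {r : ℕ} (T : Zr r → X → X) (A : Set X) :
    Prop :=
  MeasurableSet A ∧ ∀ ε : ℝ, 0 < ε → ∃ n : ℕ, 1 ≤ n ∧
    open Classical in ent μ (fun x (v : box r n) => decide (T v x ∈ A)) ≤ ε * (n : ℝ) ^ r

/-- the Pinsker σ-algebra: generated by the sets of zero entropy -/
@[reducible] def Pin {X : Type*} [MeasurableSpace X] (μ : Measure X) {r : ℕ} (T : Zr r → X → X) :
    MeasurableSpace X :=
  MeasurableSpace.generateFrom {A | IsZE μ T A}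

/-- entropy of the finite subfamily `D` of a family of finite valued functions -/
noncomputable def Hs {X I β : Type*} [MeasurableSpace X] [Fintype β] [DecidableEq I]
    (μ : Measure X) (Y : I → X → β) (D : Finset I) : ℝ :=
  ent μ (fun x (i : D) => Y i x)

/-- indices of type `false` (for `P`) -/
def pS {r : ℕ} (D : Finset (Zr r)) : Finset (Bool × Zr r) := D.image (fun v => (false, v))

/-- indices of type `true` (for `Q`) -/
def qS {r : ℕ} (D : Finset (Zr r)) : Finset (Bool × Zr r) := D.image (fun v => (true, v))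

/-- submodular shift invariant set functions -/
structure Subm {r : ℕ} (H : Finset (Bool × Zr r) → ℝ) (L : ℝ) : Prop where
  empty : H ∅ = 0
  mono : ∀ D E, D ⊆ E → H D ≤ H E
  sub : ∀ D E, H (D ∪ E) + H (D ∩ E) ≤ H D + H E
  single : ∀ i, H {i} ≤ L
  shift : ∀ (u : Zr r) (D : Finset (Bool × Zr r)), H (D.image (fun i => (i.1, i.2 + u))) = H D

/-- the σ-algebra of the past up to level `c` of the functional `l` -/
@[reducible] def lev {X : Type*} {r M : ℕ} (T : Zr r → X → X) (P : X → Fin M) (l : Zr r →+ ℝ) (c : ℝ) :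
    MeasurableSpace X :=
  ⨆ v : {v : Zr r // l v ≤ c}, MeasurableSpace.comap (fun x => P (T v x)) ⊤

/-- the tail σ-algebra -/
@[reducible] def tail {X : Type*} {r M : ℕ} (T : Zr r → X → X) (P : X → Fin M) (l : Zr r →+ ℝ) :
    MeasurableSpace X :=
  ⨅ n : ℕ, lev T P l (-(n : ℝ))

/-- averages of a real sequence -/
noncomputable def avg (s : ℕ → ℝ) (N : ℕ) : ℝ := (1 / (N : ℝ)) * ∑ n ∈ range N, s n

end Pool.Agent.ZEN
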