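import Pool.Agent.ZEN.Defs

set_option autoImplicit false

/-! Module EntA: Shannon entropy of finite valued measurable functions on a probability space.
Every `β` is finite with all subsets measurable; `P` measurable means all `P⁻¹{b}` measurable.
`ent_nonneg`: `negMulLog ≥ 0` on `[0,1]`.  `ent_le_log`: Jensen (or `log x ≤ x - 1`: `∑ p log(1/(p n)) ≤ ∑ (1/n - p) = 0`).
`ent_map_le`: `ent (φ ∘ P) ≤ ent P`: `μ((φ∘P)⁻¹{c}) = ∑_{φ b = c} μ(P⁻¹{b})` and `negMulLog` is subadditive on nonnegative reals (`(a+b) log(a+b) ≥ a log a + b log b`).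
`ent_map_inj`: equality for injective `φ` (the other values have measure `0`).
`ent_comp`: `μ((P∘S)⁻¹{b}) = μ(P⁻¹{b})`.
`ent_submod` (strong subadditivity): with `p(x,y,z)` the joint probabilities, `∑ p(x,y,z) log( p(x,z) p(y,z) / (p(x,y,z) p(z)) ) ≤ ∑ (p(x,z)p(y,z)/p(z) - p(x,y,z)) ≤ 0`
(`log t ≤ t - 1`, sums over the triples with `p(x,y,z) > 0`), and expand the logarithm; marginals `p(x,z) = ∑_y p(x,y,z)` etc. -/

open Finset Filter Topology MeasureTheory

namespace Pool.Agent.ZEN

variable {X : Type*} [MeasurableSpace X] (μ : Measure X) [IsProbabilityMeasure μ]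

private theorem EntA_nml_sum_le {ι : Type*} (s : Finset ι) (a : ι → ℝ) (ha : ∀ i ∈ s, 0 ≤ a i) :
    Real.negMulLog (∑ i ∈ s, a i) ≤ ∑ i ∈ s, Real.negMulLog (a i) := by
  have h1 : ∑ i ∈ s, a i * Real.log (a i) ≤ (∑ i ∈ s, a i) * Real.log (∑ i ∈ s, a i) := by
    rw [Finset.sum_mul]
    apply Finset.sum_le_sum
    intro i hi
    rcases (ha i hi).eq_or_lt with h | h
    · rw [← h]; simp
    · exact mul_le_mul_of_nonneg_left (Real.log_le_log h (Finset.single_le_sum ha hi)) h.le
  have h2 : ∑ i ∈ s, Real.negMulLog (a i) = - ∑ i ∈ s, a i * Real.log (a i) := by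
    rw [← Finset.sum_neg_distrib]
    apply Finset.sum_congr rfl
    intro i _
    simp [Real.negMulLog]
  rw [h2]
  simp only [Real.negMulLog, neg_mul]
  linarith

private theorem EntA_sum_pre {β : Type*} [Fintype β] (P : X → β)
    (hP : ∀ b, MeasurableSet (P ⁻¹' {b})) (s : Finset β) :
    ∑ b ∈ s, μ.real (P ⁻¹' {b}) = μ.real (P ⁻¹' (s : Set β)) :=
  sum_measureReal_preimage_singleton s (fun y _ => hP y)

private theorem EntA_sum_one {β : Type*} [Fintype β] (P : X → β)
    (hP : ∀ b, MeasurableSet (P ⁻¹' {b})) :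
    ∑ b, μ.real (P ⁻¹' {b}) = 1 := by
  rw [EntA_sum_pre μ P hP]
  simp

theorem ent_nonneg {β : Type*} [Fintype β] (P : X → β) : 0 ≤ ent μ P := by
  unfold ent
  apply Finset.sum_nonneg
  intro b _
  exact Real.negMulLog_nonneg measureReal_nonneg measureReal_le_one

theorem ent_le_log {β : Type*} [Fintype β] [Nonempty β] (P : X → β)
    (hP : ∀ b, MeasurableSet (P ⁻¹' {b})) : ent μ P ≤ Real.log (Fintype.card β) := by
  have hn : (0 : ℝ) < (Fintype.card β : ℝ) := by exact_mod_cast Fintype.card_pos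
  set n : ℝ := (Fintype.card β : ℝ) with hndef
  have key : ∀ p : ℝ, 0 ≤ p → Real.negMulLog p ≤ p * Real.log n + (1 / n - p) := by
    intro p hp
    rcases hp.eq_or_lt with h | h
    · rw [← h]; simp [hn.le]
    · have h3 := Real.log_le_sub_one_of_pos (x := 1 / (p * n)) (by positivity)
      rw [one_div, Real.log_inv, Real.log_mul h.ne' hn.ne'] at h3
      have h4 := mul_le_mul_of_nonneg_left h3 h.le
      have h5 : p * ((p * n)⁻¹ - 1) = 1 / n - p := by field_simp
      rw [h5] at h4
      simp only [Real.negMulLog, neg_mul]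
      nlinarith [h4]
  unfold ent
  calc ∑ b, Real.negMulLog (μ.real (P ⁻¹' {b}))
      ≤ ∑ b, (μ.real (P ⁻¹' {b}) * Real.log n + (1 / n - μ.real (P ⁻¹' {b}))) :=
        Finset.sum_le_sum (fun b _ => key _ measureReal_nonneg)
    _ = Real.log n := by
        rw [Finset.sum_add_distrib, Finset.sum_sub_distrib, ← Finset.sum_mul,
          EntA_sum_one μ P hP]
        simp only [Finset.sum_const, Finset.card_univ, nsmul_eq_mul]
        rw [← hndef, mul_one_div_cancel hn.ne']
        ring

theorem ent_map_le {β γ : Type*} [Fintype β] [Fintype γ] (P : X → β) (φ : β → γ)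
    (hP : ∀ b, MeasurableSet (P ⁻¹' {b})) : ent μ (fun x => φ (P x)) ≤ ent μ P := by
  classical
  unfold ent
  have h1 : ∀ c : γ, μ.real ((fun x => φ (P x)) ⁻¹' {c})
      = ∑ b ∈ univ.filter (fun b => φ b = c), μ.real (P ⁻¹' {b}) := by
    intro c
    rw [EntA_sum_pre μ P hP]
    congr 1
    ext x
    simp
  calc ∑ c, Real.negMulLog (μ.real ((fun x => φ (P x)) ⁻¹' {c}))
      ≤ ∑ c, ∑ b ∈ univ.filter (fun b => φ b = c), Real.negMulLog (μ.real (P ⁻¹' {b})) := by
        apply Finset.sum_le_sum
        intro c _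
        rw [h1 c]
        exact EntA_nml_sum_le _ _ (fun i _ => measureReal_nonneg)
    _ = ∑ b, Real.negMulLog (μ.real (P ⁻¹' {b})) := Finset.sum_fiberwise _ _ _

theorem ent_map_inj {β γ : Type*} [Fintype β] [Fintype γ] (P : X → β) (φ : β → γ)
    (hφ : Function.Injective φ) (hP : ∀ b, MeasurableSet (P ⁻¹' {b})) :
    ent μ (fun x => φ (P x)) = ent μ P := by
  classical
  unfold ent
  symm
  apply Finset.sum_of_injOn φ hφ.injOn (fun _ _ => by simp)
  · intro c _ hc
    have : (fun x => φ (P x)) ⁻¹' {c} = ∅ := by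
      ext x
      simp only [Set.mem_preimage, Set.mem_singleton_iff, Set.mem_empty_iff_false, iff_false]
      intro h
      exact hc ⟨P x, by simp, h⟩
    rw [this]
    simp
  · intro b _
    congr 2
    ext x
    simp [hφ.eq_iff]

theorem ent_comp {β : Type*} [Fintype β] (P : X → β) (S : X → X) (hS : MeasurePreserving S μ μ)
    (hP : ∀ b, MeasurableSet (P ⁻¹' {b})) : ent μ (fun x => P (S x)) = ent μ P := by
  unfold ent
  apply Finset.sum_congr rfl
  intro b _
  have : (fun x => P (S x)) ⁻¹' {b} = S ⁻¹' (P ⁻¹' {b}) := rfl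
  rw [this, hS.measureReal_preimage (hP b).nullMeasurableSet]

private theorem EntA_submod {α β γ : Type*} [Fintype α] [Fintype β] [Fintype γ]
    (p : α → β → γ → ℝ) (hp : ∀ x y z, 0 ≤ p x y z) :
    (∑ x, ∑ y, ∑ z, Real.negMulLog (p x y z)) + ∑ z, Real.negMulLog (∑ x, ∑ y, p x y z) ≤
      (∑ x, ∑ z, Real.negMulLog (∑ y, p x y z)) + ∑ y, ∑ z, Real.negMulLog (∑ x, p x y z) := by
  classical
  set q : α → γ → ℝ := fun x z => ∑ y, p x y z with hq
  set r : β → γ → ℝ := fun y z => ∑ x, p x y z with hr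
  set s : γ → ℝ := fun z => ∑ x, ∑ y, p x y z with hs
  have hqn : ∀ x z, 0 ≤ q x z := fun x z => Finset.sum_nonneg (fun y _ => hp x y z)
  have hrn : ∀ y z, 0 ≤ r y z := fun y z => Finset.sum_nonneg (fun x _ => hp x y z)
  have hsn : ∀ z, 0 ≤ s z := fun z => Finset.sum_nonneg (fun x _ => hqn x z)
  have hpq : ∀ x y z, p x y z ≤ q x z := fun x y z =>
    Finset.single_le_sum (f := fun y => p x y z) (fun y _ => hp x y z) (mem_univ y)
  have hpr : ∀ x y z, p x y z ≤ r y z := fun x y z =>
    Finset.single_le_sum (f := fun x => p x y z) (fun x _ => hp x y z) (mem_univ x)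
  have hqs : ∀ x z, q x z ≤ s z := fun x z =>
    Finset.single_le_sum (f := fun x => q x z) (fun x _ => hqn x z) (mem_univ x)
  have key : ∀ x y z, p x y z * (Real.log (q x z) + Real.log (r y z) - Real.log (p x y z)
      - Real.log (s z)) ≤ q x z * r y z / s z - p x y z := by
    intro x y z
    rcases (hp x y z).eq_or_lt with h | h
    · rw [← h]
      simp only [zero_mul, sub_zero]
      exact div_nonneg (mul_nonneg (hqn x z) (hrn y z)) (hsn z)
    · have h1 : 0 < q x z := lt_of_lt_of_le h (hpq x y z)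
      have h2 : 0 < r y z := lt_of_lt_of_le h (hpr x y z)
      have h3 : 0 < s z := lt_of_lt_of_le h1 (hqs x z)
      have h4 := Real.log_le_sub_one_of_pos (x := q x z * r y z / (p x y z * s z)) (by positivity)
      rw [Real.log_div (by positivity) (by positivity), Real.log_mul h1.ne' h2.ne',
        Real.log_mul h.ne' h3.ne'] at h4
      have h5 := mul_le_mul_of_nonneg_left h4 h.le
      have h6 : p x y z * (q x z * r y z / (p x y z * s z) - 1) = q x z * r y z / s z - p x y z := by
        field_simp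
      rw [h6] at h5
      linarith
  have hS : ∑ x, ∑ y, ∑ z, (q x z * r y z / s z - p x y z) = 0 := by
    have e1 : ∀ z, ∑ x, ∑ y, q x z * r y z / s z = s z := by
      intro z
      have : ∑ x, ∑ y, q x z * r y z / s z = (∑ x, q x z) * (∑ y, r y z) / s z := by
        rw [Finset.sum_mul_sum, Finset.sum_div]
        apply Finset.sum_congr rfl
        intro x _
        rw [Finset.sum_div]
      rw [this]
      have e2 : ∑ y, r y z = s z := by
        simp only [hr, hs]
        rw [Finset.sum_comm]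
      have e3 : ∑ x, q x z = s z := rfl
      rw [e2, e3]
      rcases (hsn z).eq_or_lt with h | h
      · rw [← h]; simp
      · field_simp
    have e4 : ∑ x, ∑ y, ∑ z, q x z * r y z / s z = ∑ z, s z := by
      calc ∑ x, ∑ y, ∑ z, q x z * r y z / s z
          = ∑ x, ∑ z, ∑ y, q x z * r y z / s z := by
            apply Finset.sum_congr rfl; intro x _; exact Finset.sum_comm
        _ = ∑ z, ∑ x, ∑ y, q x z * r y z / s z := Finset.sum_comm
        _ = ∑ z, s z := Finset.sum_congr rfl (fun z _ => e1 z)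
    have e5 : ∑ x, ∑ y, ∑ z, p x y z = ∑ z, s z := by
      calc ∑ x, ∑ y, ∑ z, p x y z
          = ∑ x, ∑ z, ∑ y, p x y z := by
            apply Finset.sum_congr rfl; intro x _; exact Finset.sum_comm
        _ = ∑ z, s z := Finset.sum_comm
    simp only [Finset.sum_sub_distrib]
    rw [e4, e5, sub_self]
  have hL : ∑ x, ∑ y, ∑ z, p x y z * (Real.log (q x z) + Real.log (r y z) - Real.log (p x y z)
      - Real.log (s z)) ≤ 0 := by
    rw [← hS]
    exact Finset.sum_le_sum (fun x _ => Finset.sum_le_sum (fun y _ => Finset.sum_le_sum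
      (fun z _ => key x y z)))
  have f1 : ∑ x, ∑ y, ∑ z, p x y z * Real.log (q x z) = ∑ x, ∑ z, q x z * Real.log (q x z) := by
    apply Finset.sum_congr rfl; intro x _
    rw [Finset.sum_comm]
    apply Finset.sum_congr rfl; intro z _
    rw [← Finset.sum_mul]
  have f2 : ∑ x, ∑ y, ∑ z, p x y z * Real.log (r y z) = ∑ y, ∑ z, r y z * Real.log (r y z) := by
    rw [Finset.sum_comm]
    apply Finset.sum_congr rfl; intro y _
    rw [Finset.sum_comm]
    apply Finset.sum_congr rfl; intro z _
    rw [← Finset.sum_mul]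
  have f3 : ∑ x, ∑ y, ∑ z, p x y z * Real.log (s z) = ∑ z, s z * Real.log (s z) := by
    calc ∑ x, ∑ y, ∑ z, p x y z * Real.log (s z)
        = ∑ x, ∑ z, ∑ y, p x y z * Real.log (s z) := by
          apply Finset.sum_congr rfl; intro x _; exact Finset.sum_comm
      _ = ∑ z, ∑ x, ∑ y, p x y z * Real.log (s z) := Finset.sum_comm
      _ = ∑ z, s z * Real.log (s z) := by
          apply Finset.sum_congr rfl; intro z _
          simp only [hs]
          rw [Finset.sum_mul]
          apply Finset.sum_congr rfl; intro x _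
          rw [Finset.sum_mul]
  have hL2 : (∑ x, ∑ z, q x z * Real.log (q x z)) + (∑ y, ∑ z, r y z * Real.log (r y z))
      - (∑ x, ∑ y, ∑ z, p x y z * Real.log (p x y z)) - (∑ z, s z * Real.log (s z)) ≤ 0 := by
    rw [← f1, ← f2, ← f3]
    simp only [← Finset.sum_add_distrib, ← Finset.sum_sub_distrib]
    refine le_trans (le_of_eq ?_) hL
    apply Finset.sum_congr rfl; intro x _
    apply Finset.sum_congr rfl; intro y _
    apply Finset.sum_congr rfl; intro z _
    ring
  simp only [Real.negMulLog, neg_mul, Finset.sum_neg_distrib]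
  have g1 : ∑ z, (∑ x, ∑ y, p x y z) * Real.log (∑ x, ∑ y, p x y z)
      = ∑ z, s z * Real.log (s z) := rfl
  have g2 : ∑ x, ∑ z, (∑ y, p x y z) * Real.log (∑ y, p x y z)
      = ∑ x, ∑ z, q x z * Real.log (q x z) := rfl
  have g3 : ∑ y, ∑ z, (∑ x, p x y z) * Real.log (∑ x, p x y z)
      = ∑ y, ∑ z, r y z * Real.log (r y z) := rfl
  rw [g1, g2, g3]
  linarith

theorem ent_submod {α β γ : Type*} [Fintype α] [Fintype β] [Fintype γ] (U : X → α) (V : X → β)
    (W : X → γ) (hU : ∀ b, MeasurableSet (U ⁻¹' {b})) (hV : ∀ b, MeasurableSet (V ⁻¹' {b}))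
    (hW : ∀ b, MeasurableSet (W ⁻¹' {b})) :
    ent μ (fun x => (U x, V x, W x)) + ent μ W ≤
      ent μ (fun x => (U x, W x)) + ent μ (fun x => (V x, W x)) := by
  classical
  set p : α → β → γ → ℝ := fun a b c => μ.real (U ⁻¹' {a} ∩ V ⁻¹' {b} ∩ W ⁻¹' {c}) with hpdef
  have hp : ∀ x y z, 0 ≤ p x y z := fun _ _ _ => measureReal_nonneg
  have m := EntA_submod p hp
  -- splitting along a variable
  have splitV : ∀ s : Set X, MeasurableSet s → ∑ b, μ.real (V ⁻¹' {b} ∩ s) = μ.real s := by
    intro s hs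
    have h := sum_measureReal_preimage_singleton (μ := μ.restrict s) (univ : Finset β) (f := V)
      (fun y _ => hV y)
    simp only [coe_univ, Set.preimage_univ] at h
    rw [measureReal_restrict_apply MeasurableSet.univ, Set.univ_inter] at h
    rw [← h]
    apply Finset.sum_congr rfl
    intro b _
    rw [measureReal_restrict_apply (hV b)]
  have splitU : ∀ s : Set X, MeasurableSet s → ∑ b, μ.real (U ⁻¹' {b} ∩ s) = μ.real s := by
    intro s hs
    have h := sum_measureReal_preimage_singleton (μ := μ.restrict s) (univ : Finset α) (f := U)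
      (fun y _ => hU y)
    simp only [coe_univ, Set.preimage_univ] at h
    rw [measureReal_restrict_apply MeasurableSet.univ, Set.univ_inter] at h
    rw [← h]
    apply Finset.sum_congr rfl
    intro b _
    rw [measureReal_restrict_apply (hU b)]
  have q1 : ∀ a c, ∑ b, p a b c = μ.real (U ⁻¹' {a} ∩ W ⁻¹' {c}) := by
    intro a c
    rw [← splitV _ ((hU a).inter (hW c))]
    apply Finset.sum_congr rfl
    intro b _
    simp only [hpdef]
    congr 1
    ext x
    simp only [Set.mem_inter_iff]
    tauto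
  have q2 : ∀ b c, ∑ a, p a b c = μ.real (V ⁻¹' {b} ∩ W ⁻¹' {c}) := by
    intro b c
    rw [← splitU _ ((hV b).inter (hW c))]
    apply Finset.sum_congr rfl
    intro a _
    simp only [hpdef]
    congr 1
    ext x
    simp only [Set.mem_inter_iff]
    tauto
  have q3 : ∀ c, ∑ a, ∑ b, p a b c = μ.real (W ⁻¹' {c}) := by
    intro c
    rw [← splitU _ (hW c)]
    apply Finset.sum_congr rfl
    intro a _
    rw [q1]
  have r1 : ent μ (fun x => (U x, V x, W x)) = ∑ a, ∑ b, ∑ c, Real.negMulLog (p a b c) := by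
    unfold ent
    rw [Fintype.sum_prod_type]
    apply Finset.sum_congr rfl; intro a _
    rw [Fintype.sum_prod_type]
    apply Finset.sum_congr rfl; intro b _
    apply Finset.sum_congr rfl; intro c _
    congr 2
    ext x
    simp only [Set.mem_preimage, Set.mem_singleton_iff, Prod.mk.injEq, Set.mem_inter_iff]
    tauto
  have r2 : ent μ (fun x => (U x, W x)) = ∑ a, ∑ c, Real.negMulLog (∑ b, p a b c) := by
    unfold ent
    rw [Fintype.sum_prod_type]
    apply Finset.sum_congr rfl; intro a _
    apply Finset.sum_congr rfl; intro c _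
    rw [q1]
    congr 2
    ext x
    simp
  have r3 : ent μ (fun x => (V x, W x)) = ∑ b, ∑ c, Real.negMulLog (∑ a, p a b c) := by
    unfold ent
    rw [Fintype.sum_prod_type]
    apply Finset.sum_congr rfl; intro a _
    apply Finset.sum_congr rfl; intro c _
    rw [q2]
    congr 2
    ext x
    simp
  have r4 : ent μ W = ∑ c, Real.negMulLog (∑ a, ∑ b, p a b c) := by
    unfold ent
    apply Finset.sum_congr rfl; intro c _
    rw [q3]
  rw [r1, r2, r3, r4]
  exact m

end Pool.Agent.ZEN
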