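import Pool.Agent.ZEN.Box

set_option autoImplicit false

/-! Module Fol: combinatorial entropy estimate.  `H` is a monotone, submodular, shift invariant set function on finite subsets of two copies of `ℤ^r` (indices `p v = (false, v)`,
`q v = (true, v)`), `l` injective functional.  `h = inf` over finite `D ⊆ {l < 0}` of `H (pS D ∪ {p 0}) - H (pS D)` (`≥ 0` by monotonicity: bounded below).
`(inc)` submodularity: for `D ⊆ E`, any `i`: `H (E ∪ {i}) - H E ≤ H (D ∪ {i}) - H D` (if `i ∉ E` apply `sub` to `D ∪ {i}` and `E`; if `i ∈ E` the left side is `0`, `mono`).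
`fol_a`: for finite `D ⊆ {l < l v}` and any finite `G`: `H (pS D ∪ qS G ∪ {p v}) - H (pS D ∪ qS G) ≥ h`.  By `hq` (level `c = l v`) choose finite `D_u ⊆ {l < l v}` for `u ∈ G` with
  `H (pS D_u ∪ {q u}) - H (pS D_u) ≤ ε`; `D' = D ∪ ⋃ D_u`; by `(inc)` `H (pS D' ∪ qS G) ≤ H (pS D') + |G| ε`, and
  `H (pS D ∪ qS G ∪ {p v}) - H (pS D ∪ qS G) ≥ H (pS D' ∪ qS G ∪ {p v}) - H (pS D' ∪ qS G) ≥ H (pS D' ∪ {p v}) - H (pS D') - |G| ε ≥ h - |G| ε` (shift by `-v`), `ε → 0`.
`fol_b`: `H (pS F ∪ qS G) - H (qS G) ≥ |F| h`: induction on `|F|`, remove the element `v` of `F` with the largest `l v` and use `fol_a`.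
`fol_c`: if `D ⊆ {l < 0}` is finite with `H (pS D ∪ {p 0}) - H (pS D) ≤ κ` then `H (pS F) ≤ |F| κ + #{v ∈ F : ∃ d ∈ D, v + d ∉ F} L`: for `F` general, induction over the initial segments
  `F' = {u ∈ F : l u < l v}` (add the elements in increasing order of `l`): if `v + D ⊆ F` then `v + D ⊆ F'`, so by `(inc)` and shift the increment is `≤ κ`; otherwise it is `≤ H {p v} ≤ L`.
`fol_d`: if `H (pS D ∪ {q 0}) - H (pS D) ≤ ε` then `H (pS F ∪ qS F) - H (pS F) ≤ |F| ε + #{v ∈ F : ∃ d ∈ D, v + d ∉ F} L` (add the `q v` one by one).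
`folner`: `F = box n`; `H (qS F) = H (pS F ∪ qS F) - (H (pS F ∪ qS F) - H (qS F)) ≤ H (pS F) + |F| ε + bdry L - |F| h ≤ 2 |F| ε + 2 bdry L`; `box_bdry`, `box_card`. -/

open Finset Filter Topology MeasureTheory

namespace Pool.Agent.ZEN

/-- the conditional entropy of `p 0` given the past -/
noncomputable def hinf {r : ℕ} (H : Finset (Bool × Zr r) → ℝ) (l : Zr r →+ ℝ) : ℝ :=
  ⨅ D : {D : Finset (Zr r) // ∀ v ∈ D, l v < 0}, (H (pS D.1 ∪ {(false, 0)}) - H (pS D.1))

/-! auxiliary -/

theorem Fol_mem_pS {r : ℕ} {D : Finset (Zr r)} {i : Bool × Zr r} :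
    i ∈ pS D ↔ i.1 = false ∧ i.2 ∈ D := by
  unfold pS
  rw [mem_image]
  constructor
  · rintro ⟨v, hv, rfl⟩; exact ⟨rfl, hv⟩
  · rintro ⟨h1, h2⟩; exact ⟨i.2, h2, by rw [← h1]⟩

theorem Fol_mem_qS {r : ℕ} {D : Finset (Zr r)} {i : Bool × Zr r} :
    i ∈ qS D ↔ i.1 = true ∧ i.2 ∈ D := by
  unfold qS
  rw [mem_image]
  constructor
  · rintro ⟨v, hv, rfl⟩; exact ⟨rfl, hv⟩
  · rintro ⟨h1, h2⟩; exact ⟨i.2, h2, by rw [← h1]⟩

theorem inc {r : ℕ} {H : Finset (Bool × Zr r) → ℝ} {L : ℝ} (hH : Subm H L)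
    {D E : Finset (Bool × Zr r)} (h : D ⊆ E) (i : Bool × Zr r) :
    H (E ∪ {i}) - H E ≤ H (D ∪ {i}) - H D := by
  by_cases hi : i ∈ E
  · have h1 : E ∪ {i} = E := union_eq_left.2 (singleton_subset_iff.2 hi)
    rw [h1, sub_self]
    have := hH.mono D (D ∪ {i}) subset_union_left
    linarith
  · have h1 : (D ∪ {i}) ∪ E = E ∪ {i} := by
      ext x
      simp only [mem_union, mem_singleton]
      constructor
      · rintro ((h2 | h2) | h2)
        · left; exact h h2
        · right; exact h2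
        · left; exact h2
      · rintro (h2 | h2)
        · right; exact h2
        · left; right; exact h2
    have h2 : (D ∪ {i}) ∩ E = D := by
      ext x
      simp only [mem_union, mem_inter, mem_singleton]
      constructor
      · rintro ⟨h3 | h3, h4⟩
        · exact h3
        · rw [h3] at h4; exact absurd h4 hi
      · intro h3; exact ⟨Or.inl h3, h h3⟩
    have h3 := hH.sub (D ∪ {i}) E
    rw [h1, h2] at h3
    linarith

/-- adding many elements to a base set -/
theorem Fol_many {r : ℕ} {H : Finset (Bool × Zr r) → ℝ} {L : ℝ} (hH : Subm H L)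
    (B S : Finset (Bool × Zr r)) (b : Bool × Zr r → ℝ) (hb : ∀ i ∈ S, H (B ∪ {i}) - H B ≤ b i) :
    H (B ∪ S) ≤ H B + ∑ i ∈ S, b i := by
  classical
  induction S using Finset.induction_on with
  | empty => simp
  | insert a S ha ih =>
    have h1 := ih (fun i hi => hb i (mem_insert_of_mem hi))
    have h2 := hb a (mem_insert_self a S)
    have h3 := inc hH (subset_union_left : B ⊆ B ∪ S) a
    have h4 : B ∪ insert a S = (B ∪ S) ∪ {a} := by
      rw [union_assoc, insert_eq, union_comm S {a}]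
    rw [h4, sum_insert ha]
    linarith

/-- shift of a conditional entropy -/
theorem Fol_shift {r : ℕ} {H : Finset (Bool × Zr r) → ℝ} {L : ℝ} (hH : Subm H L)
    (D : Finset (Zr r)) (b : Bool) (w v : Zr r) :
    H (pS (D.image (fun u => u + v)) ∪ {(b, w + v)}) - H (pS (D.image (fun u => u + v))) =
      H (pS D ∪ {(b, w)}) - H (pS D) := by
  have h1 : (pS D).image (fun i : Bool × Zr r => (i.1, i.2 + v)) = pS (D.image (fun u => u + v)) := by
    unfold pS
    rw [image_image, image_image]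
    rfl
  have h2 : (pS D ∪ {(b, w)}).image (fun i : Bool × Zr r => (i.1, i.2 + v)) =
      pS (D.image (fun u => u + v)) ∪ {(b, w + v)} := by
    rw [image_union, h1, image_singleton]
  rw [← h2, ← h1, hH.shift, hH.shift]

theorem Fol_term_nonneg {r : ℕ} {H : Finset (Bool × Zr r) → ℝ} {L : ℝ} (hH : Subm H L)
    (D : Finset (Bool × Zr r)) (i : Bool × Zr r) : 0 ≤ H (D ∪ {i}) - H D := by
  have := hH.mono D (D ∪ {i}) subset_union_left
  linarith

theorem Fol_bdd {r : ℕ} {H : Finset (Bool × Zr r) → ℝ} {L : ℝ} (hH : Subm H L) (l : Zr r →+ ℝ) :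
    BddBelow (Set.range (fun D : {D : Finset (Zr r) // ∀ v ∈ D, l v < 0} =>
      (H (pS D.1 ∪ {(false, 0)}) - H (pS D.1)))) := by
  refine ⟨0, ?_⟩
  rintro _ ⟨D, rfl⟩
  exact Fol_term_nonneg hH _ _

instance Fol_ne {r : ℕ} (l : Zr r →+ ℝ) : Nonempty {D : Finset (Zr r) // ∀ v ∈ D, l v < 0} :=
  ⟨⟨∅, by simp⟩⟩

theorem Fol_hinf_nonneg {r : ℕ} {H : Finset (Bool × Zr r) → ℝ} {L : ℝ} (hH : Subm H L) (l : Zr r →+ ℝ) :
    0 ≤ hinf H l := by
  unfold hinf
  exact le_ciInf (fun D => Fol_term_nonneg hH _ _)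

theorem Fol_hinf_le {r : ℕ} {H : Finset (Bool × Zr r) → ℝ} {L : ℝ} (hH : Subm H L) (l : Zr r →+ ℝ)
    (v : Zr r) (D : Finset (Zr r)) (hD : ∀ u ∈ D, l u < l v) :
    hinf H l ≤ H (pS D ∪ {(false, v)}) - H (pS D) := by
  classical
  have h1 := Fol_shift hH (D.image (fun u => u - v)) false 0 v
  have h2 : (D.image (fun u => u - v)).image (fun u => u + v) = D := by
    rw [image_image]
    have : ((fun u => u + v) ∘ fun u => u - v) = (id : Zr r → Zr r) := by
      funext u; simp
    rw [this, image_id]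
  rw [h2, zero_add] at h1
  rw [h1]
  unfold hinf
  refine ciInf_le (Fol_bdd hH l) (⟨D.image (fun u => u - v), ?_⟩ : {D : Finset (Zr r) // ∀ v ∈ D, l v < 0})
  intro u hu
  rw [mem_image] at hu
  obtain ⟨w, hw, rfl⟩ := hu
  rw [map_sub]
  have := hD w hw
  linarith

theorem fol_a {r : ℕ} {H : Finset (Bool × Zr r) → ℝ} {L : ℝ} (hH : Subm H L) (l : Zr r →+ ℝ)
    (hl : Function.Injective l)
    (hq : ∀ (u : Zr r) (c ε : ℝ), 0 < ε → ∃ D : Finset (Zr r), (∀ v ∈ D, l v < c) ∧
      H (pS D ∪ {(true, u)}) - H (pS D) ≤ ε)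
    (v : Zr r) (D G : Finset (Zr r)) (hD : ∀ u ∈ D, l u < l v) :
    hinf H l ≤ H (pS D ∪ qS G ∪ {(false, v)}) - H (pS D ∪ qS G) := by
  classical
  apply le_of_forall_pos_le_add
  intro δ hδ
  set ε : ℝ := δ / (G.card + 1) with hε
  have hε0 : 0 < ε := by positivity
  choose Du hDu1 hDu2 using fun u => hq u (l v) ε hε0
  set D' := D ∪ G.biUnion Du with hD'
  have hD'l : ∀ u ∈ D', l u < l v := by
    intro u hu
    rw [hD', mem_union, mem_biUnion] at hu
    rcases hu with h | ⟨w, _, h⟩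
    · exact hD u h
    · exact hDu1 w u h
  have hpp : pS D ⊆ pS D' := by
    unfold pS
    exact image_subset_image subset_union_left
  have h1 : H (pS D' ∪ qS G) ≤ H (pS D') + ∑ i ∈ qS G, ε := by
    apply Fol_many hH
    intro i hi
    obtain ⟨hi1, hi2⟩ := Fol_mem_qS.1 hi
    have hsub : pS (Du i.2) ⊆ pS D' := by
      unfold pS
      apply image_subset_image
      intro x hx
      rw [hD', mem_union, mem_biUnion]
      right; exact ⟨i.2, hi2, hx⟩
    have h2 := inc hH hsub (true, i.2)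
    have h3 := hDu2 i.2
    have h4 : i = (true, i.2) := by rw [← hi1]
    rw [h4]
    linarith
  have hcard : ((qS G).card : ℝ) ≤ G.card := by
    unfold qS
    exact_mod_cast card_image_le
  rw [sum_const, nsmul_eq_mul] at h1
  have h2 : ((qS G).card : ℝ) * ε ≤ δ := by
    have h3 : ((qS G).card : ℝ) * ε ≤ (G.card + 1) * ε := by
      apply mul_le_mul_of_nonneg_right _ hε0.le
      linarith
    have h4 : ((G.card : ℝ) + 1) * ε = δ := by
      rw [hε]; field_simp
    linarith
  have hsub2 : pS D ∪ qS G ⊆ pS D' ∪ qS G := union_subset_union_left hpp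
  have h3 := inc hH hsub2 (false, v)
  have h4 := hH.mono (pS D' ∪ {(false, v)}) (pS D' ∪ qS G ∪ {(false, v)}) (by
    intro x hx
    rw [mem_union] at hx ⊢
    rcases hx with h | h
    · left; exact mem_union_left _ h
    · right; exact h)
  have h5 := Fol_hinf_le hH l v D' hD'l
  linarith

theorem fol_b {r : ℕ} {H : Finset (Bool × Zr r) → ℝ} {L : ℝ} (hH : Subm H L) (l : Zr r →+ ℝ)
    (hl : Function.Injective l)
    (hq : ∀ (u : Zr r) (c ε : ℝ), 0 < ε → ∃ D : Finset (Zr r), (∀ v ∈ D, l v < c) ∧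
      H (pS D ∪ {(true, u)}) - H (pS D) ≤ ε)
    (F G : Finset (Zr r)) : (F.card : ℝ) * hinf H l ≤ H (pS F ∪ qS G) - H (qS G) := by
  classical
  induction F using Finset.induction_on_max_value l with
  | empty =>
    have : pS (∅ : Finset (Zr r)) = ∅ := by unfold pS; exact image_empty _
    rw [this, empty_union]
    simp
  | insert a s ha hmax ih =>
    have h1 : ∀ u ∈ s, l u < l a := by
      intro u hu
      rcases lt_or_eq_of_le (hmax u hu) with h | h
      · exact h
      · exfalso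
        have := hl h
        rw [this] at hu
        exact ha hu
    have h2 := fol_a hH l hl hq a s G h1
    have h3 : pS (insert a s) ∪ qS G = pS s ∪ qS G ∪ {(false, a)} := by
      unfold pS
      rw [image_insert, insert_eq]
      ext x
      simp only [mem_union, mem_singleton]
      tauto
    rw [h3, card_insert_of_notMem ha]
    push_cast
    linarith

theorem fol_c {r : ℕ} {H : Finset (Bool × Zr r) → ℝ} {L : ℝ} (hH : Subm H L) (l : Zr r →+ ℝ)
    (hl : Function.Injective l) (D : Finset (Zr r)) (hD : ∀ u ∈ D, l u < 0) (κ : ℝ)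
    (hκ : H (pS D ∪ {(false, 0)}) - H (pS D) ≤ κ) (hκ0 : 0 ≤ κ) (hL : 0 ≤ L) (F : Finset (Zr r)) :
    open Classical in
    H (pS F) ≤ F.card * κ + (F.filter (fun v => ∃ d ∈ D, v + d ∉ F)).card * L := by
  classical
  have key : ∀ S : Finset (Zr r), S ⊆ F → (∀ u ∈ F, ∀ v ∈ S, l u ≤ l v → u ∈ S) →
      H (pS S) ≤ S.card * κ + (S.filter (fun v => ∃ d ∈ D, v + d ∉ F)).card * L := by
    intro S
    induction S using Finset.induction_on_max_value l with
    | empty =>
      intro _ _
      have : pS (∅ : Finset (Zr r)) = ∅ := by unfold pS; exact image_empty _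
      rw [this, hH.empty]
      simp
    | insert a s ha hmax ih =>
      intro hsub hlow
      have h1 : s ⊆ F := (subset_insert a s).trans hsub
      have h2 : ∀ u ∈ F, ∀ v ∈ s, l u ≤ l v → u ∈ s := by
        intro u hu v hv huv
        have h3 := hlow u hu v (mem_insert_of_mem hv) huv
        rw [mem_insert] at h3
        rcases h3 with h3 | h3
        · exfalso
          rw [h3] at huv
          have h4 := hl (le_antisymm huv (hmax v hv))
          rw [h4] at ha
          exact ha hv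
        · exact h3
      have h3 := ih h1 h2
      have h4 : pS (insert a s) = pS s ∪ {(false, a)} := by
        unfold pS
        rw [image_insert, insert_eq, union_comm]
      rw [h4, card_insert_of_notMem ha, filter_insert]
      split_ifs with hb
      · have h5 := inc hH (empty_subset (pS s)) (false, a)
        rw [hH.empty, empty_union] at h5
        have h6 := hH.single (false, a)
        have hna : a ∉ s.filter (fun v => ∃ d ∈ D, v + d ∉ F) := fun h => ha (mem_filter.1 h).1
        rw [card_insert_of_notMem hna]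
        push_cast
        nlinarith
      · push Not at hb
        have hsubD : pS (D.image (fun u => u + a)) ⊆ pS s := by
          unfold pS
          apply image_subset_image
          intro x hx
          rw [mem_image] at hx
          obtain ⟨d, hd, rfl⟩ := hx
          have h5 := hb d hd
          rw [add_comm] at h5
          have h6 : l (d + a) < l a := by
            rw [map_add]; linarith [hD d hd]
          have h7 := hlow (d + a) h5 a (mem_insert_self a s) h6.le
          rw [mem_insert] at h7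
          rcases h7 with h7 | h7
          · exfalso
            rw [h7] at h6
            exact lt_irrefl _ h6
          · exact h7
        have h5 := inc hH hsubD (false, a)
        have h6 := Fol_shift hH D false 0 a
        rw [zero_add] at h6
        push_cast
        linarith
  have := key F Subset.rfl (fun u hu _ _ _ => hu)
  exact this

theorem fol_d {r : ℕ} {H : Finset (Bool × Zr r) → ℝ} {L : ℝ} (hH : Subm H L)
    (D : Finset (Zr r)) (ε : ℝ) (hε : H (pS D ∪ {(true, 0)}) - H (pS D) ≤ ε) (hε0 : 0 ≤ ε)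
    (hL : 0 ≤ L) (F : Finset (Zr r)) : open Classical in
    H (pS F ∪ qS F) - H (pS F) ≤ F.card * ε + (F.filter (fun v => ∃ d ∈ D, v + d ∉ F)).card * L := by
  classical
  have h1 : H (pS F ∪ qS F) ≤ H (pS F) + ∑ i ∈ qS F, (ε + if (∃ d ∈ D, i.2 + d ∉ F) then L else 0) := by
    apply Fol_many hH
    intro i hi
    obtain ⟨hi1, hi2⟩ := Fol_mem_qS.1 hi
    have h4 : i = (true, i.2) := by rw [← hi1]
    split_ifs with hb
    · have h5 := inc hH (empty_subset (pS F)) i
      rw [hH.empty, empty_union] at h5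
      have h6 := hH.single i
      linarith
    · push Not at hb
      have hsubD : pS (D.image (fun u => u + i.2)) ⊆ pS F := by
        unfold pS
        apply image_subset_image
        intro x hx
        rw [mem_image] at hx
        obtain ⟨d, hd, rfl⟩ := hx
        rw [add_comm]
        exact hb d hd
      have h5 := inc hH hsubD (true, i.2)
      have h6 := Fol_shift hH D true 0 i.2
      rw [zero_add] at h6
      rw [h4]
      linarith
  have h2 : ∑ i ∈ qS F, (ε + if (∃ d ∈ D, i.2 + d ∉ F) then L else 0) =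
      F.card * ε + (F.filter (fun v => ∃ d ∈ D, v + d ∉ F)).card * L := by
    unfold qS
    rw [sum_image (fun a _ b _ h => (Prod.mk.inj h).2), sum_add_distrib, sum_const, nsmul_eq_mul,
      ← sum_filter, sum_const, nsmul_eq_mul]
  linarith

theorem folner {r : ℕ} {H : Finset (Bool × Zr r) → ℝ} {L : ℝ} (hH : Subm H L) (l : Zr r →+ ℝ)
    (hl : Function.Injective l)
    (hq : ∀ (u : Zr r) (c ε : ℝ), 0 < ε → ∃ D : Finset (Zr r), (∀ v ∈ D, l v < c) ∧
      H (pS D ∪ {(true, u)}) - H (pS D) ≤ ε)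
    (ε : ℝ) (hε : 0 < ε) : ∃ n : ℕ, 1 ≤ n ∧ H (qS (box r n)) ≤ ε * (n : ℝ) ^ r := by
  classical
  have hL : 0 ≤ L := by
    have h1 := hH.single (false, 0)
    have h2 := hH.mono ∅ {(false, 0)} (empty_subset _)
    rw [hH.empty] at h2
    linarith
  set δ : ℝ := ε / 4 with hδ
  have hδ0 : 0 < δ := by positivity
  -- the two finite sets
  have hex : ∃ D1 : {D : Finset (Zr r) // ∀ v ∈ D, l v < 0},
      H (pS D1.1 ∪ {(false, 0)}) - H (pS D1.1) < hinf H l + δ := by
    apply exists_lt_of_ciInf_lt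
    unfold hinf
    linarith
  obtain ⟨⟨D1, hD1⟩, hD1'⟩ := hex
  obtain ⟨D2, _, hD2'⟩ := hq 0 0 δ hδ0
  have hκ0 : 0 ≤ hinf H l + δ := by have := Fol_hinf_nonneg hH l; linarith
  obtain ⟨n1, hn1, hb1⟩ := box_bdry D1 (δ / (L + 1)) (by positivity)
  obtain ⟨n2, hn2, hb2⟩ := box_bdry D2 (δ / (L + 1)) (by positivity)
  refine ⟨max n1 n2, le_trans hn1 (le_max_left _ _), ?_⟩
  set n := max n1 n2 with hn
  have e1 := hb1 n (le_max_left _ _)
  have e2 := hb2 n (le_max_right _ _)
  set F := box r n with hF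
  have hFc : (F.card : ℝ) = (n : ℝ) ^ r := by rw [hF, box_card]; push_cast; rfl
  have c1 := fol_c hH l hl D1 hD1 (hinf H l + δ) hD1'.le hκ0 hL F
  have c2 := fol_d hH D2 δ hD2' hδ0.le hL F
  have c3 := fol_b hH l hl hq F F
  have hbd : ∀ b : ℝ, b ≤ δ / (L + 1) * (n : ℝ) ^ r → b * L ≤ δ * (n : ℝ) ^ r := by
    intro b hb
    have h1 : b * L ≤ δ / (L + 1) * (n : ℝ) ^ r * L := mul_le_mul_of_nonneg_right hb hL
    have h2 : δ / (L + 1) * (n : ℝ) ^ r * L = δ * (n : ℝ) ^ r * (L / (L + 1)) := by ring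
    have h3 : L / (L + 1) ≤ 1 := by rw [div_le_one (by linarith)]; linarith
    have h4 : δ * (n : ℝ) ^ r * (L / (L + 1)) ≤ δ * (n : ℝ) ^ r * 1 :=
      mul_le_mul_of_nonneg_left h3 (by positivity)
    linarith
  have g1 := hbd _ e1
  have g2 := hbd _ e2
  rw [hFc] at c1 c2 c3
  have h5 : ε * (n : ℝ) ^ r = 4 * (δ * (n : ℝ) ^ r) := by rw [hδ]; ring
  rw [h5]
  have h6 : (n : ℝ) ^ r * (hinf H l + δ) = (n : ℝ) ^ r * hinf H l + δ * (n : ℝ) ^ r := by ring
  have h7 : (n : ℝ) ^ r * δ = δ * (n : ℝ) ^ r := by ring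
  linarith

end Pool.Agent.ZEN
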