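import Pool.Agent.ZEN.Defs

set_option autoImplicit false

/-! General exponent sequences `q i : ℕ → ℤ^r` (definitions), used for polynomial exponents. -/

open Finset Filter Topology MeasureTheory

namespace Pool.Agent.ZEN

/-- weak type maximal inequality for the averages along a sequence of maps -/
def MaxIneq {X : Type*} [MeasurableSpace X] (μ : Measure X) (R : ℕ → X → X) (C : ℝ) : Prop :=
  ∀ f : X → ℝ, Measurable f → (∃ B : ℝ, ∀ x, f x ≤ B) → (∀ x, 0 ≤ f x) → ∀ lam : ℝ, 0 < lam →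
    μ {x | ∃ N : ℕ, lam * N < ∑ n ∈ range N, f (R n x)} ≤
      ENNReal.ofReal (C * √(∫ x, f x ^ 2 ∂μ) / lam)

/-- admissible families of exponent sequences for the functional `l` -/
structure Adm {r k : ℕ} (l : Zr r →+ ℝ) (q : Fin k → ℕ → Zr r) : Prop where
  sep : ∀ i j, i ≠ j → Tendsto (fun n => l (q i n) - l (q j n)) atTop atTop ∨
    Tendsto (fun n => l (q i n) - l (q j n)) atTop atBot
  grow : ∀ j, (∀ m : ℝ, ∃ n0 d : ℕ, ∀ n n', n0 ≤ n → n + d ≤ n' → l (q j n) + m ≤ l (q j n')) ∨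
    (∀ m : ℝ, ∃ n0 d : ℕ, ∀ n n', n0 ≤ n → n + d ≤ n' → l (q j n') + m ≤ l (q j n))

end Pool.Agent.ZEN
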