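import Pool.Agent.ZEN.LevM
import Pool.Agent.ZEN.AvgZ
import Pool.Agent.ZEN.Gen

set_option autoImplicit false

/-! Module GA: general form of StepA (exponent sequences `q i n` instead of `n • v i + w i`), and of `cloz`.
`stepG`: `F` measurable at level `0`, orthogonal to level `-m`.  `G n x = F (T (q j n) x) ∏_{i ≠ j} h i (T (q i n) x)`; `orth_ae`.  Let `L i n = l (q i n)`.  A factor `h i` of type A (tail measurable) has translates measurable at every level;
type B: measurable at level `L i n`, and `L j n - L i n ≥ m` for `n ≥ n1`.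
If `hgrow` is of increasing type: choose `n0 ≥ n1, d` with `L j n + |m| ≤ L j n'` for `n ≥ n0`, `n' ≥ n + d`; `a = q j n'`, `c = L j n' - m`: the `F`-factor of `G n` has level `L j n ≤ c`, its other factors `L i n ≤ L j n - m ≤ c`
(take `m ≥ 0` without loss: replace `m` by `max m 0`, orthogonality to a lower level follows), the other factors of `G n'`: `L i n' ≤ L j n' - m`; `lev_orth` gives `∫ G n G n' = 0`.
Decreasing type: `a = q j n`, `c = L j n - m`; the factors of `G n'` have levels `≤ L j n' ≤ L j n - m`, the other factors of `G n` `L i n ≤ L j n - m`.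
`clozG`: as `CAM.clo`/`cloz`: choose `g_s` with `∫ (f - g_s)² ≤ 16^(-s)`; `MaxIneq` with `|f - g_s|`, `lam = 2^(-s)`: measure `≤ C 4^(-s) 2^s`; Borel-Cantelli. -/

open Finset Filter Topology MeasureTheory

namespace Pool.Agent.ZEN

theorem stepG {X : Type*} [mX : MeasurableSpace X] (μ : Measure X) [IsProbabilityMeasure μ]
    {r M k : ℕ} (T : Zr r → X → X) (hT : IsAct μ T) (P : X → Fin M) (hP : Measurable P)
    (l : Zr r →+ ℝ) (q : Fin k → ℕ → Zr r) (j : Fin k)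
    (hgrow : (∀ m : ℝ, ∃ n0 d : ℕ, ∀ n n', n0 ≤ n → n + d ≤ n' → l (q j n) + m ≤ l (q j n')) ∨
      (∀ m : ℝ, ∃ n0 d : ℕ, ∀ n n', n0 ≤ n → n + d ≤ n' → l (q j n') + m ≤ l (q j n)))
    (h : Fin k → X → ℝ) (C : ℝ) (hC : ∀ i x, |h i x| ≤ C)
    (hcase : ∀ i, i ≠ j → (@Measurable X ℝ (tail T P l) _ (h i)) ∨
      (@Measurable X ℝ (lev T P l 0) _ (h i) ∧
        Tendsto (fun n => l (q j n) - l (q i n)) atTop atTop))
    (m : ℝ) (F : X → ℝ) (hF : @Measurable X ℝ (lev T P l 0) _ F) (hFC : ∃ C : ℝ, ∀ x, |F x| ≤ C)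
    (hF0 : ∀ Z : X → ℝ, @Measurable X ℝ (lev T P l (-m)) _ Z → (∃ C : ℝ, ∀ x, |Z x| ≤ C) →
      ∫ x, F x * Z x ∂μ = 0) :
    ∀ᵐ x ∂μ, Tendsto (avg (fun n => F (T (q j n) x) *
      ∏ i ∈ univ.erase j, h i (T (q i n) x))) atTop (𝓝 0) := by
  obtain ⟨CF, hCF⟩ := hFC
  set m0 : ℝ := max m 0 with hm0def
  have hm0 : 0 ≤ m0 := le_max_right _ _
  have hm : m ≤ m0 := le_max_left _ _
  have hF0' : ∀ Z : X → ℝ, @Measurable X ℝ (lev T P l (-m0)) _ Z → (∃ C : ℝ, ∀ x, |Z x| ≤ C) →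
      ∫ x, F x * Z x ∂μ = 0 := fun Z hZ hZb =>
    hF0 Z (hZ.mono (lev_mono T P l (neg_le_neg hm)) le_rfl) hZb
  have hex : ∀ i, ∃ n1 : ℕ, Tendsto (fun n => l (q j n) - l (q i n)) atTop atTop →
      ∀ n, n1 ≤ n → m0 ≤ l (q j n) - l (q i n) := by
    intro i
    by_cases hi : Tendsto (fun n => l (q j n) - l (q i n)) atTop atTop
    · obtain ⟨n1, hn1⟩ := (tendsto_atTop_atTop.mp hi) m0
      exact ⟨n1, fun _ => hn1⟩
    · exact ⟨0, fun h' => absurd h' hi⟩
  choose N0 hN0 using hex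
  have hn0 : ∀ i (n : ℕ), ∑ i, N0 i ≤ n → Tendsto (fun n => l (q j n) - l (q i n)) atTop atTop →
      m0 ≤ l (q j n) - l (q i n) := by
    intro i n hn hi
    exact hN0 i hi n ((Finset.single_le_sum (fun i _ => Nat.zero_le _) (mem_univ i)).trans hn)
  have hHm : ∀ i, i ≠ j → ∀ (n : ℕ) (c : ℝ),
      (Tendsto (fun n => l (q j n) - l (q i n)) atTop atTop → l (q i n) ≤ c) →
      @Measurable X ℝ (lev T P l c) _ (fun x => h i (T (q i n) x)) := by
    intro i hi n c hc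
    rcases hcase i hi with h1 | ⟨h1, h2⟩
    · exact tail_comp μ T hT P l h1 _ c
    · exact lev_comp μ T hT P l h1 _ c (hc h2)
  have hFm : ∀ (n : ℕ) (c : ℝ), l (q j n) ≤ c →
      @Measurable X ℝ (lev T P l c) _ (fun x => F (T (q j n) x)) := by
    intro n c hc
    exact lev_comp μ T hT P l hF _ c hc
  have hFM : Measurable F := hF.mono (lev_le μ T hT P hP l 0) le_rfl
  have hhM : ∀ i, i ≠ j → Measurable (h i) := by
    intro i hi
    rcases hcase i hi with h1 | ⟨h1, _⟩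
    · exact h1.mono (tail_le μ T hT P hP l) le_rfl
    · exact h1.mono (lev_le μ T hT P hP l 0) le_rfl
  set R : ℕ → X → ℝ := fun n x => ∏ i ∈ univ.erase j, h i (T (q i n) x) with hR
  set G : ℕ → X → ℝ := fun n x => F (T (q j n) x) * R n x with hG
  have hRm : ∀ (n : ℕ) (c : ℝ), (∀ i, Tendsto (fun n => l (q j n) - l (q i n)) atTop atTop →
      l (q i n) ≤ c) → @Measurable X ℝ (lev T P l c) _ (R n) := by
    intro n c hc
    exact @Finset.measurable_fun_prod ℝ (Fin k) X _ _ _ (lev T P l c) _ (univ.erase j)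
      (fun i hi => hHm i (Finset.ne_of_mem_erase hi) n c (hc i))
  have hRM : ∀ n, Measurable (R n) := fun n =>
    Finset.measurable_fun_prod (univ.erase j)
      (fun i hi => (hhM i (Finset.ne_of_mem_erase hi)).comp (hT.mp _).measurable)
  have hGM : ∀ n, Measurable (G n) := fun n => (hFM.comp (hT.mp _).measurable).mul (hRM n)
  have hRC : ∀ n x, |R n x| ≤ C ^ (univ.erase j).card := by
    intro n x
    rw [hR]
    simp only
    rw [Finset.abs_prod]
    refine (Finset.prod_le_prod (fun i _ => abs_nonneg _) fun i _ => hC i _).trans (le_of_eq ?_)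
    rw [prod_const]
  have hGC : ∀ n x, |G n x| ≤ CF * C ^ (univ.erase j).card := by
    intro n x
    rw [hG]
    simp only
    rw [abs_mul]
    exact mul_le_mul (hCF _) (hRC n x) (abs_nonneg _) ((abs_nonneg _).trans (hCF x))
  have key : ∀ p p' : ℕ, ∑ i, N0 i ≤ p → ∑ i, N0 i ≤ p' → l (q j p') + m0 ≤ l (q j p) →
      ∫ x, G p' x * G p x ∂μ = 0 := by
    intro p p' hp hp' hpq
    have hZ : @Measurable X ℝ (lev T P l (l (q j p) - m0)) _ (fun x => G p' x * R p x) := by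
      refine ((hFm p' _ (by linarith)).mul (hRm p' _ ?_)).mul (hRm p _ ?_)
      · intro i hi
        have h1 := hn0 i p' hp' hi
        linarith
      · intro i hi
        have h1 := hn0 i p hp hi
        linarith
    have h1 := lev_orth μ T hT P hP l m0 F hFM hF0' (q j p) (fun x => G p' x * R p x) hZ
      ⟨CF * C ^ (univ.erase j).card * C ^ (univ.erase j).card, fun x => by
        rw [abs_mul]
        exact mul_le_mul (hGC p' x) (hRC p x) (abs_nonneg _) ((abs_nonneg _).trans (hGC p' x))⟩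
    rw [← h1]
    congr 1
    funext x
    simp only [hG]
    ring
  rcases hgrow with hg | hg
  · obtain ⟨n0, d, hnd⟩ := hg m0
    refine orth_ae μ G hGM _ hGC (max n0 (∑ i, N0 i)) d fun n n' hn hn' => ?_
    have h1 : n0 ≤ n := (le_max_left _ _).trans hn
    have h2 : ∑ i, N0 i ≤ n := (le_max_right _ _).trans hn
    exact key n' n (by omega) h2 (hnd n n' h1 hn')
  · obtain ⟨n0, d, hnd⟩ := hg m0
    refine orth_ae μ G hGM _ hGC (max n0 (∑ i, N0 i)) d fun n n' hn hn' => ?_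
    have h1 : n0 ≤ n := (le_max_left _ _).trans hn
    have h2 : ∑ i, N0 i ≤ n := (le_max_right _ _).trans hn
    have h3 := key n n' h2 (by omega) (hnd n n' h1 hn')
    simpa only [mul_comm] using h3

private theorem GA_avg_le (s t : ℕ → ℝ) (l : ℝ) (hl : 0 ≤ l) (N : ℕ)
    (h : ∑ n ∈ range N, |s n - t n| ≤ l * N) : |avg s N - avg t N| ≤ l := by
  rcases Nat.eq_zero_or_pos N with rfl | hN
  · simp only [avg, Finset.range_zero, Finset.sum_empty, mul_zero, sub_zero, abs_zero]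
    exact hl
  · have hN' : (0 : ℝ) < N := by exact_mod_cast hN
    have e : avg s N - avg t N = (1 / (N : ℝ)) * ∑ n ∈ range N, (s n - t n) := by
      simp only [avg, Finset.sum_sub_distrib, mul_sub]
    rw [e, abs_mul, abs_of_pos (by positivity : (0 : ℝ) < 1 / N)]
    have h2 : |∑ n ∈ range N, (s n - t n)| ≤ l * N := (abs_sum_le_sum_abs _ _).trans h
    calc 1 / (N : ℝ) * |∑ n ∈ range N, (s n - t n)| ≤ 1 / (N : ℝ) * (l * N) :=
          mul_le_mul_of_nonneg_left h2 (by positivity)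
      _ = l := by field_simp

theorem clozG {X : Type*} [MeasurableSpace X] (μ : Measure X) [IsProbabilityMeasure μ]
    (R : ℕ → X → X) (hR : ∀ n, MeasurePreserving (R n) μ μ) (C0 : ℝ) (hmax : MaxIneq μ R C0)
    (w : ℕ → X → ℝ) (C : ℝ) (hw : ∀ n x, |w n x| ≤ C) (f : X → ℝ)
    (hfm : Measurable f) (hfb : ∃ B : ℝ, ∀ x, |f x| ≤ B)
    (h : ∀ ε : ℝ, 0 < ε → ∃ g : X → ℝ, Measurable g ∧ (∃ B : ℝ, ∀ x, |g x| ≤ B) ∧
      ∫ x, (f x - g x) ^ 2 ∂μ ≤ ε ∧
      ∀ᵐ x ∂μ, Tendsto (avg (fun n => g (R n x) * w n x)) atTop (𝓝 0)) :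
    ∀ᵐ x ∂μ, Tendsto (avg (fun n => f (R n x) * w n x)) atTop (𝓝 0) := by
  have h4 : ∀ j : ℕ, ∃ g : X → ℝ, Measurable g ∧ (∃ B : ℝ, ∀ x, |g x| ≤ B) ∧
      ∫ x, (f x - g x) ^ 2 ∂μ ≤ ((1 / 2 : ℝ) ^ j * (1 / 2 : ℝ) ^ j) ^ 2 ∧
      ∀ᵐ x ∂μ, Tendsto (avg (fun n => g (R n x) * w n x)) atTop (𝓝 0) :=
    fun j => h _ (by positivity)
  choose g hgm hgb hgε hgc using h4
  let B : ℕ → Set X := fun j =>
    {x | ∃ N : ℕ, (1 / 2 : ℝ) ^ j * N < ∑ n ∈ range N, |f (R n x) - g j (R n x)|}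
  have hB : ∀ j, μ (B j) ≤ ENNReal.ofReal (|C0| * (1 / 2 : ℝ) ^ j) := by
    intro j
    obtain ⟨Bf, hBf⟩ := hfb
    obtain ⟨Bg, hBg⟩ := hgb j
    have hm : Measurable (fun x => |f x - g j x|) := (hfm.sub (hgm j)).norm
    have h1 := hmax (fun x => |f x - g j x|) hm ⟨Bf + Bg, fun x =>
      (abs_sub _ _).trans (add_le_add (hBf x) (hBg x))⟩ (fun x => abs_nonneg _)
      ((1 / 2 : ℝ) ^ j) (by positivity)
    refine h1.trans (ENNReal.ofReal_le_ofReal ?_)
    have h2 : √(∫ x, |f x - g j x| ^ 2 ∂μ) ≤ (1 / 2 : ℝ) ^ j * (1 / 2 : ℝ) ^ j := by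
      rw [Real.sqrt_le_left (by positivity)]
      simpa only [sq_abs] using hgε j
    rw [div_le_iff₀ (by positivity)]
    calc C0 * √(∫ x, |f x - g j x| ^ 2 ∂μ) ≤ |C0| * √(∫ x, |f x - g j x| ^ 2 ∂μ) :=
          mul_le_mul_of_nonneg_right (le_abs_self _) (Real.sqrt_nonneg _)
      _ ≤ |C0| * ((1 / 2 : ℝ) ^ j * (1 / 2 : ℝ) ^ j) :=
          mul_le_mul_of_nonneg_left h2 (abs_nonneg _)
      _ = |C0| * (1 / 2 : ℝ) ^ j * (1 / 2 : ℝ) ^ j := by ring
  have hsum : ∑' j, μ (B j) ≠ ⊤ := by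
    refine ne_top_of_le_ne_top ?_ (ENNReal.tsum_le_tsum hB)
    rw [← ENNReal.ofReal_tsum_of_nonneg (fun j => by positivity)
      (summable_geometric_two.mul_left _)]
    exact ENNReal.ofReal_ne_top
  have hBC := ae_eventually_notMem hsum
  have hC : ∀ᵐ x ∂μ, ∀ j, Tendsto (avg (fun n => g j (R n x) * w n x)) atTop (𝓝 0) :=
    ae_all_iff.mpr hgc
  filter_upwards [hBC, hC] with x hx hxc
  have hC0 : 0 ≤ C := (abs_nonneg _).trans (hw 0 x)
  rw [Metric.tendsto_atTop]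
  intro ε hε
  have hlim : Tendsto (fun j : ℕ => C * (1 / 2 : ℝ) ^ j) atTop (𝓝 0) := by
    simpa using (tendsto_pow_atTop_nhds_zero_of_lt_one (by norm_num : (0 : ℝ) ≤ 1 / 2)
      (by norm_num)).const_mul C
  obtain ⟨j, hj1, hj2⟩ := ((hlim.eventually (gt_mem_nhds (half_pos hε))).and hx).exists
  obtain ⟨N0, hN0⟩ := (Metric.tendsto_atTop.mp (hxc j)) (ε / 2) (by positivity)
  refine ⟨N0, fun N hN => ?_⟩
  have h1 := hN0 N hN
  rw [Real.dist_eq, sub_zero] at h1 ⊢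
  have h2 : |avg (fun n => f (R n x) * w n x) N - avg (fun n => g j (R n x) * w n x) N| ≤
      C * (1 / 2 : ℝ) ^ j := by
    refine GA_avg_le _ _ _ (by positivity) N ?_
    have hj3 : ∑ n ∈ range N, |f (R n x) - g j (R n x)| ≤ (1 / 2 : ℝ) ^ j * N := by
      by_contra hcon
      exact hj2 ⟨N, not_le.mp hcon⟩
    calc ∑ n ∈ range N, |f (R n x) * w n x - g j (R n x) * w n x|
        ≤ ∑ n ∈ range N, C * |f (R n x) - g j (R n x)| := by
          refine sum_le_sum fun n _ => ?_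
          rw [← sub_mul, abs_mul, mul_comm]
          exact mul_le_mul_of_nonneg_right (hw n x) (abs_nonneg _)
      _ = C * ∑ n ∈ range N, |f (R n x) - g j (R n x)| := by rw [mul_sum]
      _ ≤ C * ((1 / 2 : ℝ) ^ j * N) := mul_le_mul_of_nonneg_left hj3 hC0
      _ = C * (1 / 2 : ℝ) ^ j * N := by ring
  calc |avg (fun n => f (R n x) * w n x) N|
      = |(avg (fun n => f (R n x) * w n x) N - avg (fun n => g j (R n x) * w n x) N) +
        avg (fun n => g j (R n x) * w n x) N| := by rw [sub_add_cancel]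
    _ ≤ _ := abs_add_le _ _
    _ < ε := by linarith

end Pool.Agent.ZEN
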