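import Pool.Agent.ZEN.Defs

set_option autoImplicit false

/-! Module Simp: uniform approximation of finitely many bounded measurable functions by functions of one finite valued function.
`simp_approx`: `K` with `1/K ≤ δ`; `⌊K F i x⌋` takes values in a finite set of integers; code the tuple `(⌊K F i x⌋)_i` by an element of `Fin M` (`Fintype.equivFin` of a finite product; `M ≥ 2` by adding points), `φ i` = decoded value `/K`.
`prod_diff`: `|∏ a i - ∏ b i| ≤ k D^k δ` if `|a i|, |b i| ≤ D`, `1 ≤ D`, `|a i - b i| ≤ δ` (telescoping; `Finset.induction`). -/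

open Finset Filter Topology MeasureTheory

namespace Pool.Agent.ZEN

theorem simp_approx {X ι : Type*} [MeasurableSpace X] [Fintype ι] (F : ι → X → ℝ)
    (hF : ∀ i, Measurable (F i)) (C : ℝ) (hC0 : 0 ≤ C) (hC : ∀ i x, |F i x| ≤ C) (δ : ℝ) (hδ : 0 < δ) :
    ∃ (M : ℕ) (P : X → Fin M) (φ : ι → Fin M → ℝ), 2 ≤ M ∧ Measurable P ∧
      (∀ i b, |φ i b| ≤ C + δ) ∧ ∀ i x, |F i x - φ i (P x)| ≤ δ := by
  classical
  obtain ⟨K, hK⟩ := exists_nat_gt (1 / δ)
  have hK0 : (0 : ℝ) < K := lt_trans (by positivity) hK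
  have hK1 : 1 / (K : ℝ) ≤ δ := by
    rw [div_le_iff₀ hK0]
    rw [div_lt_iff₀ hδ] at hK
    linarith
  set B : ℕ := ⌈(K : ℝ) * C⌉₊ with hB
  have hB1 : (K : ℝ) * C ≤ B := Nat.le_ceil _
  have hB2 : (B : ℝ) < K * C + 1 := Nat.ceil_lt_add_one (by positivity)
  let g : ℤ → Fin (2 * B + 1) := fun z => Fin.ofNat (2 * B + 1) (z + B).toNat
  have hg : ∀ z : ℤ, -(B : ℤ) ≤ z → z ≤ B → ((g z : ℕ) : ℤ) - B = z := by
    intro z h1 h2
    have h3 : ((g z : ℕ)) = (z + B).toNat % (2 * B + 1) := rfl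
    rw [h3, Nat.mod_eq_of_lt (by omega)]
    omega
  have hfl : ∀ i x, -(B : ℤ) ≤ ⌊(K : ℝ) * F i x⌋ ∧ ⌊(K : ℝ) * F i x⌋ ≤ B := by
    intro i x
    have h1 := abs_le.1 (hC i x)
    have h2 : (K : ℝ) * F i x ≤ K * C := mul_le_mul_of_nonneg_left h1.2 hK0.le
    have h3 : -((K : ℝ) * C) ≤ K * F i x := by
      have := mul_le_mul_of_nonneg_left h1.1 hK0.le
      linarith
    constructor
    · rw [Int.le_floor]
      push_cast
      linarith
    · have h4 : (⌊(K : ℝ) * F i x⌋ : ℝ) ≤ (B : ℝ) := (Int.floor_le _).trans (by linarith)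
      exact_mod_cast h4
  let α := (ι → Fin (2 * B + 1)) ⊕ Fin 2
  let e : α ≃ Fin (Fintype.card α) := Fintype.equivFin α
  let code : X → (ι → Fin (2 * B + 1)) := fun x i => g ⌊(K : ℝ) * F i x⌋
  have hcode : Measurable code := by
    rw [measurable_pi_iff]
    intro i
    have h1 : Measurable (fun x => ⌊(K : ℝ) * F i x⌋) := Int.measurable_floor.comp ((hF i).const_mul _)
    exact (measurable_of_countable g).comp h1
  refine ⟨Fintype.card α, fun x => e (Sum.inl (code x)),
    fun i b => Sum.elim (fun c : ι → Fin (2 * B + 1) => (((c i : ℕ) : ℝ) - B) / K) (fun _ => 0) (e.symm b), ?_, ?_, ?_, ?_⟩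
  · have h1 : Fintype.card (Fin 2) ≤ Fintype.card α :=
      Fintype.card_le_of_injective (Sum.inr : Fin 2 → α) Sum.inr_injective
    simpa using h1
  · have h1 : Measurable (fun c : ι → Fin (2 * B + 1) => e (Sum.inl c)) := measurable_of_countable _
    exact h1.comp hcode
  · intro i b
    beta_reduce
    generalize e.symm b = w
    rcases w with c | c
    · simp only [Sum.elim_inl]
      rw [abs_div, abs_of_pos hK0, div_le_iff₀ hK0]
      have h1 : ((c i : ℕ) : ℝ) ≤ 2 * B := by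
        have : (c i : ℕ) ≤ 2 * B := by have := (c i).2; omega
        exact_mod_cast this
      have h2 : (0 : ℝ) ≤ ((c i : ℕ) : ℝ) := Nat.cast_nonneg _
      have h3 : |((c i : ℕ) : ℝ) - B| ≤ B := by
        rw [abs_le]; constructor <;> linarith
      have h4 : (C + δ) * K = K * C + δ * K := by ring
      have h5 : 1 ≤ δ * K := by
        rw [div_le_iff₀ hK0] at hK1
        exact hK1
      linarith
    · simp only [Sum.elim_inr, abs_zero]
      linarith
  · intro i x
    simp only [Equiv.symm_apply_apply, Sum.elim_inl]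
    obtain ⟨h1, h2⟩ := hfl i x
    have h3 := hg _ h1 h2
    have h4 : (((code x i : ℕ) : ℝ) - B) = (⌊(K : ℝ) * F i x⌋ : ℝ) := by
      have : (((code x i : ℕ) : ℤ) - B) = ⌊(K : ℝ) * F i x⌋ := h3
      exact_mod_cast this
    rw [h4]
    have h5 : F i x - (⌊(K : ℝ) * F i x⌋ : ℝ) / K = (K * F i x - ⌊(K : ℝ) * F i x⌋) / K := by
      field_simp
    rw [h5, abs_div, abs_of_pos hK0, div_le_iff₀ hK0]
    have h6 := Int.floor_le ((K : ℝ) * F i x)
    have h7 := Int.lt_floor_add_one ((K : ℝ) * F i x)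
    rw [abs_le]
    have h8 : 1 ≤ δ * K := by
      rw [div_le_iff₀ hK0] at hK1
      exact hK1
    constructor <;> linarith

theorem prod_diff {k : ℕ} (a b : Fin k → ℝ) (D δ : ℝ) (hD : 1 ≤ D) (ha : ∀ i, |a i| ≤ D)
    (hb : ∀ i, |b i| ≤ D) (hδ : 0 ≤ δ) (hab : ∀ i, |a i - b i| ≤ δ) :
    |∏ i, a i - ∏ i, b i| ≤ k * D ^ k * δ := by
  induction k with
  | zero => simp
  | succ k ih =>
    rw [Fin.prod_univ_succ, Fin.prod_univ_succ]
    have h1 := ih (fun i => a i.succ) (fun i => b i.succ) (fun i => ha _) (fun i => hb _) (fun i => hab _)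
    set A := ∏ i : Fin k, a i.succ
    set B := ∏ i : Fin k, b i.succ with hBd
    have hB : |B| ≤ D ^ k := by
      rw [hBd, Finset.abs_prod]
      calc ∏ i : Fin k, |b i.succ| ≤ ∏ _i : Fin k, D := prod_le_prod (fun _ _ => abs_nonneg _) (fun i _ => hb _)
        _ = D ^ k := by simp
    have h2 : a 0 * A - b 0 * B = a 0 * (A - B) + (a 0 - b 0) * B := by ring
    have h3 : |a 0 * (A - B)| ≤ D * (k * D ^ k * δ) := by
      rw [abs_mul]
      exact mul_le_mul (ha 0) h1 (abs_nonneg _) (by linarith)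
    have h4 : |(a 0 - b 0) * B| ≤ δ * D ^ k := by
      rw [abs_mul]
      exact mul_le_mul (hab 0) hB (abs_nonneg _) hδ
    have h5 : δ * D ^ k ≤ D * (D ^ k * δ) := by
      have : (0 : ℝ) ≤ D ^ k * δ := by positivity
      nlinarith
    rw [h2]
    refine (abs_add_le _ _).trans ?_
    have h6 : ((k + 1 : ℕ) : ℝ) * D ^ (k + 1) * δ = D * (k * D ^ k * δ) + D * (D ^ k * δ) := by
      push_cast; ring
    rw [h6]
    linarith

end Pool.Agent.ZEN
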