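import Pool.Agent.ZEN.Defs

set_option autoImplicit false

/-! Module LevM: elementary properties of the σ-algebras `lev T P l c` and `tail T P l`.
`lev_shift`: `(fun x => P (T v x)) ∘ T b = fun x => P (T (v + b) x)` and `l (v + b) = l v + l b`; so `T b` is measurable from `lev (c + l b)` to `lev c`
(`MeasurableSpace.comap_iSup`, `measurable_iff_comap_le`). -/

open Finset Filter Topology MeasureTheory

namespace Pool.Agent.ZEN

variable {X : Type*} [mX : MeasurableSpace X] (μ : Measure X) {r M : ℕ}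

theorem lev_mono (T : Zr r → X → X) (P : X → Fin M) (l : Zr r →+ ℝ) {c c' : ℝ} (h : c ≤ c') :
    lev T P l c ≤ lev T P l c' := by
  refine iSup_le ?_
  rintro ⟨v, hv⟩
  exact le_iSup (fun w : {w : Zr r // l w ≤ c'} =>
    MeasurableSpace.comap (fun x => P (T w x)) ⊤) ⟨v, hv.trans h⟩

theorem lev_le (T : Zr r → X → X) (hT : IsAct μ T) (P : X → Fin M) (hP : Measurable P)
    (l : Zr r →+ ℝ) (c : ℝ) : lev T P l c ≤ mX := by
  refine iSup_le ?_
  rintro ⟨v, hv⟩
  exact (hP.comp (hT.mp v).measurable).comap_le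

theorem tail_le_lev (T : Zr r → X → X) (P : X → Fin M) (l : Zr r →+ ℝ) (c : ℝ) :
    tail T P l ≤ lev T P l c := by
  obtain ⟨n, hn⟩ := exists_nat_ge (-c)
  exact iInf_le_of_le n (lev_mono T P l (by linarith))

theorem tail_le (T : Zr r → X → X) (hT : IsAct μ T) (P : X → Fin M) (hP : Measurable P)
    (l : Zr r →+ ℝ) : tail T P l ≤ mX := by
  exact (tail_le_lev T P l 0).trans (lev_le μ T hT P hP l 0)

theorem lev_shift (T : Zr r → X → X) (hT : IsAct μ T) (P : X → Fin M) (l : Zr r →+ ℝ) (c : ℝ)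
    (b : Zr r) : @Measurable X X (lev T P l (c + l b)) (lev T P l c) (T b) := by
  rw [measurable_iff_comap_le, lev, MeasurableSpace.comap_iSup]
  refine iSup_le ?_
  rintro ⟨v, hv⟩
  rw [MeasurableSpace.comap_comp]
  have e : (fun x => P (T v x)) ∘ T b = fun x => P (T (v + b) x) := by
    funext x
    simp only [Function.comp_apply, hT.add]
  rw [e]
  exact le_iSup (fun w : {w : Zr r // l w ≤ c + l b} =>
    MeasurableSpace.comap (fun x => P (T w x)) ⊤) ⟨v + b, by rw [map_add]; linarith⟩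

/-- a function of `P` is measurable at level `0` -/
theorem lev_zero (T : Zr r → X → X) (hT : IsAct μ T) (P : X → Fin M) (l : Zr r →+ ℝ)
    {β : Type*} [MeasurableSpace β] (φ : Fin M → β) :
    @Measurable X β (lev T P l 0) _ (fun x => φ (P x)) := by
  have h1 : MeasurableSpace.comap P ⊤ ≤ lev T P l 0 := by
    have h := le_iSup (fun w : {w : Zr r // l w ≤ 0} =>
      MeasurableSpace.comap (fun x => P (T w x)) ⊤) ⟨0, by simp⟩
    simpa [hT.zero] using h
  have h2 : @Measurable X (Fin M) (lev T P l 0) ⊤ P := by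
    rw [measurable_iff_comap_le]
    exact h1
  exact Measurable.comp (measurable_of_finite φ) h2

/-- translates of a function measurable at level `0` -/
theorem lev_comp (T : Zr r → X → X) (hT : IsAct μ T) (P : X → Fin M) (l : Zr r →+ ℝ)
    {f : X → ℝ} (hf : @Measurable X ℝ (lev T P l 0) _ f) (b : Zr r) (c : ℝ) (hb : l b ≤ c) :
    @Measurable X ℝ (lev T P l c) _ (fun x => f (T b x)) := by
  have h1 : @Measurable X X (lev T P l (0 + l b)) (lev T P l 0) (T b) :=
    lev_shift μ T hT P l 0 b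
  have h2 : @Measurable X ℝ (lev T P l (0 + l b)) _ (fun x => f (T b x)) :=
    @Measurable.comp X X ℝ (lev T P l (0 + l b)) (lev T P l 0) _ f (T b) hf h1
  exact h2.mono (lev_mono T P l (by linarith)) le_rfl

/-- translates of a tail measurable function -/
theorem tail_comp (T : Zr r → X → X) (hT : IsAct μ T) (P : X → Fin M) (l : Zr r →+ ℝ)
    {f : X → ℝ} (hf : @Measurable X ℝ (tail T P l) _ f) (b : Zr r) (c : ℝ) :
    @Measurable X ℝ (lev T P l c) _ (fun x => f (T b x)) := by
  have h0 : @Measurable X ℝ (lev T P l (c - l b)) _ f :=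
    hf.mono (tail_le_lev T P l (c - l b)) le_rfl
  have h1 : @Measurable X X (lev T P l (c - l b + l b)) (lev T P l (c - l b)) (T b) :=
    lev_shift μ T hT P l (c - l b) b
  have h2 : @Measurable X ℝ (lev T P l (c - l b + l b)) _ (fun x => f (T b x)) :=
    @Measurable.comp X X ℝ (lev T P l (c - l b + l b)) (lev T P l (c - l b)) _ f (T b) h0 h1
  exact h2.mono (lev_mono T P l (by linarith)) le_rfl

/-- a bounded function `F` orthogonal to level `-m`: translates -/
theorem lev_orth (T : Zr r → X → X) (hT : IsAct μ T) (P : X → Fin M) (hP : Measurable P)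
    (l : Zr r →+ ℝ) (m : ℝ) (F : X → ℝ) (hFm : Measurable F)
    (hF : ∀ Z : X → ℝ, @Measurable X ℝ (lev T P l (-m)) _ Z → (∃ C : ℝ, ∀ x, |Z x| ≤ C) →
      ∫ x, F x * Z x ∂μ = 0)
    (a : Zr r) (Z : X → ℝ) (hZ : @Measurable X ℝ (lev T P l (l a - m)) _ Z)
    (hZb : ∃ C : ℝ, ∀ x, |Z x| ≤ C) : ∫ x, F (T a x) * Z x ∂μ = 0 := by
  have hcancel : ∀ x, T (-a) (T a x) = x := by
    intro x
    have h := congrFun (hT.add (-a) a) x
    rw [neg_add_cancel, hT.zero] at h
    exact h.symm
  have h1 : @Measurable X X (lev T P l (l a - m + l (-a))) (lev T P l (l a - m)) (T (-a)) :=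
    lev_shift μ T hT P l (l a - m) (-a)
  have e1 : l a - m + l (-a) = -m := by rw [map_neg]; ring
  rw [e1] at h1
  have h2 : @Measurable X ℝ (lev T P l (-m)) _ (fun x => Z (T (-a) x)) :=
    @Measurable.comp X X ℝ (lev T P l (-m)) (lev T P l (l a - m)) _ Z (T (-a)) hZ h1
  obtain ⟨C, hC⟩ := hZb
  have h3 := hF (fun x => Z (T (-a) x)) h2 ⟨C, fun x => hC _⟩
  have h4 : Measurable (fun x => F x * Z (T (-a) x)) :=
    hFm.mul (h2.mono (lev_le μ T hT P hP l (-m)) le_rfl)
  have h5 : ∫ x, F (T a x) * Z x ∂μ = ∫ x, F (T a x) * Z (T (-a) (T a x)) ∂μ := by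
    simp only [hcancel]
  rw [h5]
  have h6 := integral_map (μ := μ) (φ := T a) (hT.mp a).measurable.aemeasurable
    (f := fun x => F x * Z (T (-a) x)) h4.aestronglyMeasurable
  rw [(hT.mp a).map_eq] at h6
  rw [← h6]
  exact h3

end Pool.Agent.ZEN
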