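import Pool.Agent.ZEN.App
import Pool.Agent.ZEN.Fol
import Pool.Agent.ZEN.LevM

set_option autoImplicit false

/-! Module Tail: tail sets have zero entropy.
`H = Hs μ (fam T P A z o)`, `z ≠ o` in `Fin M` (`2 ≤ M`), `subm`.  Hypothesis `hq` of `folner`: the set `T_u⁻¹ A` is measurable for `lev T P l c'` for every `c'` (`lev_shift`, `tail_le_lev`), in particular for the
σ-algebra generated by `Y (false, v) = P ∘ T v`, `l v ≤ c - 1`; `app` with `V = {(false, v) | l v ≤ c - 1}` (the family `fam`, the set `T_u⁻¹ A`) gives a finite `D = pS D'`, and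
`H (pS D' ∪ {(true, u)}) ≤ ent (1_{T_u⁻¹A}, Y_D)` (relabelling, `ent_map_le`).  Then `folner` and `hs_q`. -/

open Finset Filter Topology MeasureTheory

namespace Pool.Agent.ZEN

theorem Tail_fam_meas {X : Type*} [mX : MeasurableSpace X] (μ : Measure X) [IsProbabilityMeasure μ]
    {r M : ℕ} (T : Zr r → X → X) (hT : IsAct μ T) (P : X → Fin M) (hP : Measurable P)
    (A : Set X) (hA : MeasurableSet A) (z o : Fin M) (i : Bool × Zr r) (b : Fin M) :
    MeasurableSet (fam T P A z o i ⁻¹' {b}) := by
  classical
  rcases i with ⟨b', v⟩
  have hTv : Measurable (T v) := (hT.mp v).measurable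
  cases b' with
  | false =>
    have h : fam T P A z o (false, v) = fun x => P (T v x) := by
      funext x; simp [fam]
    rw [h]
    exact (hP.comp hTv) (measurableSet_singleton b)
  | true =>
    have h : fam T P A z o (true, v) = fun x => if T v x ∈ A then o else z := by
      funext x; simp [fam]
    rw [h]
    have h2 : Measurable (fun x => if T v x ∈ A then o else z) :=
      Measurable.ite (hTv hA) measurable_const measurable_const
    exact h2 (measurableSet_singleton b)

theorem tail_ze {X : Type*} [mX : MeasurableSpace X] (μ : Measure X) [IsProbabilityMeasure μ]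
    {r M : ℕ} (T : Zr r → X → X) (hT : IsAct μ T) (P : X → Fin M) (hP : Measurable P) (hM : 2 ≤ M)
    (l : Zr r →+ ℝ) (hl : Function.Injective l) (A : Set X) (hA : MeasurableSet[tail T P l] A) :
    IsZE μ T A := by
  classical
  have hAm : MeasurableSet A := tail_le μ T hT P hP l A hA
  set z : Fin M := ⟨0, by omega⟩ with hz
  set o : Fin M := ⟨1, by omega⟩ with ho
  have hzo : z ≠ o := by
    intro h
    have := congrArg Fin.val h
    simp [hz, ho] at this
  have hS := subm μ T hT P hP A hAm z o
  have hY := Tail_fam_meas μ T hT P hP A hAm z o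
  refine ⟨hAm, fun ε hε => ?_⟩
  obtain ⟨n, hn, h⟩ := folner hS l hl (by
    intro u c δ hδ
    set Au : Set X := T u ⁻¹' A with hAu
    have hAum : MeasurableSet Au := (hT.mp u).measurable hAm
    have h1 : MeasurableSet[lev T P l (c - 1)] Au := by
      have h2 := lev_shift μ T hT P l (c - 1 - l u) u
      rw [sub_add_cancel] at h2
      exact h2 (tail_le_lev T P l (c - 1 - l u) A hA)
    set V : Set (Bool × Zr r) := {i | i.1 = false ∧ l i.2 ≤ c - 1} with hV
    have h3 : MeasurableSet[⨆ i : V, MeasurableSpace.comap (fam T P A z o i) ⊤] Au := by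
      have hle : lev T P l (c - 1) ≤ ⨆ i : V, MeasurableSpace.comap (fam T P A z o i) ⊤ := by
        unfold lev
        apply iSup_le
        rintro ⟨v, hv⟩
        have h4 : (fun x => P (T v x)) = fam T P A z o (false, v) := by
          funext x; simp [fam]
        have h5 := le_iSup (fun i : V => MeasurableSpace.comap (fam T P A z o i) ⊤)
          (⟨(false, v), ⟨rfl, hv⟩⟩ : V)
        simp only [h4]
        exact h5
      exact hle Au h1
    obtain ⟨D, hDV, hD⟩ := app μ (fam T P A z o) hY V Au h3 z o δ hδ
    have hpS : pS (D.image Prod.snd) = D := by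
      ext i
      rw [Fol_mem_pS, mem_image]
      constructor
      · rintro ⟨h4, j, hj, h5⟩
        have h6 := (hDV hj).1
        have : i = j := Prod.ext (by rw [h4, h6]) h5.symm
        rw [this]; exact hj
      · intro hi
        exact ⟨(hDV hi).1, i, hi, rfl⟩
    refine ⟨D.image Prod.snd, ?_, ?_⟩
    · intro v hv
      rw [mem_image] at hv
      obtain ⟨i, hi, rfl⟩ := hv
      have := (hDV hi).2
      linarith
    · rw [hpS]
      have hnotin : (true, u) ∉ D := by
        intro h4
        have := (hDV h4).1
        simp at this
      set φ : Fin M × (D → Fin M) → ((D ∪ {(true, u)} : Finset (Bool × Zr r)) → Fin M) :=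
        fun p i => if h : i.1 ∈ D then p.2 ⟨i.1, h⟩ else p.1 with hφ
      set Q : X → Fin M × (D → Fin M) :=
        fun x => ((if x ∈ Au then o else z : Fin M), fun i : D => fam T P A z o i x) with hQ
      have hQm : ∀ b, MeasurableSet (Q ⁻¹' {b}) := by
        intro b
        have h4 : Q ⁻¹' {b} = {x | (if x ∈ Au then o else z : Fin M) = b.1} ∩
            ⋂ i : D, fam T P A z o i ⁻¹' {b.2 i} := by
          ext x
          simp only [hQ, Set.mem_preimage, Set.mem_singleton_iff, Set.mem_inter_iff, Set.mem_iInter]
          constructor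
          · intro h5
            rw [← h5]
            exact ⟨rfl, fun i => rfl⟩
          · rintro ⟨h5, h6⟩
            exact Prod.ext h5 (funext h6)
        rw [h4]
        refine MeasurableSet.inter ?_ (MeasurableSet.iInter (fun i => hY i _))
        have h5 : Measurable (fun x => if x ∈ Au then o else z) :=
          Measurable.ite hAum measurable_const measurable_const
        exact h5 (measurableSet_singleton b.1)
      have h4 := ent_map_le μ Q φ hQm
      have h5 : (fun x => φ (Q x)) = fun x (i : (D ∪ {(true, u)} : Finset (Bool × Zr r))) => fam T P A z o i x := by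
        funext x i
        simp only [hφ, hQ]
        by_cases h6 : i.1 ∈ D
        · rw [dif_pos h6]
        · rw [dif_neg h6]
          have h7 : i.1 = (true, u) := by
            have := i.2
            rw [mem_union, mem_singleton] at this
            rcases this with h8 | h8
            · exact absurd h8 h6
            · exact h8
          rw [h7]
          simp [fam, hAu]
      rw [h5] at h4
      have h6 : Hs μ (fam T P A z o) (D ∪ {(true, u)}) ≤ ent μ Q := h4
      have h7 : ent μ Q ≤ Hs μ (fam T P A z o) D + δ := by
        convert hD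
      linarith) ε hε
  refine ⟨n, hn, ?_⟩
  rw [hs_q μ T hT P hP A hAm z o hzo] at h
  convert h

theorem tail_le_pin {X : Type*} [mX : MeasurableSpace X] (μ : Measure X) [IsProbabilityMeasure μ]
    {r M : ℕ} (T : Zr r → X → X) (hT : IsAct μ T) (P : X → Fin M) (hP : Measurable P) (hM : 2 ≤ M)
    (l : Zr r →+ ℝ) (hl : Function.Injective l) : tail T P l ≤ Pin μ T := by
  intro A hA
  exact MeasurableSpace.measurableSet_generateFrom (tail_ze μ T hT P hP hM l hl A hA)

end Pool.Agent.ZEN
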