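import Pool.Agent.ZEN.GT
import Pool.Agent.ZEN.Tail
import Pool.Agent.ZEN.Simp

set_option autoImplicit false

/-! Module GF: general final assembly (the Pinsker factor is characteristic for admissible exponent sequences with a maximal inequality).
Let `|f i| ≤ C`, `1 ≤ C`, `G i` an everywhere bounded `Pin`-measurable version of `μ[f i|Pin]` (`cond_version`; `pin_le`).  For `δ ∈ (0,1]`: `simp_approx` for the `2k` functions `f i, G i`: `f' i = φ i ∘ P`, `G' i = γ i ∘ P`, uniformly `δ`-close,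
bounded by `C + 1`.  `tail = tail T P l ≤ Pin μ T` (`tail_le_pin`).  Let `a i`, `b i` be tail measurable versions of `μ[f' i|tail]`, `μ[G' i|tail]`.  A.e. `|a i - b i| ≤ 2δ`: `μ[f' i - G' i|tail] = μ[f' i - f i|tail] + μ[f i - G i|tail] + μ[G i - G' i|tail]`,
the middle term is `0` (`condExp_condExp_of_le`), the others are bounded by `δ` a.e.  By `tthG` (twice) the averages of `∏ f' - ∏ a` and `∏ G' - ∏ b` tend to `0`; `|∏ f - ∏ f'|`, `|∏ a - ∏ b|`, `|∏ G' - ∏ G|` are at most `k (C+1)^k 2δ` along a.e. orbit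
(a.e. statements are preserved by the countably many measure preserving maps `T u`: `(hT.mp u).quasiMeasurePreserving.ae`).  So the averages of `∏ f - ∏ G` are within `C' δ` of sequences tending to `0` for every `δ = 1/(j+1)` (`avg_approx`): limit `0`. -/

open Finset Filter Topology MeasureTheory

namespace Pool.Agent.ZEN

theorem pin_le' {X : Type*} [mX : MeasurableSpace X] (μ : Measure X) {r : ℕ} (T : Zr r → X → X) :
    Pin μ T ≤ mX := by
  apply MeasurableSpace.generateFrom_le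
  intro A hA
  exact hA.1

private theorem GF_close {X : Type*} [mX : MeasurableSpace X] (μ : Measure X)
    [IsProbabilityMeasure μ] (m m' : MeasurableSpace X) (hm : m ≤ m') (hm' : m' ≤ mX)
    (f G f' G' : X → ℝ) (hf : @Measurable X ℝ mX _ f) (hG : @Measurable X ℝ mX _ G)
    (hf' : @Measurable X ℝ mX _ f') (hG' : @Measurable X ℝ mX _ G') (D δ : ℝ)
    (hfD : ∀ x, |f x| ≤ D) (hGD : ∀ x, |G x| ≤ D) (hfD' : ∀ x, |f' x| ≤ D)
    (hGD' : ∀ x, |G' x| ≤ D) (hff : ∀ x, |f' x - f x| ≤ δ) (hGG : ∀ x, |G' x - G x| ≤ δ)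
    (hGE : G =ᵐ[μ] μ[f|m']) :
    ∀ᵐ x ∂μ, |(μ[f'|m]) x - (μ[G'|m]) x| ≤ 2 * δ := by
  have int : ∀ F : X → ℝ, @Measurable X ℝ mX _ F → (∀ x, |F x| ≤ D) → Integrable F μ :=
    fun F hF hFD => Integrable.of_bound hF.aestronglyMeasurable D
      (Eventually.of_forall fun x => by rw [Real.norm_eq_abs]; exact hFD x)
  have i1 := int f hf hfD
  have i2 := int G hG hGD
  have i3 := int f' hf' hfD'
  have i4 := int G' hG' hGD'
  have e1 : μ[f' - f|m] =ᵐ[μ] μ[f'|m] - μ[f|m] := condExp_sub i3 i1 m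
  have e2 : μ[G' - G|m] =ᵐ[μ] μ[G'|m] - μ[G|m] := condExp_sub i4 i2 m
  have e3 : μ[G|m] =ᵐ[μ] μ[f|m] :=
    (condExp_congr_ae hGE).trans (condExp_condExp_of_le hm hm')
  have b1 : ∀ᵐ x ∂μ, |(μ[f' - f|m]) x| ≤ δ :=
    ae_bdd_abs_condExp_of_ae_bdd_abs (Eventually.of_forall hff)
  have b2 : ∀ᵐ x ∂μ, |(μ[G' - G|m]) x| ≤ δ :=
    ae_bdd_abs_condExp_of_ae_bdd_abs (Eventually.of_forall hGG)
  filter_upwards [e1, e2, e3, b1, b2] with x h1 h2 h3 h4 h5
  rw [h1, Pi.sub_apply] at h4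
  rw [h2, Pi.sub_apply] at h5
  rw [h3] at h5
  rw [abs_le] at h4 h5 ⊢
  constructor <;> linarith [h4.1, h4.2, h5.1, h5.2]

theorem mainG {X : Type*} [mX : MeasurableSpace X] (μ : Measure X) [IsProbabilityMeasure μ]
    {r k : ℕ} (T : Zr r → X → X) (hT : IsAct μ T) (l : Zr r →+ ℝ) (hl : Function.Injective l)
    (q : Fin k → ℕ → Zr r) (hq : Adm l q)
    (hmax : ∀ j, ∃ C0 : ℝ, MaxIneq μ (fun n => T (q j n)) C0)
    (f : Fin k → X → ℝ) (hf : ∀ i, Measurable (f i)) (hb : ∀ i, ∃ C : ℝ, ∀ x, |f i x| ≤ C) :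
    ∀ᵐ x ∂μ, Tendsto (avg (fun n => ∏ i, f i (T (q i n) x) -
      ∏ i, (μ[f i|Pin μ T]) (T (q i n) x))) atTop (𝓝 0) := by
  choose Cf hCf using hb
  set C : ℝ := 1 + ∑ i, |Cf i| with hCdef
  have hC1 : 1 ≤ C := by
    have : 0 ≤ ∑ i, |Cf i| := Finset.sum_nonneg fun i _ => abs_nonneg _
    linarith
  have hC : ∀ i x, |f i x| ≤ C := by
    intro i x
    have h1 : |Cf i| ≤ ∑ i, |Cf i| :=
      Finset.single_le_sum (f := fun i => |Cf i|) (fun i _ => abs_nonneg _) (mem_univ i)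
    have h2 := hCf i x
    have h3 := le_abs_self (Cf i)
    linarith
  have hpin := pin_le' μ T
  have hG : ∀ i, ∃ g : X → ℝ, @Measurable X ℝ (Pin μ T) _ g ∧ (∀ x, |g x| ≤ C) ∧
      g =ᵐ[μ] μ[f i|Pin μ T] := fun i => cond_version μ (Pin μ T) hpin (f i) (hf i) C (hC i)
  choose G hGm hGC hGE using hG
  have hGM : ∀ i, Measurable (G i) := fun i => (hGm i).mono hpin le_rfl
  set D : ℝ := C + 1 with hD
  have hD1 : 1 ≤ D := by linarith
  set K : ℝ := 4 * (k * D ^ k) with hK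
  have hK0 : 0 ≤ K := by positivity
  -- approximation at scale δ
  have claim : ∀ δ : ℝ, 0 < δ → δ ≤ 1 → ∀ᵐ x ∂μ, ∃ t : ℕ → ℝ, Tendsto (avg t) atTop (𝓝 0) ∧
      ∀ n, |(∏ i, f i (T (q i n) x) - ∏ i, G i (T (q i n) x)) - t n| ≤ K * δ := by
    intro δ hδ hδ1
    obtain ⟨M, P, φ, hM, hP, hφ, happ⟩ := simp_approx
      (fun i : Fin k ⊕ Fin k => Sum.elim f G i) (by
        intro i
        rcases i with i | i
        · exact hf i
        · exact hGM i) C (by linarith) (by
        intro i x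
        rcases i with i | i
        · exact hC i x
        · exact hGC i x) δ hδ
    set f' : Fin k → X → ℝ := fun i x => φ (Sum.inl i) (P x) with hf'
    set G' : Fin k → X → ℝ := fun i x => φ (Sum.inr i) (P x) with hG'
    have hf'0 : ∀ i, @Measurable X ℝ (lev T P l 0) _ (f' i) :=
      fun i => lev_zero μ T hT P l (φ (Sum.inl i))
    have hG'0 : ∀ i, @Measurable X ℝ (lev T P l 0) _ (G' i) :=
      fun i => lev_zero μ T hT P l (φ (Sum.inr i))
    have hf'M : ∀ i, Measurable (f' i) := fun i => (hf'0 i).mono (lev_le μ T hT P hP l 0) le_rfl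
    have hG'M : ∀ i, Measurable (G' i) := fun i => (hG'0 i).mono (lev_le μ T hT P hP l 0) le_rfl
    have hf'D : ∀ i x, |f' i x| ≤ D := by
      intro i x
      have := hφ (Sum.inl i) (P x)
      have h2 : |f' i x| ≤ C + δ := this
      linarith
    have hG'D : ∀ i x, |G' i x| ≤ D := by
      intro i x
      have := hφ (Sum.inr i) (P x)
      have h2 : |G' i x| ≤ C + δ := this
      linarith
    have htl := tail_le μ T hT P hP l
    have ha : ∀ i, ∃ g : X → ℝ, @Measurable X ℝ (tail T P l) _ g ∧ (∀ x, |g x| ≤ D) ∧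
        g =ᵐ[μ] μ[f' i|tail T P l] :=
      fun i => cond_version μ (tail T P l) htl (f' i) (hf'M i) D (hf'D i)
    choose a ham haD haE using ha
    have hb' : ∀ i, ∃ g : X → ℝ, @Measurable X ℝ (tail T P l) _ g ∧ (∀ x, |g x| ≤ D) ∧
        g =ᵐ[μ] μ[G' i|tail T P l] :=
      fun i => cond_version μ (tail T P l) htl (G' i) (hG'M i) D (hG'D i)
    choose b hbm hbD hbE using hb'
    have t1 := tthG μ T hT P hP l q hq hmax f' a D hf'D hf'0 ham haD haE
    have t2 := tthG μ T hT P hP l q hq hmax G' b D hG'D hG'0 hbm hbD hbE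
    have hab : ∀ i, ∀ᵐ x ∂μ, |a i x - b i x| ≤ 2 * δ := by
      intro i
      have h1 := GF_close μ (tail T P l) (Pin μ T) (tail_le_pin μ T hT P hP hM l hl) hpin
        (f i) (G i) (f' i) (G' i) (hf i) (hGM i) (hf'M i) (hG'M i) D δ
        (fun x => (hC i x).trans (by linarith)) (fun x => (hGC i x).trans (by linarith))
        (hf'D i) (hG'D i) (fun x => by rw [abs_sub_comm]; exact happ (Sum.inl i) x)
        (fun x => by rw [abs_sub_comm]; exact happ (Sum.inr i) x) (hGE i)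
      filter_upwards [h1, haE i, hbE i] with x h2 h3 h4
      rw [h3, h4]
      exact h2
    have hab' : ∀ᵐ x ∂μ, ∀ (n : ℕ) (i : Fin k),
        |a i (T (q i n) x) - b i (T (q i n) x)| ≤ 2 * δ := by
      rw [ae_all_iff]
      intro n
      rw [ae_all_iff]
      intro i
      exact (hT.mp (q i n)).quasiMeasurePreserving.ae (hab i)
    filter_upwards [t1, t2, hab'] with x hx1 hx2 hx3
    refine ⟨fun n => (∏ i, f' i (T (q i n) x) - ∏ i, a i (T (q i n) x)) +
      (-1) * (∏ i, G' i (T (q i n) x) - ∏ i, b i (T (q i n) x)), ?_, fun n => ?_⟩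
    · have h1 := hx1.add (hx2.const_mul (-1))
      rw [mul_zero, add_zero] at h1
      refine h1.congr fun N => ?_
      rw [avg_add]
      congr 1
      unfold avg
      rw [← Finset.mul_sum]
      ring
    · have d1 := prod_diff (fun i => f i (T (q i n) x)) (fun i => f' i (T (q i n) x)) D δ hD1
        (fun i => (hC i _).trans (by linarith)) (fun i => hf'D i _) hδ.le
        (fun i => happ (Sum.inl i) _)
      have d2 := prod_diff (fun i => a i (T (q i n) x)) (fun i => b i (T (q i n) x)) D (2 * δ) hD1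
        (fun i => haD i _) (fun i => hbD i _) (by linarith) (fun i => hx3 n i)
      have d3 := prod_diff (fun i => G i (T (q i n) x)) (fun i => G' i (T (q i n) x)) D δ hD1
        (fun i => (hGC i _).trans (by linarith)) (fun i => hG'D i _) hδ.le
        (fun i => happ (Sum.inr i) _)
      have e : (∏ i, f i (T (q i n) x) - ∏ i, G i (T (q i n) x)) -
          ((∏ i, f' i (T (q i n) x) - ∏ i, a i (T (q i n) x)) +
          (-1) * (∏ i, G' i (T (q i n) x) - ∏ i, b i (T (q i n) x)))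
          = (∏ i, f i (T (q i n) x) - ∏ i, f' i (T (q i n) x))
            + (∏ i, a i (T (q i n) x) - ∏ i, b i (T (q i n) x))
            - (∏ i, G i (T (q i n) x) - ∏ i, G' i (T (q i n) x)) := by ring
      rw [e]
      have hKδ : K * δ = k * D ^ k * δ + k * D ^ k * (2 * δ) + k * D ^ k * δ := by
        rw [hK]; ring
      rw [hKδ]
      rw [abs_le] at d1 d2 d3 ⊢
      constructor <;> linarith [d1.1, d1.2, d2.1, d2.2, d3.1, d3.2]
  have claim' : ∀ᵐ x ∂μ, ∀ s : ℕ, ∃ t : ℕ → ℝ, Tendsto (avg t) atTop (𝓝 0) ∧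
      ∀ n, |(∏ i, f i (T (q i n) x) - ∏ i, G i (T (q i n) x)) - t n| ≤ K * (1 / ((s : ℝ) + 1)) := by
    rw [ae_all_iff]
    intro s
    refine claim _ (by positivity) ?_
    rw [div_le_one (by positivity)]
    have : (0 : ℝ) ≤ (s : ℝ) := Nat.cast_nonneg s
    linarith
  have hGE' : ∀ᵐ x ∂μ, ∀ (n : ℕ) (i : Fin k),
      G i (T (q i n) x) = (μ[f i|Pin μ T]) (T (q i n) x) := by
    rw [ae_all_iff]
    intro n
    rw [ae_all_iff]
    intro i
    exact (hT.mp (q i n)).quasiMeasurePreserving.ae (hGE i)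
  filter_upwards [claim', hGE'] with x hx hxE
  simp only [← hxE]
  apply avg_approx
  intro ε hε
  obtain ⟨s, hs⟩ := exists_nat_gt (K / ε)
  obtain ⟨t, ht1, ht2⟩ := hx s
  refine ⟨t, ht1, fun n => (ht2 n).trans ?_⟩
  rw [mul_one_div, div_le_iff₀ (by positivity)]
  rw [div_lt_iff₀ hε] at hs
  nlinarith

end Pool.Agent.ZEN
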