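import Pool.Agent.ZEN.Gen
import Pool.Agent.BMX.Trn
import Pool.Agent.CAM.Mxe

set_option autoImplicit false

/-! Module GM: maximal inequality for `R n = T (p(n+1) • v + w)`.
`S = T v` as a permutation (`T v` has inverse `T (-v)`), `S ^ m = T (m • v)` for `m : ℤ`; `T (p(n+1) • v + w) x = S^{p(n+1)} (T w x)`.  The bad set for `f` along `R` is `(T w)⁻¹` of `{y | ∃ N, lam N < ∑_{n ∈ Icc 1 N} f (S^{p(n)} y)}`.
Degree `≥ 2`: `BMX.trans`: measure `≤ B² ∫f²/lam²`; since it is also `≤ 1`, it is `≤ B √(∫ f²)/lam` (`min(1, t²) ≤ t`).  Degree `1`: `p(n) = a n + b`: `CAM.max_erg` for the map `T (a • v)` and the function `f ∘ T(..)`: measure `≤ ∫ f / lam ≤ √(∫ f²)/lam`. -/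

open Finset Filter Topology MeasureTheory Polynomial

namespace Pool.Agent.ZEN

/-- `T v` as a permutation -/
private noncomputable def GM_perm {r : ℕ} {X : Type*} [MeasurableSpace X] {μ : Measure X}
    {T : Zr r → X → X} (hT : IsAct μ T) (v : Zr r) : Equiv.Perm X where
  toFun := T v
  invFun := T (-v)
  left_inv x := by
    have h := congrFun (hT.add (-v) v) x
    rw [neg_add_cancel, hT.zero] at h
    exact h.symm
  right_inv x := by
    have h := congrFun (hT.add v (-v)) x
    rw [add_neg_cancel, hT.zero] at h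
    exact h.symm

private theorem GM_pow {r : ℕ} {X : Type*} [MeasurableSpace X] {μ : Measure X}
    {T : Zr r → X → X} (hT : IsAct μ T) (v : Zr r) (m : ℤ) :
    ∀ x, ((GM_perm hT v) ^ m) x = T (m • v) x := by
  induction m using Int.induction_on with
  | zero => intro x; simp [hT.zero]
  | succ i ih =>
    intro x
    rw [zpow_add_one, Equiv.Perm.mul_apply, ih, add_smul, one_smul, hT.add]
    rfl
  | pred i ih =>
    intro x
    rw [zpow_sub_one, Equiv.Perm.mul_apply, ih, sub_smul, one_smul, sub_eq_add_neg, hT.add]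
    rfl

private theorem GM_iter {r : ℕ} {X : Type*} [MeasurableSpace X] {μ : Measure X}
    {T : Zr r → X → X} (hT : IsAct μ T) (V : Zr r) (n : ℕ) :
    ∀ y, (T V)^[n] y = T ((n : ℤ) • V) y := by
  induction n with
  | zero => intro y; simp [hT.zero]
  | succ n ih =>
    intro y
    rw [Function.iterate_succ_apply, ih]
    have : ((n + 1 : ℕ) : ℤ) • V = (n : ℤ) • V + V := by push_cast; rw [add_smul, one_smul]
    rw [this, hT.add]
    rfl

private theorem GM_sum (g : ℕ → ℝ) (N : ℕ) : ∑ n ∈ range N, g (n + 1) = ∑ n ∈ Icc 1 N, g n := by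
  induction N with
  | zero => simp
  | succ N ih => rw [sum_range_succ, ih, Finset.sum_Icc_succ_top (by omega)]

private theorem GM_cs {X : Type*} [MeasurableSpace X] (μ : Measure X) [IsProbabilityMeasure μ]
    (f : X → ℝ) (hf : Measurable f) (hB : ∃ B : ℝ, ∀ x, f x ≤ B) (h0 : ∀ x, 0 ≤ f x) :
    Integrable f μ ∧ Integrable (fun x => f x ^ 2) μ ∧ ∫ x, f x ∂μ ≤ √(∫ x, f x ^ 2 ∂μ) := by
  obtain ⟨B, hB⟩ := hB
  have hi : Integrable f μ := by
    refine Integrable.of_bound hf.aestronglyMeasurable B (Eventually.of_forall fun x => ?_)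
    rw [Real.norm_eq_abs, abs_of_nonneg (h0 x)]
    exact hB x
  have hi2 : Integrable (fun x => f x ^ 2) μ := by
    refine Integrable.of_bound (hf.pow_const 2).aestronglyMeasurable (B ^ 2)
      (Eventually.of_forall fun x => ?_)
    rw [Real.norm_eq_abs, abs_of_nonneg (sq_nonneg _)]
    exact pow_le_pow_left₀ (h0 x) (hB x) 2
  refine ⟨hi, hi2, ?_⟩
  set c : ℝ := ∫ x, f x ∂μ with hc
  have hc0 : 0 ≤ c := integral_nonneg h0
  refine Real.le_sqrt_of_sq_le ?_
  have h1 : 0 ≤ ∫ x, (f x - c) ^ 2 ∂μ := integral_nonneg fun x => sq_nonneg _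
  have h2 : ∫ x, (f x - c) ^ 2 ∂μ = ∫ x, f x ^ 2 ∂μ - c ^ 2 := by
    have e : (fun x => (f x - c) ^ 2) = fun x => (f x ^ 2 - (2 * c) * f x) + c ^ 2 := by
      funext x; ring
    have hI : Integrable (fun x => f x ^ 2 - (2 * c) * f x) μ := hi2.sub (hi.const_mul _)
    rw [e, integral_add hI (integrable_const _),
      integral_sub hi2 (hi.const_mul _), integral_const_mul, integral_const, ← hc]
    simp
    ring
  linarith

theorem maxIneq_poly {r : ℕ} (p : ℤ[X]) (hp : 1 ≤ p.natDegree) {X : Type*} [MeasurableSpace X]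
    (μ : Measure X) [IsProbabilityMeasure μ] (T : Zr r → X → X) (hT : IsAct μ T) (v w : Zr r) :
    ∃ C0 : ℝ, MaxIneq μ (fun n => T (p.eval ((n + 1 : ℕ) : ℤ) • v + w)) C0 := by
  rcases Nat.lt_or_ge 1 p.natDegree with hd | hd
  · -- degree at least two
    obtain ⟨B, hB1, hB⟩ := BMX.trans p hd
    refine ⟨B, fun f hf hfb hf0 lam hlam => ?_⟩
    obtain ⟨hi, hi2, -⟩ := GM_cs μ f hf hfb hf0
    set S : Equiv.Perm X := GM_perm hT v with hS
    have hSmp : MeasurePreserving S μ μ := hT.mp v
    have hSsm : Measurable S.symm := (hT.mp (-v)).measurable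
    have hmain := hB μ S hSmp hSsm f hf hfb hf0 lam hlam
    set A : Set X := {x | ∃ N : ℕ, lam * N < ∑ n ∈ Icc 1 N, f ((S ^ (p.eval (n : ℤ))) x)} with hA
    have hAm : MeasurableSet A := by
      have : A = ⋃ N : ℕ, {x | lam * N < ∑ n ∈ Icc 1 N, f ((S ^ (p.eval (n : ℤ))) x)} := by
        ext x; simp [hA]
      rw [this]
      refine MeasurableSet.iUnion fun N => measurableSet_lt measurable_const ?_
      refine Finset.measurable_sum _ fun n _ => ?_
      have e : (fun x => f ((S ^ (p.eval (n : ℤ))) x)) = fun x => f (T (p.eval (n : ℤ) • v) x) := by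
        funext x; rw [hS, GM_pow hT]
      rw [e]
      exact hf.comp (hT.mp _).measurable
    have hset : {x | ∃ N : ℕ, lam * N <
        ∑ n ∈ range N, f ((fun n => T (p.eval ((n + 1 : ℕ) : ℤ) • v + w)) n x)} = T w ⁻¹' A := by
      ext x
      simp only [hA, Set.mem_ofPred_eq, Set.mem_preimage]
      refine exists_congr fun N => ?_
      have e : ∀ n : ℕ, f (T (p.eval ((n + 1 : ℕ) : ℤ) • v + w) x)
          = f ((S ^ (p.eval ((n + 1 : ℕ) : ℤ))) (T w x)) := by
        intro n
        rw [hS, GM_pow hT, hT.add]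
        rfl
      rw [Finset.sum_congr rfl fun n _ => e n,
        GM_sum (fun n => f ((S ^ (p.eval (n : ℤ))) (T w x)))]
    rw [hset, (hT.mp w).measure_preimage hAm.nullMeasurableSet]
    set t : ℝ := B * √(∫ x, f x ^ 2 ∂μ) / lam with ht
    have hI : 0 ≤ ∫ x, f x ^ 2 ∂μ := integral_nonneg fun x => sq_nonneg _
    have ht2 : B ^ 2 * (∫ x, f x ^ 2 ∂μ) / lam ^ 2 = t ^ 2 := by
      rw [ht, div_pow, mul_pow, Real.sq_sqrt hI]
    have ht0 : 0 ≤ t := by
      rw [ht]; positivity
    rcases le_total t 1 with h | h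
    · refine hmain.trans (ENNReal.ofReal_le_ofReal ?_)
      rw [ht2]
      nlinarith
    · refine (prob_le_one (μ := μ) (s := A)).trans ?_
      rw [← ENNReal.ofReal_one]
      exact ENNReal.ofReal_le_ofReal h
  · -- degree one
    refine ⟨1, fun f hf hfb hf0 lam hlam => ?_⟩
    obtain ⟨hi, hi2, hcs⟩ := GM_cs μ f hf hfb hf0
    set a : ℤ := p.coeff 1 with ha
    set b : ℤ := p.coeff 0 with hb
    have hev : ∀ n : ℤ, p.eval n = a * n + b := by
      intro n
      conv_lhs => rw [Polynomial.eq_X_add_C_of_natDegree_le_one hd]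
      simp [ha, hb]
    have hmain := CAM.max_erg μ (T (a • v)) (hT.mp _) f hf0 hf hi lam hlam
    set A : Set X := {x | ∃ N : ℕ, lam * N < ∑ n ∈ range N, f ((T (a • v))^[n] x)} with hA
    have hAm : MeasurableSet A := by
      have : A = ⋃ N : ℕ, {x | lam * N < ∑ n ∈ range N, f ((T (a • v))^[n] x)} := by
        ext x; simp [hA]
      rw [this]
      refine MeasurableSet.iUnion fun N => measurableSet_lt measurable_const ?_
      exact Finset.measurable_sum _ fun n _ => hf.comp ((hT.mp _).measurable.iterate n)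
    have hset : {x | ∃ N : ℕ, lam * N <
        ∑ n ∈ range N, f ((fun n => T (p.eval ((n + 1 : ℕ) : ℤ) • v + w)) n x)}
        = T ((a + b) • v + w) ⁻¹' A := by
      ext x
      simp only [hA, Set.mem_ofPred_eq, Set.mem_preimage]
      refine exists_congr fun N => ?_
      have e : ∀ n : ℕ, f (T (p.eval ((n + 1 : ℕ) : ℤ) • v + w) x)
          = f ((T (a • v))^[n] (T ((a + b) • v + w) x)) := by
        intro n
        rw [GM_iter hT]
        have e1 : p.eval ((n + 1 : ℕ) : ℤ) • v + w
            = (n : ℤ) • (a • v) + ((a + b) • v + w) := by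
          rw [hev]
          ext i
          simp only [Pi.add_apply, Pi.smul_apply, smul_eq_mul]
          push_cast
          ring
        rw [e1, hT.add]
        rfl
      rw [Finset.sum_congr rfl fun n _ => e n]
    rw [hset, (hT.mp _).measure_preimage hAm.nullMeasurableSet]
    refine hmain.trans (ENNReal.ofReal_le_ofReal ?_)
    rw [one_mul]
    exact div_le_div_of_nonneg_right hcs hlam.le

end Pool.Agent.ZEN
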