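import Pool.Agent.ZEN.Gen

set_option autoImplicit false

/-! Module GQ: polynomial exponent sequences are admissible.
`poly_grow`: `P` real, non-constant, leading coefficient positive: `P(n+1) - P(n)` is eventually `≥ κ > 0` (a constant `lc` if the degree is `1`, tends to `+∞` otherwise), so `P(n') - P(n) ≥ κ (n' - n)` for `n' ≥ n ≥ n0`; take `d ≥ m/κ`.
`adm_poly`: `l (q i n) = p_i(n+1) l(v_i) + l(w_i)` is the value at `n` of a real polynomial, non-constant since `l (v i) ≠ 0`; differences: the polynomial `l(v_i) p_i - l(v_j) p_j` has `s`-th coefficient `l (coeff_s p_i • v_i - coeff_s p_j • v_j) ≠ 0` for some `s ≥ 1` (injectivity),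
so it is non-constant and tends to `±∞` (`Polynomial.tendsto_atTop_of_leadingCoeff_nonneg`, `tendsto_atBot_of_leadingCoeff_nonpos`). -/

open Finset Filter Topology MeasureTheory Polynomial

namespace Pool.Agent.ZEN

private lemma GQ_pos (Q : ℝ[X]) (hpos : 0 < Q.leadingCoeff) :
    ∃ κ : ℝ, 0 < κ ∧ ∃ x0 : ℝ, ∀ x : ℝ, x0 ≤ x → κ ≤ Q.eval x := by
  rcases Nat.eq_zero_or_pos Q.natDegree with h0 | h0
  · refine ⟨Q.leadingCoeff, hpos, 0, fun x _ => ?_⟩
    rw [Polynomial.eq_C_of_natDegree_eq_zero h0]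
    simp [Polynomial.leadingCoeff]
  · have ht := Q.tendsto_atTop_of_leadingCoeff_nonneg
      (Polynomial.natDegree_pos_iff_degree_pos.1 h0) hpos.le
    obtain ⟨x0, hx0⟩ := (ht.eventually_ge_atTop 1).exists_forall_of_atTop
    exact ⟨1, one_pos, x0, hx0⟩

theorem poly_grow (P : ℝ[X]) (h : 1 ≤ P.natDegree) (hpos : 0 < P.leadingCoeff) (m : ℝ) :
    ∃ n0 d : ℕ, ∀ n n' : ℕ, n0 ≤ n → n + d ≤ n' → P.eval (n : ℝ) + m ≤ P.eval (n' : ℝ) := by
  have hlc : 0 < (derivative P).leadingCoeff := by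
    have h1 : (derivative P).natDegree = P.natDegree - 1 :=
      Polynomial.natDegree_derivative P
    have h2 : (derivative P).leadingCoeff = P.leadingCoeff * P.natDegree := by
      rw [Polynomial.leadingCoeff, h1, Polynomial.coeff_derivative, Polynomial.leadingCoeff,
        Nat.sub_add_cancel h]
      congr 1
      rw [Nat.cast_sub h]
      simp
    rw [h2]
    have : (0 : ℝ) < P.natDegree := by exact_mod_cast h
    positivity
  obtain ⟨κ, hκ, x0, hx0⟩ := GQ_pos _ hlc
  obtain ⟨n0, hn0⟩ := exists_nat_ge x0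
  obtain ⟨d, hd⟩ := exists_nat_ge (m / κ)
  refine ⟨n0, d, fun n n' hn hn' => ?_⟩
  have hnn : (n : ℝ) + d ≤ n' := by exact_mod_cast hn'
  have h1 : κ * ((n' : ℝ) - n) ≤ P.eval (n' : ℝ) - P.eval (n : ℝ) := by
    refine (convex_Ici x0).mul_sub_le_image_sub_of_le_deriv (f := fun x => P.eval x)
      P.continuous.continuousOn P.differentiable.differentiableOn ?_ (n : ℝ) ?_ (n' : ℝ) ?_ ?_
    · intro x hx
      rw [interior_Ici] at hx
      rw [Polynomial.deriv]
      exact hx0 x (le_of_lt hx)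
    · show x0 ≤ (n : ℝ)
      exact hn0.trans (by exact_mod_cast hn)
    · show x0 ≤ (n' : ℝ)
      refine hn0.trans ?_
      have : n0 ≤ n' := by omega
      exact_mod_cast this
    · have : n ≤ n' := by omega
      exact_mod_cast this
  have h2 : m ≤ κ * ((n' : ℝ) - n) := by
    have h3 : m / κ ≤ (n' : ℝ) - n := by linarith
    have h4 := mul_le_mul_of_nonneg_left h3 hκ.le
    rwa [mul_div_cancel₀ _ hκ.ne'] at h4
  linarith

theorem adm_poly {r k : ℕ} (l : Zr r →+ ℝ) (hl : Function.Injective l) (v w : Fin k → Zr r)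
    (p : Fin k → ℤ[X]) (hv : ∀ i, v i ≠ 0) (hp : ∀ i, 1 ≤ (p i).natDegree)
    (hd : ∀ i j, i ≠ j → ∃ s : ℕ, 1 ≤ s ∧ (p i).coeff s • v i ≠ (p j).coeff s • v j) :
    Adm l (fun i n => (p i).eval ((n + 1 : ℕ) : ℤ) • v i + w i) := by
  set R : Fin k → ℝ[X] := fun i => C (l (v i)) * (p i).map (Int.castRingHom ℝ) + C (l (w i))
    with hR
  have hval : ∀ i (n : ℕ), l ((p i).eval ((n + 1 : ℕ) : ℤ) • v i + w i) =
      (R i).eval (((n + 1 : ℕ) : ℕ) : ℝ) := by
    intro i n
    have h1 : ((p i).map (Int.castRingHom ℝ)).eval (((n + 1 : ℕ) : ℤ) : ℝ) =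
        (((p i).eval ((n + 1 : ℕ) : ℤ) : ℤ) : ℝ) := by
      rw [Polynomial.eval_intCast_map]
      simp
    rw [map_add, map_zsmul, hR]
    simp only [Polynomial.eval_add, Polynomial.eval_mul, Polynomial.eval_C]
    have h2 : (((n + 1 : ℕ) : ℤ) : ℝ) = ((n + 1 : ℕ) : ℝ) := by push_cast; ring
    rw [h2] at h1
    rw [h1, zsmul_eq_mul]
    ring
  have hcoef : ∀ i (s : ℕ), 1 ≤ s → (R i).coeff s = l ((p i).coeff s • v i) := by
    intro i s hs
    rw [hR]
    simp only [Polynomial.coeff_add, Polynomial.coeff_C_mul, Polynomial.coeff_map]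
    rw [Polynomial.coeff_C, if_neg (by omega), map_zsmul, zsmul_eq_mul]
    simp [mul_comm]
  have hl0 : ∀ u : Zr r, l u = 0 → u = 0 := fun u hu => hl (by rw [hu, map_zero])
  have htop : Tendsto (fun n : ℕ => (((n + 1 : ℕ) : ℕ) : ℝ)) atTop atTop :=
    tendsto_natCast_atTop_atTop.comp (tendsto_add_atTop_nat 1)
  constructor
  · intro i j hij
    obtain ⟨s, hs, hne⟩ := hd i j hij
    have hc : (R i - R j).coeff s ≠ 0 := by
      rw [Polynomial.coeff_sub, hcoef i s hs, hcoef j s hs, ← map_sub]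
      intro h0
      exact hne (sub_eq_zero.1 (hl0 _ h0))
    have hdeg : 0 < (R i - R j).natDegree :=
      lt_of_lt_of_le hs (Polynomial.le_natDegree_of_ne_zero hc)
    have hdeg' := Polynomial.natDegree_pos_iff_degree_pos.1 hdeg
    have heq : (fun n : ℕ => l ((p i).eval ((n + 1 : ℕ) : ℤ) • v i + w i) -
        l ((p j).eval ((n + 1 : ℕ) : ℤ) • v j + w j)) =
        (fun x : ℝ => (R i - R j).eval x) ∘ (fun n : ℕ => (((n + 1 : ℕ) : ℕ) : ℝ)) := by
      funext n
      rw [hval, hval]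
      simp only [Function.comp, Polynomial.eval_sub]
    rcases le_total 0 (R i - R j).leadingCoeff with h0 | h0
    · left
      show Tendsto (fun n : ℕ => l ((p i).eval ((n + 1 : ℕ) : ℤ) • v i + w i) -
        l ((p j).eval ((n + 1 : ℕ) : ℤ) • v j + w j)) atTop atTop
      rw [heq]
      exact (Polynomial.tendsto_atTop_of_leadingCoeff_nonneg _ hdeg' h0).comp htop
    · right
      show Tendsto (fun n : ℕ => l ((p i).eval ((n + 1 : ℕ) : ℤ) • v i + w i) -
        l ((p j).eval ((n + 1 : ℕ) : ℤ) • v j + w j)) atTop atBot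
      rw [heq]
      exact (Polynomial.tendsto_atBot_of_leadingCoeff_nonpos _ hdeg' h0).comp htop
  · intro j
    have hdj := hp j
    have hcj : (R j).coeff (p j).natDegree ≠ 0 := by
      rw [hcoef j _ hdj]
      intro h0
      have h1 := hl0 _ h0
      have h2 : (p j).coeff (p j).natDegree ≠ 0 := by
        intro h3
        have h4 : p j = 0 := Polynomial.leadingCoeff_eq_zero.1 h3
        rw [h4] at hdj
        simp at hdj
      rcases smul_eq_zero.1 h1 with h3 | h3
      · exact h2 h3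
      · exact hv j h3
    have hdeg : 1 ≤ (R j).natDegree := hdj.trans (Polynomial.le_natDegree_of_ne_zero hcj)
    have hlc : (R j).leadingCoeff ≠ 0 := by
      intro h0
      rw [Polynomial.leadingCoeff_eq_zero.1 h0] at hdeg
      simp at hdeg
    rcases lt_or_gt_of_ne hlc with h0 | h0
    · right
      intro m
      obtain ⟨n0, d, hnd⟩ := poly_grow (-(R j)) (by rwa [Polynomial.natDegree_neg])
        (by rw [Polynomial.leadingCoeff_neg]; linarith) m
      refine ⟨n0, d, fun n n' hn hn' => ?_⟩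
      have := hnd (n + 1) (n' + 1) (by omega) (by omega)
      show l ((p j).eval ((n' + 1 : ℕ) : ℤ) • v j + w j) + m ≤
        l ((p j).eval ((n + 1 : ℕ) : ℤ) • v j + w j)
      rw [hval, hval]
      rw [Polynomial.eval_neg, Polynomial.eval_neg] at this
      linarith
    · left
      intro m
      obtain ⟨n0, d, hnd⟩ := poly_grow (R j) hdeg h0 m
      refine ⟨n0, d, fun n n' hn hn' => ?_⟩
      have := hnd (n + 1) (n' + 1) (by omega) (by omega)
      show l ((p j).eval ((n + 1 : ℕ) : ℤ) • v j + w j) + m ≤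
        l ((p j).eval ((n' + 1 : ℕ) : ℤ) • v j + w j)
      rw [hval, hval]
      exact this

end Pool.Agent.ZEN
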