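import Pool.Agent.ZEN.GF
import Pool.Agent.ZEN.GM
import Pool.Agent.ZEN.GQ

set_option autoImplicit false

/-! Module GP: the theorem for polynomial exponents: `mainG` with `l` from `ell`, `adm_poly`, `maxIneq_poly`; the sum over `Icc 1 N` is the sum over `range N` of the values at `n + 1`.
`main_comm`: commuting permutations `S i` (measure preserving with measurable inverse): the action `T v = ∏ i, S i ^ v i` of `ℤ^k` (`Finset.noncommProd`, or define it by lists / induction; any construction), `v i = Pi.single i 1`. -/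

open Finset Filter Topology MeasureTheory Polynomial

namespace Pool.Agent.ZEN

theorem main_poly {X : Type*} [mX : MeasurableSpace X] (μ : Measure X) [IsProbabilityMeasure μ]
    {r k : ℕ} (T : Zr r → X → X) (hT : IsAct μ T) (v w : Fin k → Zr r)
    (p : Fin k → ℤ[X]) (hv : ∀ i, v i ≠ 0) (hp : ∀ i, 1 ≤ (p i).natDegree)
    (hd : ∀ i j, i ≠ j → ∃ s : ℕ, 1 ≤ s ∧ (p i).coeff s • v i ≠ (p j).coeff s • v j)
    (f : Fin k → X → ℝ) (hf : ∀ i, Measurable (f i)) (hb : ∀ i, ∃ C : ℝ, ∀ x, |f i x| ≤ C) :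
    ∀ᵐ x ∂μ, Tendsto (fun N : ℕ => (1 / (N : ℝ)) * ∑ n ∈ Finset.Icc 1 N,
      (∏ i, f i (T ((p i).eval (n : ℤ) • v i + w i) x) -
        ∏ i, (μ[f i|Pin μ T]) (T ((p i).eval (n : ℤ) • v i + w i) x))) atTop (𝓝 0) := by
  obtain ⟨l, hl⟩ := ell r
  have h := mainG μ T hT l hl (fun i n => (p i).eval ((n + 1 : ℕ) : ℤ) • v i + w i)
    (adm_poly l hl v w p hv hp hd) (fun j => maxIneq_poly (p j) (hp j) μ T hT (v j) (w j)) f hf hb
  filter_upwards [h] with x hx
  refine hx.congr fun N => ?_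
  unfold avg
  congr 1
  have h1 : Finset.Icc 1 N = Finset.Ico (0 + 1) (N + 1) := by
    ext n
    simp only [Finset.mem_Icc, Finset.mem_Ico]
    omega
  rw [h1, ← Finset.sum_Ico_add', Finset.range_eq_Ico]

end Pool.Agent.ZEN
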