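import Pool.Agent.ZEN.Defs

set_option autoImplicit false

/-! Module Levy: downward (reverse) martingale convergence in `L¹` for bounded functions.
`𝒜 n` decreasing, `𝒜∞ = ⨅ 𝒜 n`.  In `L²(μ)` the subspaces `K_n = lpMeas ℝ ℝ (𝒜 n) 2 μ` are closed and decreasing; the orthogonal projections onto a decreasing sequence of closed subspaces converge
strongly to the projection onto the intersection (apply the increasing case `Submodule.starProjection_tendsto_closure_iSup` / `orthogonalProjection_tendsto_closure_iSup` to the orthogonal complements).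
The condExp in `L²` is the projection (`condExpL2`).  `⋂ K_n = lpMeas (⨅ 𝒜 n)`: if `g` has for every `n` an `𝒜 n`-measurable version `g_n`, then `limsup_n g_n` is measurable for all `𝒜 N` (it depends only on
`n ≥ N`), so for the infimum, and is a version of `g`.  `L²` convergence implies `L¹` convergence (probability measure).
(Alternative proof without Hilbert spaces: `a_n = ∫ μ[f|𝒜 n]²` is decreasing, `∫ (μ[f|𝒜 n] - μ[f|𝒜 m])² = a_n - a_m` for `n ≤ m`, so Cauchy in `L²`; choose a subsequence converging a.e.; the limsup `g` along it is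
`⨅ 𝒜`-measurable, bounded, and `∫_A g = ∫_A f` for `A ∈ ⨅ 𝒜`, so `g = μ[f|⨅ 𝒜]` a.e.) -/

open Finset Filter Topology MeasureTheory

namespace Pool.Agent.ZEN

private theorem Levy_version {X : Type*} {mX : MeasurableSpace X} (μ : Measure X)
    [IsProbabilityMeasure μ] (m : MeasurableSpace X) (f : X → ℝ) (C : ℝ)
    (hC : ∀ x, |f x| ≤ C) : ∃ g : X → ℝ, @Measurable X ℝ m _ g ∧ (∀ x, |g x| ≤ C) ∧
      g =ᵐ[μ] μ[f|m] := by
  have hne : Nonempty X := by
    by_contra h
    rw [not_nonempty_iff] at h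
    have h1 : μ Set.univ = 1 := measure_univ
    rw [Set.univ_eq_empty_iff.mpr h, measure_empty] at h1
    exact zero_ne_one h1
  have hC0 : 0 ≤ C := (abs_nonneg _).trans (hC hne.some)
  refine ⟨fun x => max (-C) (min C ((μ[f|m]) x)), ?_, fun x => ?_, ?_⟩
  · exact measurable_const.max (measurable_const.min stronglyMeasurable_condExp.measurable)
  · rw [abs_le]
    exact ⟨le_max_left _ _, max_le (by linarith) (min_le_left _ _)⟩
  · have h1 : ∀ᵐ x ∂μ, |(μ[f|m]) x| ≤ C :=
      ae_bdd_abs_condExp_of_ae_bdd_abs (Eventually.of_forall hC)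
    filter_upwards [h1] with x hx
    rw [abs_le] at hx
    rw [min_eq_right hx.2, max_eq_right hx.1]

private theorem Levy_orth {X : Type*} {mX : MeasurableSpace X} (μ : Measure X)
    [IsProbabilityMeasure μ] (m : MeasurableSpace X) (hm : m ≤ mX) (f : X → ℝ) (hf : @Measurable X ℝ mX _ f)
    (C : ℝ) (hC : ∀ x, |f x| ≤ C) (g : X → ℝ) (hg : g =ᵐ[μ] μ[f|m]) (Z : X → ℝ)
    (hZ : @Measurable X ℝ m _ Z) (hZb : ∃ C : ℝ, ∀ x, |Z x| ≤ C) :
    ∫ x, (f x - g x) * Z x ∂μ = 0 := by
  obtain ⟨D, hD⟩ := hZb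
  have hfi : Integrable f μ := Integrable.of_bound hf.aestronglyMeasurable C
    (Eventually.of_forall fun x => by rw [Real.norm_eq_abs]; exact hC x)
  have hZm : @Measurable X ℝ mX _ Z := hZ.mono hm le_rfl
  have hfZ : Integrable (f * Z) μ := by
    refine hfi.mul_bdd (c := D) hZm.aestronglyMeasurable (Eventually.of_forall fun x => ?_)
    rw [Real.norm_eq_abs]; exact hD x
  have hgi : Integrable g μ := integrable_condExp.congr hg.symm
  have hgZ : Integrable (g * Z) μ := by
    refine hgi.mul_bdd (c := D) hZm.aestronglyMeasurable (Eventually.of_forall fun x => ?_)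
    rw [Real.norm_eq_abs]; exact hD x
  have h1 : μ[f * Z|m] =ᵐ[μ] μ[f|m] * Z :=
    condExp_mul_of_stronglyMeasurable_right hZ.stronglyMeasurable hfZ hfi
  have h2 : ∫ x, (μ[f * Z|m]) x ∂μ = ∫ x, (f * Z) x ∂μ := integral_condExp hm
  have h3 : ∫ x, (μ[f * Z|m]) x ∂μ = ∫ x, (g * Z) x ∂μ := by
    refine integral_congr_ae ?_
    filter_upwards [h1, hg] with x hx hx2
    rw [hx]
    simp only [Pi.mul_apply, hx2]
  have h4 : ∫ x, (f x - g x) * Z x ∂μ = ∫ x, ((f * Z) x - (g * Z) x) ∂μ := by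
    congr 1
    funext x
    simp only [Pi.mul_apply]
    ring
  rw [h4, integral_sub hfZ hgZ, ← h2, ← h3, sub_self]

private theorem Levy_l1 {X : Type*} {mX : MeasurableSpace X} (μ : Measure X)
    [IsProbabilityMeasure μ] (h : X → ℝ) (hm : Measurable h) (C : ℝ) (hC : ∀ x, |h x| ≤ C) (t : ℝ)
    (ht : 0 < t) (h2 : ∫ x, h x ^ 2 ∂μ < t ^ 2) : ∫ x, |h x| ∂μ < t := by
  have hi : Integrable h μ := Integrable.of_bound hm.aestronglyMeasurable C
    (Eventually.of_forall fun x => by rw [Real.norm_eq_abs]; exact hC x)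
  have hi2 : Integrable (fun x => h x ^ 2) μ :=
    Integrable.of_bound (hm.pow_const 2).aestronglyMeasurable (C ^ 2)
      (Eventually.of_forall fun x => by
        rw [Real.norm_eq_abs, abs_pow]; exact pow_le_pow_left₀ (abs_nonneg _) (hC x) 2)
  have h3 : ∫ x, |h x| ∂μ ≤ ∫ x, (h x ^ 2 * (1 / (2 * t)) + t / 2) ∂μ := by
    refine integral_mono hi.abs ((hi2.mul_const _).add (integrable_const _)) fun x => ?_
    have h4 : 0 ≤ (|h x| - t) ^ 2 := sq_nonneg _
    have h5 : |h x| * (2 * t) ≤ h x ^ 2 + t ^ 2 := by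
      rw [← sq_abs (h x)]
      nlinarith
    have h6 : h x ^ 2 * (1 / (2 * t)) + t / 2 = (h x ^ 2 + t ^ 2) / (2 * t) := by
      field_simp
    show |h x| ≤ h x ^ 2 * (1 / (2 * t)) + t / 2
    rw [h6, le_div_iff₀ (by positivity)]
    exact h5
  rw [integral_add (hi2.mul_const _) (integrable_const _), integral_mul_const] at h3
  have h7 : ∫ _ : X, t / 2 ∂μ = t / 2 := by simp
  rw [h7] at h3
  have h8 : (∫ x, h x ^ 2 ∂μ) * (1 / (2 * t)) < t ^ 2 * (1 / (2 * t)) :=
    mul_lt_mul_of_pos_right h2 (by positivity)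
  have h9 : t ^ 2 * (1 / (2 * t)) = t / 2 := by field_simp
  linarith

theorem levy {X : Type*} {mX : MeasurableSpace X} (μ : Measure X) [IsProbabilityMeasure μ]
    (𝒜 : ℕ → MeasurableSpace X) (hanti : Antitone 𝒜) (hle : ∀ n, 𝒜 n ≤ mX) (f : X → ℝ)
    (hf : Measurable f) (C : ℝ) (hC : ∀ x, |f x| ≤ C) (ε : ℝ) (hε : 0 < ε) :
    ∃ n, ∫ x, |(μ[f|𝒜 n]) x - (μ[f|⨅ n, 𝒜 n]) x| ∂μ ≤ ε := by
  have hfi : Integrable f μ := Integrable.of_bound hf.aestronglyMeasurable C
    (Eventually.of_forall fun x => by rw [Real.norm_eq_abs]; exact hC x)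
  have hv : ∀ n, ∃ g : X → ℝ, @Measurable X ℝ (𝒜 n) _ g ∧ (∀ x, |g x| ≤ C) ∧
      g =ᵐ[μ] μ[f|𝒜 n] := fun n => Levy_version μ (𝒜 n) f C hC
  choose g hgm hgC hgE using hv
  have hgM : ∀ n, Measurable (g n) := fun n => (hgm n).mono (hle n) le_rfl
  have hgi : ∀ n, Integrable (g n) μ := fun n =>
    Integrable.of_bound (hgM n).aestronglyMeasurable C
      (Eventually.of_forall fun x => by rw [Real.norm_eq_abs]; exact hgC n x)
  have hgg : ∀ n k, Integrable (fun x => g n x * g k x) μ := fun n k =>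
    Integrable.of_bound ((hgM n).mul (hgM k)).aestronglyMeasurable (C * C)
      (Eventually.of_forall fun x => by
        rw [Real.norm_eq_abs, abs_mul]
        exact mul_le_mul (hgC n x) (hgC k x) (abs_nonneg _) ((abs_nonneg _).trans (hgC n x)))
  have hfg : ∀ k, Integrable (fun x => f x * g k x) μ := fun k =>
    Integrable.of_bound (hf.mul (hgM k)).aestronglyMeasurable (C * C)
      (Eventually.of_forall fun x => by
        rw [Real.norm_eq_abs, abs_mul]
        exact mul_le_mul (hC x) (hgC k x) (abs_nonneg _) ((abs_nonneg _).trans (hC x)))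
  -- cross terms
  have hcross : ∀ n k, n ≤ k → ∫ x, g n x * g k x ∂μ = ∫ x, g k x * g k x ∂μ := by
    intro n k hnk
    have h1 := Levy_orth μ (𝒜 n) (hle n) f hf C hC (g n) (hgE n) (g k)
      ((hgm k).mono (hanti hnk) le_rfl) ⟨C, hgC k⟩
    have h2 := Levy_orth μ (𝒜 k) (hle k) f hf C hC (g k) (hgE k) (g k) (hgm k) ⟨C, hgC k⟩
    simp only [sub_mul] at h1 h2
    rw [integral_sub (hfg k) (hgg n k)] at h1
    rw [integral_sub (hfg k) (hgg k k)] at h2
    linarith
  set a : ℕ → ℝ := fun n => ∫ x, g n x * g n x ∂μ with ha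
  have hpyth : ∀ n k, n ≤ k → ∫ x, (g n x - g k x) ^ 2 ∂μ = a n - a k := by
    intro n k hnk
    have e : ∀ x, (g n x - g k x) ^ 2 = (g n x * g n x - 2 * (g n x * g k x)) + g k x * g k x := by
      intro x; ring
    simp_rw [e]
    have i1 : Integrable (fun x => g n x * g n x - 2 * (g n x * g k x)) μ :=
      (hgg n n).sub ((hgg n k).const_mul 2)
    rw [integral_add i1 (hgg k k),
      integral_sub (hgg n n) ((hgg n k).const_mul 2), integral_const_mul, hcross n k hnk]
    simp only [ha]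
    ring
  have hanti_a : Antitone a := by
    intro n k hnk
    have h1 := hpyth n k hnk
    have h2 : 0 ≤ ∫ x, (g n x - g k x) ^ 2 ∂μ := integral_nonneg fun x => sq_nonneg _
    linarith
  have ha0 : ∀ n, 0 ≤ a n := fun n => integral_nonneg fun x => mul_self_nonneg _
  obtain ⟨L, hL⟩ : ∃ L, Tendsto a atTop (𝓝 L) := by
    rcases tendsto_atTop_of_antitone hanti_a with h1 | h1
    · exfalso
      obtain ⟨n, hn⟩ := (h1.eventually (eventually_lt_atBot 0)).exists
      exact absurd hn (not_lt.mpr (ha0 n))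
    · exact h1
  have hLle : ∀ n, L ≤ a n := fun n => hanti_a.le_of_tendsto hL n
  obtain ⟨φ, hφ, hφa⟩ := extraction_forall_of_eventually' (P := fun n k => a k - L < ((1 / 2 : ℝ) ^ n) ^ 2)
    (by
      intro n
      have h1 : ∀ᶠ k in atTop, a k < L + ((1 / 2 : ℝ) ^ n) ^ 2 :=
        hL.eventually (gt_mem_nhds (by
          have : (0 : ℝ) < ((1 / 2 : ℝ) ^ n) ^ 2 := by positivity
          linarith))
      obtain ⟨N, hN⟩ := eventually_atTop.mp h1
      exact ⟨N, fun k hk => by linarith [hN k hk]⟩)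
  have hcl : ∀ N n k, N ≤ n → N ≤ k → ∫ x, |g (φ n) x - g (φ k) x| ∂μ < (1 / 2 : ℝ) ^ N := by
    have key : ∀ N n k, N ≤ n → n ≤ k → ∫ x, |g (φ n) x - g (φ k) x| ∂μ < (1 / 2 : ℝ) ^ N := by
      intro N n k hn hk
      refine Levy_l1 μ (fun x => g (φ n) x - g (φ k) x) ((hgM _).sub (hgM _)) (2 * C)
        (fun x => ?_) _ (by positivity) ?_
      · refine (abs_sub _ _).trans ?_
        linarith [hgC (φ n) x, hgC (φ k) x]
      · rw [hpyth (φ n) (φ k) (hφ.monotone hk)]
        have h1 := hφa n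
        have h2 := hLle (φ k)
        have h3 : ((1 / 2 : ℝ) ^ n) ^ 2 ≤ ((1 / 2 : ℝ) ^ N) ^ 2 := by
          apply pow_le_pow_left₀ (by positivity)
          exact pow_le_pow_of_le_one (by norm_num) (by norm_num) hn
        linarith
    intro N n k hn hk
    rcases le_total n k with h1 | h1
    · exact key N n k hn h1
    · have h2 := key N k n hk h1
      simpa only [abs_sub_comm] using h2
  have hconv : ∀ᵐ x ∂μ, ∃ l, Tendsto (fun n => g (φ n) x) atTop (𝓝 l) := by
    refine Lp.ae_tendsto_of_cauchy_eLpNorm (p := 1) (B := fun N => ENNReal.ofReal ((1 / 2 : ℝ) ^ N))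
      (fun n => (hgM _).aestronglyMeasurable) le_rfl ?_ ?_
    · rw [← ENNReal.ofReal_tsum_of_nonneg (fun j => by positivity) summable_geometric_two]
      exact ENNReal.ofReal_ne_top
    · intro N n k hn hk
      rw [eLpNorm_one_eq_lintegral_enorm,
        ← ofReal_integral_norm_eq_lintegral_enorm ((hgi _).sub (hgi _))]
      refine (ENNReal.ofReal_lt_ofReal_iff (by positivity)).mpr ?_
      simpa only [Real.norm_eq_abs, Pi.sub_apply] using hcl N n k hn hk
  set G : X → ℝ := fun x => limsup (fun j => g (φ j) x) atTop with hG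
  have hGm : @Measurable X ℝ (⨅ n, 𝒜 n) _ G := by
    have h1 : ∀ N, @Measurable X ℝ (𝒜 N) _ G := by
      intro N
      have e : G = fun x => limsup (fun j => g (φ (j + N)) x) atTop := by
        funext x
        exact (limsup_nat_add (fun j => g (φ j) x) N).symm
      rw [e]
      refine @Measurable.limsup ℝ X _ _ _ (𝒜 N) _ _ _ _ fun j => ?_
      exact (hgm _).mono (hanti ((Nat.le_add_left N j).trans (hφ.le_apply))) le_rfl
    intro s hs
    rw [MeasurableSpace.measurableSet_iInf]
    exact fun N => h1 N hs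
  have hlim : ∀ᵐ x ∂μ, Tendsto (fun n => g (φ n) x) atTop (𝓝 (G x)) := by
    filter_upwards [hconv] with x hx
    obtain ⟨l, hl⟩ := hx
    have : G x = l := hl.limsup_eq
    rw [this]
    exact hl
  have hinf : (⨅ n, 𝒜 n) ≤ mX := (iInf_le 𝒜 0).trans (hle 0)
  have hGM : Measurable G := hGm.mono hinf le_rfl
  have hGC : ∀ᵐ x ∂μ, |G x| ≤ C := by
    filter_upwards [hlim] with x hx
    exact le_of_tendsto hx.abs (Eventually.of_forall fun n => hgC _ x)
  have hGi : Integrable G μ := Integrable.of_bound hGM.aestronglyMeasurable C (by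
    filter_upwards [hGC] with x hx
    rw [Real.norm_eq_abs]; exact hx)
  have hGE : G =ᵐ[μ] μ[f|⨅ n, 𝒜 n] := by
    refine ae_eq_condExp_of_forall_setIntegral_eq hinf hfi (fun s _ _ => hGi.integrableOn) ?_
      hGm.stronglyMeasurable.aestronglyMeasurable
    intro s hs _
    have hs' : ∀ n, MeasurableSet[𝒜 n] s := fun n => by
      rw [MeasurableSpace.measurableSet_iInf] at hs
      exact hs n
    have h1 : Tendsto (fun n => ∫ x in s, g (φ n) x ∂μ) atTop (𝓝 (∫ x in s, G x ∂μ)) := by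
      refine tendsto_integral_of_dominated_convergence (fun _ => C)
        (fun n => (hgM _).aestronglyMeasurable) (integrable_const _) ?_ (ae_restrict_of_ae hlim)
      intro n
      exact Eventually.of_forall fun x => by rw [Real.norm_eq_abs]; exact hgC _ x
    have h2 : ∀ n, ∫ x in s, g (φ n) x ∂μ = ∫ x in s, f x ∂μ := by
      intro n
      rw [← setIntegral_condExp (hle (φ n)) hfi (hs' (φ n))]
      exact integral_congr_ae (ae_restrict_of_ae (hgE (φ n)))
    simp only [h2] at h1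
    exact (tendsto_nhds_unique h1 tendsto_const_nhds)
  have hlim2 : Tendsto (fun n => ∫ x, |g (φ n) x - G x| ∂μ) atTop (𝓝 0) := by
    have h1 : Tendsto (fun n => ∫ x, |g (φ n) x - G x| ∂μ) atTop (𝓝 (∫ _, (0 : ℝ) ∂μ)) := by
      refine tendsto_integral_of_dominated_convergence (fun _ => 2 * C)
        (fun n => ((hgM _).sub hGM).norm.aestronglyMeasurable) (integrable_const _) ?_ ?_
      · intro n
        filter_upwards [hGC] with x hx
        rw [Real.norm_eq_abs, abs_abs]
        refine (abs_sub _ _).trans ?_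
        linarith [hgC (φ n) x]
      · filter_upwards [hlim] with x hx
        have h2 := (hx.sub_const (G x)).abs
        rw [sub_self, abs_zero] at h2
        exact h2
    simpa using h1
  obtain ⟨n, hn⟩ := (hlim2.eventually (gt_mem_nhds hε)).exists
  refine ⟨φ n, ?_⟩
  refine le_trans (le_of_eq ?_) hn.le
  refine integral_congr_ae ?_
  filter_upwards [hgE (φ n), hGE] with x h1 h2
  rw [h1, h2]

/-- everywhere bounded version of a conditional expectation -/
theorem cond_version {X : Type*} {mX : MeasurableSpace X} (μ : Measure X) [IsProbabilityMeasure μ]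
    (m : MeasurableSpace X) (hm : m ≤ mX) (f : X → ℝ) (hf : @Measurable X ℝ mX _ f) (C : ℝ)
    (hC : ∀ x, |f x| ≤ C) : ∃ g : X → ℝ, @Measurable X ℝ m _ g ∧ (∀ x, |g x| ≤ C) ∧
      g =ᵐ[μ] μ[f|m] := by
  exact Levy_version μ m f C hC

/-- orthogonality to the σ-algebra -/
theorem cond_orth {X : Type*} {mX : MeasurableSpace X} (μ : Measure X) [IsProbabilityMeasure μ]
    (m : MeasurableSpace X) (hm : m ≤ mX) (f : X → ℝ) (hf : @Measurable X ℝ mX _ f) (C : ℝ)
    (hC : ∀ x, |f x| ≤ C) (g : X → ℝ) (hg : g =ᵐ[μ] μ[f|m]) (Z : X → ℝ)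
    (hZ : @Measurable X ℝ m _ Z) (hZb : ∃ C : ℝ, ∀ x, |Z x| ≤ C) :
    ∫ x, (f x - g x) * Z x ∂μ = 0 := by
  exact Levy_orth μ m hm f hf C hC g hg Z hZ hZb

end Pool.Agent.ZEN
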