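import Pool.Agent.ZEN.GA
import Pool.Agent.ZEN.Levy

set_option autoImplicit false

/-! Module GT: general form of Step and of the tail theorem TTh.
`stepGT`: `clozG` with `R n = T (q j n)`, `f = h j - g`, weights `∏_{i ≠ j} h i (T (q i n) x)`.  For `ε > 0` let `n` be given by `levy` for `𝒜 n = lev T P l (-n)` with `ε/(4C+1)`, `g_n` a bounded version of `μ[h j | 𝒜 n]` (`cond_version`),
`F = h j - g_n`: `stepG` (orthogonality from `cond_orth`), `∫ ((h j - g) - F)² = ∫ (g_n - g)² ≤ 2C ∫ |g_n - g| ≤ ε`.
`tthG`: for a set `s` of indices let `m_s i = g i` for `i ∈ s`, `h i` otherwise.  Say `i ≻ j` if `l (q i n) - l (q j n) → +∞`; for `i ≠ j` exactly one of `i ≻ j`, `j ≻ i` (`sep`), transitive.  If `s` is an upper set (`i ∈ s, i' ∉ s → i ≻ i'`) then the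
averages of `∏ m_s - ∏ g` tend to `0` a.e.: induction on the number of elements outside `s`: the largest element `j ∉ s` for `≻`; `∏ m_s - ∏ m_{insert j s} = (h j - g j) ∏_{i ≠ j} m_s i`: `stepGT`. -/

open Finset Filter Topology MeasureTheory

namespace Pool.Agent.ZEN

theorem stepGT {X : Type*} [mX : MeasurableSpace X] (μ : Measure X) [IsProbabilityMeasure μ]
    {r M k : ℕ} (T : Zr r → X → X) (hT : IsAct μ T) (P : X → Fin M) (hP : Measurable P)
    (l : Zr r →+ ℝ) (q : Fin k → ℕ → Zr r) (j : Fin k)
    (hgrow : (∀ m : ℝ, ∃ n0 d : ℕ, ∀ n n', n0 ≤ n → n + d ≤ n' → l (q j n) + m ≤ l (q j n')) ∨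
      (∀ m : ℝ, ∃ n0 d : ℕ, ∀ n n', n0 ≤ n → n + d ≤ n' → l (q j n') + m ≤ l (q j n)))
    (C0 : ℝ) (hmax : MaxIneq μ (fun n => T (q j n)) C0)
    (h : Fin k → X → ℝ) (C : ℝ) (hC : ∀ i x, |h i x| ≤ C)
    (hcase : ∀ i, i ≠ j → (@Measurable X ℝ (tail T P l) _ (h i)) ∨
      (@Measurable X ℝ (lev T P l 0) _ (h i) ∧
        Tendsto (fun n => l (q j n) - l (q i n)) atTop atTop))
    (hj : @Measurable X ℝ (lev T P l 0) _ (h j)) (g : X → ℝ)
    (hg : @Measurable X ℝ (tail T P l) _ g) (hgC : ∀ x, |g x| ≤ C)
    (hgE : g =ᵐ[μ] μ[h j|tail T P l]) :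
    ∀ᵐ x ∂μ, Tendsto (avg (fun n => (h j (T (q j n) x) - g (T (q j n) x)) *
      ∏ i ∈ univ.erase j, h i (T (q i n) x))) atTop (𝓝 0) := by
  have hhjM : Measurable (h j) := hj.mono (lev_le μ T hT P hP l 0) le_rfl
  have hgM : Measurable g := hg.mono (tail_le μ T hT P hP l) le_rfl
  have hne : Nonempty X := by
    by_contra hX
    rw [not_nonempty_iff] at hX
    have h1 : μ Set.univ = 1 := measure_univ
    rw [Set.univ_eq_empty_iff.mpr hX, measure_empty] at h1
    exact zero_ne_one h1
  have hC0 : 0 ≤ C := (abs_nonneg _).trans (hC j hne.some)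
  refine clozG μ (fun n => T (q j n)) (fun n => hT.mp _) C0 hmax
    (fun n x => ∏ i ∈ univ.erase j, h i (T (q i n) x)) (C ^ (univ.erase j).card) ?_
    (fun x => h j x - g x) (hhjM.sub hgM) ⟨C + C, fun x => ?_⟩ ?_
  · intro n x
    rw [Finset.abs_prod]
    refine (Finset.prod_le_prod (fun i _ => abs_nonneg _) fun i _ => hC i _).trans (le_of_eq ?_)
    rw [prod_const]
  · refine (abs_sub _ _).trans ?_
    exact add_le_add (hC j x) (hgC x)
  · intro ε hε
    set 𝒜 : ℕ → MeasurableSpace X := fun n => lev T P l (-(n : ℝ)) with h𝒜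
    have hanti : Antitone 𝒜 := by
      intro a b hab
      apply lev_mono
      have : (a : ℝ) ≤ (b : ℝ) := by exact_mod_cast hab
      linarith
    have hle : ∀ n, 𝒜 n ≤ mX := fun n => lev_le μ T hT P hP l _
    obtain ⟨n, hn⟩ := levy μ 𝒜 hanti hle (h j) hhjM C (hC j) (ε / (2 * C + 1)) (by positivity)
    obtain ⟨gn, hgnm, hgnC, hgnE⟩ := cond_version μ (𝒜 n) (hle n) (h j) hhjM C (hC j)
    have hgnM : Measurable gn := hgnm.mono (hle n) le_rfl
    refine ⟨fun x => h j x - gn x, hhjM.sub hgnM, ⟨C + C, fun x => ?_⟩, ?_, ?_⟩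
    · refine (abs_sub _ _).trans ?_
      exact add_le_add (hC j x) (hgnC x)
    · have e1 : ∀ x, (h j x - g x - (h j x - gn x)) ^ 2 = (gn x - g x) ^ 2 := by
        intro x; ring
      simp only [e1]
      have hd : Measurable (fun x => gn x - g x) := hgnM.sub hgM
      have hdC : ∀ x, |gn x - g x| ≤ 2 * C := by
        intro x
        refine (abs_sub _ _).trans ?_
        linarith [hgnC x, hgC x]
      have i1 : Integrable (fun x => gn x - g x) μ :=
        Integrable.of_bound hd.aestronglyMeasurable (2 * C)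
          (Eventually.of_forall fun x => by rw [Real.norm_eq_abs]; exact hdC x)
      have i2 : Integrable (fun x => (gn x - g x) ^ 2) μ :=
        Integrable.of_bound (hd.pow_const 2).aestronglyMeasurable ((2 * C) ^ 2)
          (Eventually.of_forall fun x => by
            rw [Real.norm_eq_abs, abs_pow]
            exact pow_le_pow_left₀ (abs_nonneg _) (hdC x) 2)
      have h2 : ∫ x, (gn x - g x) ^ 2 ∂μ ≤ ∫ x, 2 * C * |gn x - g x| ∂μ := by
        refine integral_mono i2 (i1.abs.const_mul _) fun x => ?_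
        have h3 : (gn x - g x) ^ 2 = |gn x - g x| * |gn x - g x| := by
          rw [← sq_abs]; ring
        show (gn x - g x) ^ 2 ≤ 2 * C * |gn x - g x|
        rw [h3]
        exact mul_le_mul_of_nonneg_right (hdC x) (abs_nonneg _)
      rw [integral_const_mul] at h2
      have h4 : ∫ x, |gn x - g x| ∂μ ≤ ε / (2 * C + 1) := by
        refine le_trans (le_of_eq ?_) hn
        refine integral_congr_ae ?_
        filter_upwards [hgnE, hgE] with x h5 h6
        rw [h5, h6]
      calc ∫ x, (gn x - g x) ^ 2 ∂μ ≤ 2 * C * ∫ x, |gn x - g x| ∂μ := h2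
        _ ≤ (2 * C + 1) * (ε / (2 * C + 1)) := by
            apply mul_le_mul (by linarith) h4 _ (by linarith)
            exact integral_nonneg fun x => abs_nonneg _
        _ = ε := by field_simp
    · refine stepG μ T hT P hP l q j hgrow h C hC hcase (n : ℝ) (fun x => h j x - gn x) ?_
        ⟨C + C, fun x => ?_⟩ ?_
      · refine hj.sub (hgnm.mono (lev_mono T P l ?_) le_rfl)
        have : (0 : ℝ) ≤ (n : ℝ) := Nat.cast_nonneg n
        linarith
      · refine (abs_sub _ _).trans ?_
        exact add_le_add (hC j x) (hgnC x)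
      · intro Z hZ hZb
        exact cond_orth μ (𝒜 n) (hle n) (h j) hhjM C (hC j) gn hgnE Z hZ hZb

theorem tthG {X : Type*} [mX : MeasurableSpace X] (μ : Measure X) [IsProbabilityMeasure μ]
    {r M k : ℕ} (T : Zr r → X → X) (hT : IsAct μ T) (P : X → Fin M) (hP : Measurable P)
    (l : Zr r →+ ℝ) (q : Fin k → ℕ → Zr r) (hq : Adm l q)
    (hmax : ∀ j, ∃ C0 : ℝ, MaxIneq μ (fun n => T (q j n)) C0) (h g : Fin k → X → ℝ) (C : ℝ)
    (hC : ∀ i x, |h i x| ≤ C) (hh : ∀ i, @Measurable X ℝ (lev T P l 0) _ (h i))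
    (hg : ∀ i, @Measurable X ℝ (tail T P l) _ (g i)) (hgC : ∀ i x, |g i x| ≤ C)
    (hgE : ∀ i, g i =ᵐ[μ] μ[h i|tail T P l]) :
    ∀ᵐ x ∂μ, Tendsto (avg (fun n => ∏ i, h i (T (q i n) x) -
      ∏ i, g i (T (q i n) x))) atTop (𝓝 0) := by
  set gt : Fin k → Fin k → Prop := fun i j => Tendsto (fun n => l (q i n) - l (q j n)) atTop atTop
    with hgt
  -- a large time
  have hex : ∀ i j, ∃ n1 : ℕ, gt i j → ∀ n, n1 ≤ n → 0 < l (q i n) - l (q j n) := by
    intro i j
    by_cases hij : gt i j
    · obtain ⟨n1, hn1⟩ := eventually_atTop.1 (hij.eventually_gt_atTop 0)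
      exact ⟨n1, fun _ => hn1⟩
    · exact ⟨0, fun h' => absurd h' hij⟩
  choose N1 hN1 using hex
  set N : ℕ := ∑ i, ∑ j, N1 i j with hN
  have hNle : ∀ i j, N1 i j ≤ N := by
    intro i j
    calc N1 i j ≤ ∑ j, N1 i j :=
          Finset.single_le_sum (f := fun j => N1 i j) (fun _ _ => Nat.zero_le _) (mem_univ j)
      _ ≤ N := Finset.single_le_sum (f := fun i => ∑ j, N1 i j) (fun _ _ => Nat.zero_le _)
          (mem_univ i)
  have hpos : ∀ i j, gt i j → l (q j N) < l (q i N) := by
    intro i j hij
    have := hN1 i j hij N (hNle i j)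
    linarith
  have hor : ∀ i j, i ≠ j → gt i j ∨ gt j i := by
    intro i j hij
    rcases hq.sep i j hij with h1 | h1
    · exact Or.inl h1
    · refine Or.inr ?_
      have h2 := tendsto_neg_atBot_atTop.comp h1
      refine h2.congr fun n => ?_
      simp only [Function.comp]
      ring
  -- induction
  have main : ∀ n : ℕ, ∀ s : Finset (Fin k), (univ \ s).card = n →
      (∀ i ∈ s, ∀ i' ∉ s, gt i i') →
      ∀ᵐ x ∂μ, Tendsto (avg (fun n => ∏ i, (if i ∈ s then g i else h i) (T (q i n) x) -
        ∏ i, g i (T (q i n) x))) atTop (𝓝 0) := by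
    intro n
    induction n with
    | zero =>
      intro s hs _
      have hs' : ∀ i, i ∈ s := by
        intro i
        by_contra hi
        have : i ∈ univ \ s := mem_sdiff.2 ⟨mem_univ i, hi⟩
        rw [Finset.card_eq_zero.1 hs] at this
        exact absurd this (Finset.notMem_empty i)
      refine Eventually.of_forall fun x => ?_
      simp only [hs', if_true, sub_self]
      have : avg (fun _ => (0 : ℝ)) = fun _ => 0 := by
        funext N
        simp [avg]
      rw [this]
      exact tendsto_const_nhds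
    | succ n ih =>
      intro s hs hup
      have hne : (univ \ s).Nonempty := by
        rw [← Finset.card_pos]; omega
      obtain ⟨j, hj, hjmax⟩ := Finset.exists_max_image (univ \ s) (fun i => l (q i N)) hne
      have hjs : j ∉ s := (mem_sdiff.1 hj).2
      have hjgt : ∀ i ∉ s, i ≠ j → gt j i := by
        intro i hi hij
        rcases hor j i (Ne.symm hij) with h1 | h1
        · exact h1
        · exfalso
          have h2 := hpos i j h1
          have h3 := hjmax i (mem_sdiff.2 ⟨mem_univ i, hi⟩)
          linarith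
      have ih' := ih (insert j s) (by
        have : univ \ insert j s = (univ \ s).erase j := by
          ext i
          rw [Finset.mem_erase, Finset.mem_sdiff, Finset.mem_sdiff, Finset.mem_insert, not_or]
          exact ⟨fun h => ⟨h.2.1, h.1, h.2.2⟩, fun h => ⟨h.2.1, h.1, h.2.2⟩⟩
        rw [this, Finset.card_erase_of_mem hj, hs]
        rfl) (by
        intro i hi i' hi'
        rw [mem_insert, not_or] at hi'
        rcases mem_insert.1 hi with h1 | h1
        · rw [h1]; exact hjgt i' hi'.2 hi'.1
        · exact hup i h1 i' hi'.2)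
      obtain ⟨C0, hC0⟩ := hmax j
      have hstep := stepGT μ T hT P hP l q j (hq.grow j) C0 hC0
        (fun i => if i ∈ s then g i else h i) C (by
          intro i x
          by_cases hi : i ∈ s
          · rw [if_pos hi]; exact hgC i x
          · rw [if_neg hi]; exact hC i x) (by
          intro i hij
          by_cases hi : i ∈ s
          · left
            rw [if_pos hi]; exact hg i
          · right
            rw [if_neg hi]; exact ⟨hh i, hjgt i hi hij⟩) (by
          rw [if_neg hjs]; exact hh j) (g j) (hg j) (hgC j) (by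
          rw [if_neg hjs]; exact hgE j)
      filter_upwards [ih', hstep] with x hx1 hx2
      have hsum := hx2.add hx1
      rw [add_zero] at hsum
      refine hsum.congr fun N' => ?_
      rw [← avg_add]
      congr 1
      funext n'
      have e1 : ∏ i, (if i ∈ s then g i else h i) (T (q i n') x)
          = h j (T (q j n') x) * ∏ i ∈ univ.erase j, (if i ∈ s then g i else h i) (T (q i n') x) := by
        rw [← Finset.mul_prod_erase univ _ (mem_univ j), if_neg hjs]
      have e2 : ∏ i, (if i ∈ insert j s then g i else h i) (T (q i n') x)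
          = g j (T (q j n') x) * ∏ i ∈ univ.erase j, (if i ∈ s then g i else h i) (T (q i n') x) := by
        rw [← Finset.mul_prod_erase univ _ (mem_univ j), if_pos (mem_insert_self j s)]
        congr 1
        apply Finset.prod_congr rfl
        intro i hi
        have hij : i ≠ j := Finset.ne_of_mem_erase hi
        have e3 : (i ∈ insert j s) ↔ i ∈ s := by
          rw [mem_insert]
          exact ⟨fun h => h.resolve_left hij, Or.inr⟩
        simp only [e3]
      rw [e1, e2, if_neg hjs]
      ring
  have hfin := main (univ \ (∅ : Finset (Fin k))).card ∅ rfl (by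
    intro i hi
    exact absurd hi (Finset.notMem_empty i))
  filter_upwards [hfin] with x hx
  simpa only [Finset.notMem_empty, if_false] using hx

end Pool.Agent.ZEN
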