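import Pool.Agent.ZEN.EntA

set_option autoImplicit false

/-! Module HsA: the set function `Hs μ Y`.  All from EntA with relabelling maps of the value types (`D → β`):
`hs_mono`: restriction `(E → β) → (D → β)` (`ent_map_le`).  `hs_sub`: `U = (Y_i)_{i ∈ D \ E}`, `V = (Y_i)_{i ∈ E \ D}`, `W = (Y_i)_{i ∈ D ∩ E}`; `(U, V, W)` is an injective
relabelling of `(Y_i)_{i ∈ D ∪ E}`, `(U, W)` of `(Y_i)_{i ∈ D}`, `(V, W)` of `(Y_i)_{i ∈ E}` (`ent_map_inj`); `ent_submod`.
`hs_single`: `ent_le_log`.  `hs_shift`: `Y (σ i) x = Y i (S x)` for all `i`, `σ` injective: relabelling plus `ent_comp`.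
`hs_eq_of_determined`: general relabelling: if `F x = φ ((Y_i x)_{i ∈ D})` then `ent (F, (Y_i)_{i∈E}) ≤ Hs (D ∪ E)`.
`subm`: for an action `T`, `P : X → Fin M`, `A` a set, `Y (false, v) = P ∘ T v`, `Y (true, v) x = 1 if T v x ∈ A else 0`. -/

open Finset Filter Topology MeasureTheory

namespace Pool.Agent.ZEN

variable {X : Type*} [MeasurableSpace X] (μ : Measure X) [IsProbabilityMeasure μ]

omit [IsProbabilityMeasure μ] in
private theorem HsA_meas {I β : Type*} [Fintype β] [DecidableEq I] (Y : I → X → β)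
    (hY : ∀ i b, MeasurableSet (Y i ⁻¹' {b})) (D : Finset I) (b : D → β) :
    MeasurableSet ((fun x (i : D) => Y i x) ⁻¹' {b}) := by
  have : (fun x (i : D) => Y i x) ⁻¹' {b} = ⋂ i : D, Y i ⁻¹' {b i} := by
    ext x
    simp [funext_iff]
  rw [this]
  exact MeasurableSet.iInter (fun i => hY i _)

theorem hs_empty {I β : Type*} [Fintype β] [DecidableEq I] (Y : I → X → β) : Hs μ Y ∅ = 0 := by
  unfold Hs ent
  apply Finset.sum_eq_zero
  intro b _
  have : (fun x (i : ((∅ : Finset I) : Finset I)) => Y i x) ⁻¹' {b} = Set.univ := by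
    ext x
    simp only [Set.mem_preimage, Set.mem_singleton_iff, Set.mem_univ, iff_true]
    funext i
    exact absurd i.2 (Finset.notMem_empty _)
  rw [this]
  simp

theorem hs_mono {I β : Type*} [Fintype β] [DecidableEq I] (Y : I → X → β)
    (hY : ∀ i b, MeasurableSet (Y i ⁻¹' {b})) {D E : Finset I} (h : D ⊆ E) :
    Hs μ Y D ≤ Hs μ Y E := by
  exact ent_map_le μ (fun x (i : E) => Y i x) (fun f (i : D) => f ⟨i, h i.2⟩) (HsA_meas Y hY E)

theorem hs_sub {I β : Type*} [Fintype β] [DecidableEq I] (Y : I → X → β)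
    (hY : ∀ i b, MeasurableSet (Y i ⁻¹' {b})) (D E : Finset I) :
    Hs μ Y (D ∪ E) + Hs μ Y (D ∩ E) ≤ Hs μ Y D + Hs μ Y E := by
  have h := ent_submod μ (fun x (i : ↥(D \ E)) => Y i x) (fun x (i : ↥(E \ D)) => Y i x)
    (fun x (i : ↥(D ∩ E)) => Y i x) (HsA_meas Y hY _) (HsA_meas Y hY _) (HsA_meas Y hY _)
  have e1 : ent μ (fun x => ((fun (i : ↥(D \ E)) => Y i x), (fun (i : ↥(E \ D)) => Y i x),
      (fun (i : ↥(D ∩ E)) => Y i x))) = Hs μ Y (D ∪ E) := by
    refine ent_map_inj μ (fun x (i : ↥(D ∪ E)) => Y i x)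
      (fun (f : ↥(D ∪ E) → β) => ((fun (i : ↥(D \ E)) => f ⟨i, Finset.mem_union_left _ (Finset.mem_sdiff.1 i.2).1⟩),
        (fun (i : ↥(E \ D)) => f ⟨i, Finset.mem_union_right _ (Finset.mem_sdiff.1 i.2).1⟩),
        (fun (i : ↥(D ∩ E)) => f ⟨i, Finset.mem_union_left _ (Finset.mem_inter.1 i.2).1⟩)))
      ?_ (HsA_meas Y hY _)
    intro f g hfg
    simp only [Prod.mk.injEq, funext_iff] at hfg
    obtain ⟨h1, h2, h3⟩ := hfg
    funext i
    obtain ⟨i, hi⟩ := i
    by_cases hD : i ∈ D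
    · by_cases hE : i ∈ E
      · exact h3 ⟨i, Finset.mem_inter.2 ⟨hD, hE⟩⟩
      · exact h1 ⟨i, Finset.mem_sdiff.2 ⟨hD, hE⟩⟩
    · have hE : i ∈ E := (Finset.mem_union.1 hi).resolve_left hD
      exact h2 ⟨i, Finset.mem_sdiff.2 ⟨hE, hD⟩⟩
  have e2 : ent μ (fun x => ((fun (i : ↥(D \ E)) => Y i x), (fun (i : ↥(D ∩ E)) => Y i x)))
      = Hs μ Y D := by
    refine ent_map_inj μ (fun x (i : ↥D) => Y i x)
      (fun (f : ↥D → β) => ((fun (i : ↥(D \ E)) => f ⟨i, (Finset.mem_sdiff.1 i.2).1⟩),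
        (fun (i : ↥(D ∩ E)) => f ⟨i, (Finset.mem_inter.1 i.2).1⟩)))
      ?_ (HsA_meas Y hY _)
    intro f g hfg
    simp only [Prod.mk.injEq, funext_iff] at hfg
    obtain ⟨h1, h3⟩ := hfg
    funext i
    obtain ⟨i, hi⟩ := i
    by_cases hE : i ∈ E
    · exact h3 ⟨i, Finset.mem_inter.2 ⟨hi, hE⟩⟩
    · exact h1 ⟨i, Finset.mem_sdiff.2 ⟨hi, hE⟩⟩
  have e3 : ent μ (fun x => ((fun (i : ↥(E \ D)) => Y i x), (fun (i : ↥(D ∩ E)) => Y i x)))
      = Hs μ Y E := by
    refine ent_map_inj μ (fun x (i : ↥E) => Y i x)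
      (fun (f : ↥E → β) => ((fun (i : ↥(E \ D)) => f ⟨i, (Finset.mem_sdiff.1 i.2).1⟩),
        (fun (i : ↥(D ∩ E)) => f ⟨i, (Finset.mem_inter.1 i.2).2⟩)))
      ?_ (HsA_meas Y hY _)
    intro f g hfg
    simp only [Prod.mk.injEq, funext_iff] at hfg
    obtain ⟨h1, h3⟩ := hfg
    funext i
    obtain ⟨i, hi⟩ := i
    by_cases hD : i ∈ D
    · exact h3 ⟨i, Finset.mem_inter.2 ⟨hD, hi⟩⟩
    · exact h1 ⟨i, Finset.mem_sdiff.2 ⟨hi, hD⟩⟩
  rw [← e1, ← e2, ← e3]
  exact h

theorem hs_single {I β : Type*} [Fintype β] [Nonempty β] [DecidableEq I] (Y : I → X → β)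
    (hY : ∀ i b, MeasurableSet (Y i ⁻¹' {b})) (i : I) :
    Hs μ Y {i} ≤ Real.log (Fintype.card β) := by
  have e : (fun x (j : ↥({i} : Finset I)) => Y j x) = fun x => (fun (b : β) (_ : ↥({i} : Finset I)) => b) (Y i x) := by
    funext x j
    have : j.1 = i := Finset.mem_singleton.1 j.2
    rw [this]
  unfold Hs
  rw [e]
  exact (ent_map_le μ (Y i) (fun (b : β) (_ : ↥({i} : Finset I)) => b) (hY i)).trans
    (ent_le_log μ (Y i) (hY i))

theorem hs_shift {I β : Type*} [Fintype β] [DecidableEq I] (Y : I → X → β)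
    (hY : ∀ i b, MeasurableSet (Y i ⁻¹' {b})) (s : I → I) (hs : Function.Injective s) (S : X → X)
    (hS : MeasurePreserving S μ μ) (h : ∀ i x, Y (s i) x = Y i (S x)) (D : Finset I) :
    Hs μ Y (D.image s) = Hs μ Y D := by
  have e1 : ent μ (fun x (i : D) => Y i (S x)) = Hs μ Y D :=
    ent_comp μ (fun x (i : D) => Y i x) S hS (HsA_meas Y hY D)
  have e2 : (fun x (i : D) => Y i (S x)) = fun x =>
      (fun (f : ↥(D.image s) → β) (i : D) => f ⟨s i, Finset.mem_image_of_mem s i.2⟩)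
        ((fun x (j : ↥(D.image s)) => Y j x) x) := by
    funext x i
    exact (h i x).symm
  rw [← e1, e2]
  symm
  refine ent_map_inj μ (fun x (j : ↥(D.image s)) => Y j x)
    (fun (f : ↥(D.image s) → β) (i : D) => f ⟨s i, Finset.mem_image_of_mem s i.2⟩) ?_
    (HsA_meas Y hY _)
  intro f g hfg
  simp only [funext_iff] at hfg
  funext j
  obtain ⟨j, hj⟩ := j
  obtain ⟨i, hi, rfl⟩ := Finset.mem_image.1 hj
  exact hfg ⟨i, hi⟩

/-- the two families of functions used for the entropy of `A` -/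
noncomputable def fam {r M : ℕ} (T : Zr r → X → X) (P : X → Fin M) (A : Set X) (z o : Fin M)
    (i : Bool × Zr r) (x : X) : Fin M :=
  open Classical in if i.1 then (if T i.2 x ∈ A then o else z) else P (T i.2 x)

omit [IsProbabilityMeasure μ] in
private theorem HsA_fam_meas {r M : ℕ} (T : Zr r → X → X) (hT : IsAct μ T) (P : X → Fin M)
    (hP : Measurable P) (A : Set X) (hA : MeasurableSet A) (z o : Fin M) (i : Bool × Zr r)
    (b : Fin M) : MeasurableSet (fam T P A z o i ⁻¹' {b}) := by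
  classical
  have hTm : Measurable (T i.2) := (hT.mp i.2).measurable
  have hm : Measurable (fam T P A z o i) := by
    unfold fam
    by_cases hi : i.1 = true
    · simp only [hi, if_true]
      exact Measurable.ite (hTm hA) measurable_const measurable_const
    · simp only [hi]
      exact hP.comp hTm
  exact hm (measurableSet_singleton b)

theorem subm {r M : ℕ} (T : Zr r → X → X) (hT : IsAct μ T) (P : X → Fin M) (hP : Measurable P)
    (A : Set X) (hA : MeasurableSet A) (z o : Fin M) :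
    Subm (Hs μ (fam T P A z o)) (Real.log M) := by
  have hY := HsA_fam_meas μ T hT P hP A hA z o
  have : Nonempty (Fin M) := ⟨z⟩
  refine ⟨hs_empty μ _, fun D E h => hs_mono μ _ hY h, fun D E => hs_sub μ _ hY D E,
    fun i => ?_, fun u D => ?_⟩
  · have := hs_single μ (fam T P A z o) hY i
    rwa [Fintype.card_fin] at this
  · refine hs_shift μ (fam T P A z o) hY (fun i => (i.1, i.2 + u)) ?_ (T u) (hT.mp u) ?_ D
    · intro i j hij
      simp only [Prod.mk.injEq, add_left_inj] at hij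
      exact Prod.ext hij.1 hij.2
    · intro i x
      have hx : T (i.2 + u) x = T i.2 (T u x) := by rw [hT.add]; rfl
      unfold fam
      rw [hx]

/-- the entropy of the `Q` part -/
theorem hs_q {r M : ℕ} (T : Zr r → X → X) (hT : IsAct μ T) (P : X → Fin M) (hP : Measurable P)
    (A : Set X) (hA : MeasurableSet A) (z o : Fin M) (hzo : z ≠ o) (D : Finset (Zr r)) :
    open Classical in
    Hs μ (fam T P A z o) (qS D) = ent μ (fun x (v : D) => decide (T v x ∈ A)) := by
  classical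
  have hmem : ∀ j : ↥(qS D), j.1.2 ∈ D := by
    intro j
    obtain ⟨v, hv, hj⟩ := Finset.mem_image.1 j.2
    rw [← hj]
    exact hv
  have hfst : ∀ j : ↥(qS D), j.1.1 = true := by
    intro j
    obtain ⟨v, hv, hj⟩ := Finset.mem_image.1 j.2
    rw [← hj]
  have hmeas : ∀ b : D → Bool,
      MeasurableSet ((fun x (v : D) => decide (T v x ∈ A)) ⁻¹' {b}) := by
    intro b
    have : (fun x (v : D) => decide (T v x ∈ A)) ⁻¹' {b}
        = ⋂ v : D, (if b v = true then T v ⁻¹' A else (T v ⁻¹' A)ᶜ) := by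
      ext x
      simp only [Set.mem_preimage, Set.mem_singleton_iff, funext_iff, Set.mem_iInter]
      apply forall_congr'
      intro v
      by_cases hb : b v = true
      · rw [if_pos hb, hb]; simp
      · rw [if_neg hb]
        have hb' : b v = false := by simpa using hb
        rw [hb']; simp
    rw [this]
    refine MeasurableSet.iInter (fun v => ?_)
    split_ifs
    · exact (hT.mp v).measurable hA
    · exact ((hT.mp v).measurable hA).compl
  have e := ent_map_inj μ (fun x (v : D) => decide (T v x ∈ A))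
    (fun (f : D → Bool) (j : ↥(qS D)) => if f ⟨j.1.2, hmem j⟩ = true then o else z) ?_ hmeas
  · rw [← e]
    unfold Hs
    congr 1
    funext x j
    simp only [fam, hfst j, if_true, decide_eq_true_eq]
  · intro f g hfg
    simp only [funext_iff] at hfg
    funext v
    have hv : ((true, (v : Zr r)) : Bool × Zr r) ∈ qS D := Finset.mem_image_of_mem _ v.2
    have h := hfg ⟨(true, v), hv⟩
    simp only [Subtype.coe_eta] at h
    by_cases h1 : f v = true <;> by_cases h2 : g v = true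
    · rw [h1, h2]
    · rw [if_pos h1, if_neg h2] at h
      exact absurd h.symm hzo
    · rw [if_neg h1, if_pos h2] at h
      exact absurd h hzo
    · simp only [Bool.not_eq_true] at h1 h2
      rw [h1, h2]

end Pool.Agent.ZEN
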