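import Pool.Agent.ZEN.App
import Pool.Agent.ZEN.HsA
import Pool.Agent.ZEN.Box

set_option autoImplicit false

/-! Module Za: zero entropy sets: complement, translates, multiples of the box, entropy of a union.
`entA n := ent μ (fun x (v : box r n) => decide (T v x ∈ A))`.
`za_compl`: `decide (T v x ∈ Aᶜ) = !decide (T v x ∈ A)`: relabelling (`ent_map_inj`).
`za_shift`: `T v x ∈ T u ⁻¹' A ↔ T v (T u x) ∈ A` (`T` is an action of a commutative group): `ent_comp`.
`za_mul`: `box r (m * n)` is the union of the `m^r` translates `n • s + box r n`, `s ∈ box r m`; subadditivity (`App_ent_add`, or `Subm`/`hs_sub`) and shift invariance (`ent_comp`): `entA (m * n) ≤ m^r * entA n`.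
(Induction over the set `box r m` of translates; for each translate `u = n • s` the entropy of `x ↦ (v ∈ u + box r n) ↦ decide (T v x ∈ A)` is `entA n`.)
`za_union`: `decide (T v x ∈ A ∪ B) = decide (T v x ∈ A) || decide (T v x ∈ B)`: `ent_map_le` and `App_ent_add`.
`za_symm`: `decide (T v x ∈ A)` is the xor of `decide (T v x ∈ B)` and `decide (T v x ∈ symmDiff A B)`; the entropy of `x ↦ (v ∈ box r n) ↦ decide (T v x ∈ R)` is at most `∑_{v ∈ box r n} ent (decide (T v x ∈ R)) = n^r (η(μ R) + η(1 - μ R))`
(subadditivity, `ent_comp`, `App_ent_bool`, card of the box from module Box). -/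

open Finset Filter Topology MeasureTheory

namespace Pool.Agent.ZEN

/-- entropy of the partition `{A, Aᶜ}` along the box of side `n` -/
noncomputable def entA {X : Type*} [MeasurableSpace X] (μ : Measure X) {r : ℕ} (T : Zr r → X → X)
    (A : Set X) (n : ℕ) : ℝ :=
  open Classical in ent μ (fun x (v : box r n) => decide (T v x ∈ A))

theorem za_iff {X : Type*} [MeasurableSpace X] (μ : Measure X) {r : ℕ} (T : Zr r → X → X)
    (A : Set X) : IsZE μ T A ↔ MeasurableSet A ∧ ∀ ε : ℝ, 0 < ε → ∃ n : ℕ, 1 ≤ n ∧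
      entA μ T A n ≤ ε * (n : ℝ) ^ r := Iff.rfl

private theorem Za_meas {X : Type*} [MeasurableSpace X] {μ : Measure X} {r : ℕ}
    {T : Zr r → X → X} (hT : IsAct μ T) {A : Set X} (hA : MeasurableSet A) (v : Zr r) (b : Bool) :
    open Classical in MeasurableSet ((fun x => decide (T v x ∈ A)) ⁻¹' {b}) := by
  classical
  cases b
  · have h2 : (fun x => decide (T v x ∈ A)) ⁻¹' {false} = (T v ⁻¹' A)ᶜ := by
      ext x; simp
    rw [h2]; exact ((hT.mp v).measurable hA).compl
  · have h1 : (fun x => decide (T v x ∈ A)) ⁻¹' {true} = T v ⁻¹' A := by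
      ext x; simp
    rw [h1]; exact (hT.mp v).measurable hA

private theorem Za_measD {X : Type*} [MeasurableSpace X] {μ : Measure X} {r : ℕ}
    {T : Zr r → X → X} (hT : IsAct μ T) {A : Set X} (hA : MeasurableSet A) (D : Finset (Zr r))
    (b : D → Bool) :
    open Classical in MeasurableSet ((fun x (v : D) => decide (T v x ∈ A)) ⁻¹' {b}) := by
  classical
  have h : (fun x (v : D) => decide (T v x ∈ A)) ⁻¹' {b} =
      ⋂ v : D, (fun x => decide (T (v : Zr r) x ∈ A)) ⁻¹' {b v} := by
    ext x
    simp only [Set.mem_preimage, Set.mem_singleton_iff, Set.mem_iInter]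
    exact funext_iff
  rw [h]
  exact MeasurableSet.iInter fun v => Za_meas hT hA v (b v)

private theorem Za_prod {X α β : Type*} [MeasurableSpace X] (U : X → α) (V : X → β)
    (hU : ∀ b, MeasurableSet (U ⁻¹' {b})) (hV : ∀ b, MeasurableSet (V ⁻¹' {b})) (b : α × β) :
    MeasurableSet ((fun x => (U x, V x)) ⁻¹' {b}) := by
  obtain ⟨b1, b2⟩ := b
  have : (fun x => (U x, V x)) ⁻¹' {(b1, b2)} = U ⁻¹' {b1} ∩ V ⁻¹' {b2} := by
    ext x
    simp only [Set.mem_preimage, Set.mem_singleton_iff, Prod.mk.injEq, Set.mem_inter_iff]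
  rw [this]
  exact (hU b1).inter (hV b2)

private theorem Za_hs_nonneg {X I β : Type*} [MeasurableSpace X] [Fintype β] [DecidableEq I]
    (μ : Measure X) [IsProbabilityMeasure μ] (Y : I → X → β) (D : Finset I) : 0 ≤ Hs μ Y D :=
  ent_nonneg μ _

private theorem Za_bi {X I β J : Type*} [MeasurableSpace X] [Fintype β] [DecidableEq I]
    (μ : Measure X) [IsProbabilityMeasure μ] (Y : I → X → β)
    (hY : ∀ i b, MeasurableSet (Y i ⁻¹' {b})) (F : J → Finset I) (S : Finset J) :
    Hs μ Y (S.biUnion F) ≤ ∑ s ∈ S, Hs μ Y (F s) := by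
  classical
  induction S using Finset.induction_on with
  | empty => rw [Finset.biUnion_empty, hs_empty, Finset.sum_empty]
  | insert s S hs ih =>
    rw [Finset.biUnion_insert, Finset.sum_insert hs]
    have h1 := hs_sub μ Y hY (F s) (S.biUnion F)
    have h2 := Za_hs_nonneg μ Y (F s ∩ S.biUnion F)
    linarith

theorem za_compl {X : Type*} [MeasurableSpace X] (μ : Measure X) [IsProbabilityMeasure μ] {r : ℕ}
    (T : Zr r → X → X) (hT : IsAct μ T) (A : Set X) (hA : IsZE μ T A) : IsZE μ T Aᶜ := by
  classical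
  refine ⟨hA.1.compl, fun ε hε => ?_⟩
  obtain ⟨n, hn, h⟩ := hA.2 ε hε
  refine ⟨n, hn, le_trans ?_ h⟩
  have e := ent_map_le μ (fun x (v : box r n) => decide (T v x ∈ A))
    (fun (f : box r n → Bool) v => !(f v)) (Za_measD hT hA.1 _)
  refine le_trans (le_of_eq ?_) e
  congr 1
  funext x v
  simp

theorem za_shift {X : Type*} [MeasurableSpace X] (μ : Measure X) [IsProbabilityMeasure μ] {r : ℕ}
    (T : Zr r → X → X) (hT : IsAct μ T) (A : Set X) (hA : IsZE μ T A) (u : Zr r) :
    IsZE μ T (T u ⁻¹' A) := by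
  classical
  refine ⟨(hT.mp u).measurable hA.1, fun ε hε => ?_⟩
  obtain ⟨n, hn, h⟩ := hA.2 ε hε
  refine ⟨n, hn, le_trans (le_of_eq ?_) h⟩
  have e := ent_comp μ (fun x (v : box r n) => decide (T v x ∈ A)) (T u) (hT.mp u)
    (Za_measD hT hA.1 _)
  rw [← e]
  congr 1
  funext x v
  have h1 : T u (T v x) = T v (T u x) := by
    have h2 := congrFun (hT.add u v) x
    have h3 := congrFun (hT.add v u) x
    simp only [Function.comp_apply] at h2 h3
    rw [← h2, ← h3, add_comm]
  simp only [Set.mem_preimage, h1]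

theorem za_mul {X : Type*} [MeasurableSpace X] (μ : Measure X) [IsProbabilityMeasure μ] {r : ℕ}
    (T : Zr r → X → X) (hT : IsAct μ T) (A : Set X) (hA : MeasurableSet A) (m n : ℕ) :
    entA μ T A (m * n) ≤ (m : ℝ) ^ r * entA μ T A n := by
  classical
  set Y : Zr r → X → Bool := fun v x => decide (T v x ∈ A) with hYdef
  have hY : ∀ i b, MeasurableSet (Y i ⁻¹' {b}) := fun i b => Za_meas hT hA i b
  have e1 : ∀ k, entA μ T A k = Hs μ Y (box r k) := fun k => rfl
  rw [e1, e1]
  have hsub : box r (m * n) ⊆ (box r m).biUnion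
      (fun s => (box r n).image (fun i => i + fun j => (n : ℤ) * s j)) := by
    intro v hv
    rw [mem_box] at hv
    rw [Finset.mem_biUnion]
    refine ⟨fun j => v j / n, ?_, ?_⟩
    · rw [mem_box]
      intro j
      obtain ⟨h1, h2⟩ := hv j
      push_cast at h2
      have hn : (0 : ℤ) < n := by
        rcases Nat.eq_zero_or_pos n with h | h
        · rw [h] at h2
          simp at h2
          omega
        · exact_mod_cast h
      exact ⟨Int.ediv_nonneg h1 hn.le, Int.ediv_lt_of_lt_mul hn h2⟩
    · rw [Finset.mem_image]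
      refine ⟨fun j => v j % n, ?_, ?_⟩
      · rw [mem_box]
        intro j
        obtain ⟨h1, h2⟩ := hv j
        push_cast at h2
        have hn : (0 : ℤ) < n := by
          rcases Nat.eq_zero_or_pos n with h | h
          · rw [h] at h2
            simp at h2
            omega
          · exact_mod_cast h
        exact ⟨Int.emod_nonneg _ hn.ne', Int.emod_lt_of_pos _ hn⟩
      · funext j
        simp only [Pi.add_apply]
        have := Int.emod_add_mul_ediv (v j) n
        linarith
  refine (hs_mono μ Y hY hsub).trans ((Za_bi μ Y hY _ _).trans ?_)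
  have h3 : ∀ s ∈ box r m, Hs μ Y ((box r n).image (fun i => i + fun j => (n : ℤ) * s j)) =
      Hs μ Y (box r n) := by
    intro s _
    refine hs_shift μ Y hY _ (fun a b h => add_right_cancel h) (T (fun j => (n : ℤ) * s j))
      (hT.mp _) (fun i x => ?_) _
    show decide (T (i + _) x ∈ A) = decide (T i (T _ x) ∈ A)
    rw [hT.add]
    rfl
  rw [Finset.sum_congr rfl h3, Finset.sum_const, box_card, nsmul_eq_mul]
  push_cast
  exact le_rfl

theorem za_union {X : Type*} [MeasurableSpace X] (μ : Measure X) [IsProbabilityMeasure μ] {r : ℕ}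
    (T : Zr r → X → X) (hT : IsAct μ T) (A B : Set X) (hA : MeasurableSet A)
    (hB : MeasurableSet B) (n : ℕ) : entA μ T (A ∪ B) n ≤ entA μ T A n + entA μ T B n := by
  classical
  have h1 := App_ent_add μ (fun x (v : box r n) => decide (T v x ∈ A))
    (fun x (v : box r n) => decide (T v x ∈ B)) (Za_measD hT hA _) (Za_measD hT hB _)
  have h2 := ent_map_le μ (fun x => ((fun (v : box r n) => decide (T v x ∈ A)),
    (fun (v : box r n) => decide (T v x ∈ B))))
    (fun (p : (box r n → Bool) × (box r n → Bool)) v => p.1 v || p.2 v)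
    (Za_prod _ _ (Za_measD hT hA _) (Za_measD hT hB _))
  refine le_trans (le_of_eq ?_) (h2.trans h1)
  unfold entA
  congr 1
  funext x v
  simp [Bool.decide_or]

theorem za_symm {X : Type*} [MeasurableSpace X] (μ : Measure X) [IsProbabilityMeasure μ] {r : ℕ}
    (T : Zr r → X → X) (hT : IsAct μ T) (A B : Set X) (hA : MeasurableSet A)
    (hB : MeasurableSet B) (n : ℕ) : entA μ T A n ≤ entA μ T B n + (n : ℝ) ^ r *
      (Real.negMulLog (μ.real (symmDiff A B)) + Real.negMulLog (1 - μ.real (symmDiff A B))) := by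
  classical
  have hR : MeasurableSet (symmDiff A B) := hA.symmDiff hB
  have h1 := App_ent_add μ (fun x (v : box r n) => decide (T v x ∈ B))
    (fun x (v : box r n) => decide (T v x ∈ symmDiff A B)) (Za_measD hT hB _) (Za_measD hT hR _)
  have h2 := ent_map_le μ (fun x => ((fun (v : box r n) => decide (T v x ∈ B)),
    (fun (v : box r n) => decide (T v x ∈ symmDiff A B))))
    (fun (p : (box r n → Bool) × (box r n → Bool)) v => xor (p.1 v) (p.2 v))
    (Za_prod _ _ (Za_measD hT hB _) (Za_measD hT hR _))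
  have h3 : entA μ T A n ≤ entA μ T B n + entA μ T (symmDiff A B) n := by
    refine le_trans (le_of_eq ?_) (h2.trans h1)
    unfold entA
    congr 1
    funext x v
    by_cases ha : T v x ∈ A <;> by_cases hb : T v x ∈ B <;> simp [Set.mem_symmDiff, ha, hb]
  have h4 : entA μ T (symmDiff A B) n ≤ (n : ℝ) ^ r *
      (Real.negMulLog (μ.real (symmDiff A B)) + Real.negMulLog (1 - μ.real (symmDiff A B))) := by
    set Y : Zr r → X → Bool := fun v x => decide (T v x ∈ symmDiff A B) with hYdef
    have hY : ∀ i b, MeasurableSet (Y i ⁻¹' {b}) := fun i b => Za_meas hT hR i b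
    have e1 : entA μ T (symmDiff A B) n = Hs μ Y (box r n) := rfl
    have e2 : box r n = (box r n).biUnion (fun v => {v}) := by
      rw [Finset.biUnion_singleton_eq_self]
    rw [e1, e2]
    refine (Za_bi μ Y hY _ _).trans ?_
    have h5 : ∀ v ∈ box r n, Hs μ Y {v} ≤
        Real.negMulLog (μ.real (symmDiff A B)) + Real.negMulLog (1 - μ.real (symmDiff A B)) := by
      intro v _
      rw [← App_ent_bool μ (symmDiff A B) hR]
      have hR' : ∀ b : Bool, MeasurableSet ((fun x => decide (x ∈ symmDiff A B)) ⁻¹' {b}) := by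
        intro b
        have := Za_meas hT hR 0 b
        rw [hT.zero] at this
        exact this
      rw [← ent_comp μ (fun x => decide (x ∈ symmDiff A B)) (T v) (hT.mp v) hR']
      have e : (fun x (j : ↥({v} : Finset (Zr r))) => Y j x) = fun x =>
          (fun (b : Bool) (_ : ↥({v} : Finset (Zr r))) => b) (Y v x) := by
        funext x j
        have : j.1 = v := Finset.mem_singleton.1 j.2
        rw [this]
      unfold Hs
      rw [e]
      exact ent_map_le μ (fun x => Y v x) (fun (b : Bool) (_ : ↥({v} : Finset (Zr r))) => b) (hY v)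
    refine (Finset.sum_le_sum h5).trans ?_
    rw [Finset.sum_const, box_card, nsmul_eq_mul]
    push_cast
    exact le_rfl
  linarith

end Pool.Agent.ZEN
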