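import Pool.Agent.ZEN.Za

set_option autoImplicit false

/-! Module Zb: the zero entropy sets form a σ-algebra.
`zb_union`: given `ε`, take `n1` for `A`, `n2` for `B` with `ε / 2`, `n = n1 * n2`: `za_union`, `za_mul`.
`zb_approx`: `za_symm`, `App_small`.
`zb_iUnion`: finite unions by induction (`zb_union`, the empty set has entropy zero: `entA ∅ n = 0`), then `zb_approx` (`μ (⋃ A n \ ⋃_{n < N} A n) → 0`, see `App_iUnion`).
`pin_iff`: the zero entropy sets form a σ-algebra (`zb_empty`, `za_compl`, `zb_iUnion`), so they are equal to the generated one. -/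

open Finset Filter Topology MeasureTheory

namespace Pool.Agent.ZEN

theorem zb_union {X : Type*} [MeasurableSpace X] (μ : Measure X) [IsProbabilityMeasure μ] {r : ℕ}
    (T : Zr r → X → X) (hT : IsAct μ T) (A B : Set X) (hA : IsZE μ T A) (hB : IsZE μ T B) :
    IsZE μ T (A ∪ B) := by
  rw [za_iff]
  rw [za_iff] at hA hB
  refine ⟨hA.1.union hB.1, fun ε hε => ?_⟩
  obtain ⟨n1, h1, e1⟩ := hA.2 (ε / 2) (half_pos hε)
  obtain ⟨n2, h2, e2⟩ := hB.2 (ε / 2) (half_pos hε)
  refine ⟨n1 * n2, Nat.one_le_iff_ne_zero.2 (Nat.mul_ne_zero (by omega) (by omega)), ?_⟩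
  have e3 := za_union μ T hT A B hA.1 hB.1 (n1 * n2)
  have e4 := za_mul μ T hT A hA.1 n2 n1
  have e5 := za_mul μ T hT B hB.1 n1 n2
  rw [mul_comm n2 n1] at e4
  have e6 : (n2 : ℝ) ^ r * entA μ T A n1 ≤ (n2 : ℝ) ^ r * (ε / 2 * (n1 : ℝ) ^ r) :=
    mul_le_mul_of_nonneg_left e1 (by positivity)
  have e7 : (n1 : ℝ) ^ r * entA μ T B n2 ≤ (n1 : ℝ) ^ r * (ε / 2 * (n2 : ℝ) ^ r) :=
    mul_le_mul_of_nonneg_left e2 (by positivity)
  push_cast
  rw [mul_pow]
  linarith

theorem zb_approx {X : Type*} [MeasurableSpace X] (μ : Measure X) [IsProbabilityMeasure μ] {r : ℕ}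
    (T : Zr r → X → X) (hT : IsAct μ T) (A : Set X) (hA : MeasurableSet A)
    (h : ∀ δ : ℝ, 0 < δ → ∃ B : Set X, IsZE μ T B ∧ μ.real (symmDiff A B) ≤ δ) :
    IsZE μ T A := by
  rw [za_iff]
  refine ⟨hA, fun ε hε => ?_⟩
  obtain ⟨δ, hδ, hsm⟩ := App_small (ε / 2) (half_pos hε)
  obtain ⟨B, hB, hBm⟩ := h δ hδ
  rw [za_iff] at hB
  obtain ⟨n, hn, e1⟩ := hB.2 (ε / 2) (half_pos hε)
  refine ⟨n, hn, ?_⟩
  have e2 := za_symm μ T hT A B hA hB.1 n
  have e3 := hsm _ measureReal_nonneg hBm
  have e4 : (n : ℝ) ^ r * (Real.negMulLog (μ.real (symmDiff A B)) +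
      Real.negMulLog (1 - μ.real (symmDiff A B))) ≤ (n : ℝ) ^ r * (ε / 2) :=
    mul_le_mul_of_nonneg_left e3 (by positivity)
  linarith

theorem zb_empty {X : Type*} [MeasurableSpace X] (μ : Measure X) [IsProbabilityMeasure μ] {r : ℕ}
    (T : Zr r → X → X) (hT : IsAct μ T) : IsZE μ T ∅ := by
  classical
  refine ⟨MeasurableSet.empty, fun ε hε => ⟨1, le_rfl, ?_⟩⟩
  have h0 : ent μ (fun _ : X => ()) = 0 := by
    simp [ent]
  have h1 := ent_map_le μ (fun _ : X => ()) (fun _ (_ : box r 1) => false)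
    (fun b => by simp)
  rw [h0] at h1
  have h2 : entA μ T ∅ 1 ≤ 0 := by
    refine le_trans (le_of_eq ?_) h1
    unfold entA
    congr 1
    funext x v
    simp
  refine le_trans (show _ ≤ (0 : ℝ) from h2) ?_
  positivity

theorem Zb_fin {X : Type*} [MeasurableSpace X] (μ : Measure X) [IsProbabilityMeasure μ] {r : ℕ}
    (T : Zr r → X → X) (hT : IsAct μ T) (A : ℕ → Set X) (hA : ∀ n, IsZE μ T (A n)) (N : ℕ) :
    IsZE μ T (⋃ n ∈ Finset.range N, A n) := by
  induction N with
  | zero =>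
    have : (⋃ n ∈ Finset.range 0, A n) = ∅ := by simp
    rw [this]
    exact zb_empty μ T hT
  | succ N ih =>
    have : (⋃ n ∈ Finset.range (N + 1), A n) = (⋃ n ∈ Finset.range N, A n) ∪ A N := by
      ext x
      simp only [Set.mem_iUnion, Finset.mem_range, Set.mem_union, exists_prop]
      constructor
      · rintro ⟨n, hn, hx⟩
        rcases Nat.lt_succ_iff_lt_or_eq.1 hn with h | h
        · exact Or.inl ⟨n, h, hx⟩
        · right
          rw [← h]
          exact hx
      · rintro (⟨n, hn, hx⟩ | hx)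
        · exact ⟨n, by omega, hx⟩
        · exact ⟨N, by omega, hx⟩
    rw [this]
    exact zb_union μ T hT _ _ ih (hA N)

theorem zb_iUnion {X : Type*} [MeasurableSpace X] (μ : Measure X) [IsProbabilityMeasure μ] {r : ℕ}
    (T : Zr r → X → X) (hT : IsAct μ T) (A : ℕ → Set X) (hA : ∀ n, IsZE μ T (A n)) :
    IsZE μ T (⋃ n, A n) := by
  have hlim : Tendsto (fun N : ℕ => μ.real ((⋃ n, A n) \ ⋃ n ∈ Finset.range N, A n)) atTop (𝓝 0) := by
    have h1 : ∀ N : ℕ, μ.real ((⋃ n, A n) \ ⋃ n ∈ Finset.range N, A n) =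
        μ.real (⋃ n, A n) - μ.real (⋃ n ∈ Finset.range N, A n) := by
      intro N
      rw [measureReal_sdiff]
      · exact Set.iUnion₂_subset fun n _ => Set.subset_iUnion A n
      · exact Finset.measurableSet_biUnion _ fun n _ => (hA n).1
    simp_rw [h1]
    have h2 : Tendsto (fun N : ℕ => μ.real (⋃ n ∈ Finset.range N, A n)) atTop
        (𝓝 (μ.real (⋃ n, A n))) := by
      have hmono : Monotone fun N : ℕ => ⋃ n ∈ Finset.range N, A n := by
        intro a b hab
        exact Set.biUnion_subset_biUnion_left fun n hn => by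
          simp only [Finset.mem_coe, Finset.mem_range] at hn ⊢; omega
      have h3 := tendsto_measure_iUnion_atTop (μ := μ) hmono
      have h4 : (⋃ N : ℕ, ⋃ n ∈ Finset.range N, A n) = ⋃ n, A n := by
        ext x
        simp only [Set.mem_iUnion, Finset.mem_range]
        constructor
        · rintro ⟨N, n, _, hx⟩; exact ⟨n, hx⟩
        · rintro ⟨n, hx⟩; exact ⟨n + 1, n, by omega, hx⟩
      rw [h4] at h3
      exact (ENNReal.tendsto_toReal (measure_ne_top μ _)).comp h3
    have := (tendsto_const_nhds (x := μ.real (⋃ n, A n))).sub h2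
    simpa using this
  refine zb_approx μ T hT _ (MeasurableSet.iUnion fun n => (hA n).1) fun δ hδ => ?_
  obtain ⟨N, hN⟩ := ((hlim.eventually_lt_const hδ).exists)
  refine ⟨⋃ n ∈ Finset.range N, A n, Zb_fin μ T hT A hA N, ?_⟩
  have h5 : symmDiff (⋃ n, A n) (⋃ n ∈ Finset.range N, A n) =
      (⋃ n, A n) \ ⋃ n ∈ Finset.range N, A n := by
    ext x
    simp only [Set.mem_symmDiff, Set.mem_sdiff, Set.mem_iUnion, Finset.mem_range, exists_prop]
    constructor
    · rintro (h | ⟨⟨n, _, hx⟩, h⟩)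
      · exact h
      · exact absurd ⟨n, hx⟩ h
    · exact Or.inl
  rw [h5]
  exact hN.le

theorem pin_iff {X : Type*} [MeasurableSpace X] (μ : Measure X) [IsProbabilityMeasure μ] {r : ℕ}
    (T : Zr r → X → X) (hT : IsAct μ T) (A : Set X) :
    MeasurableSet[Pin μ T] A ↔ IsZE μ T A := by
  constructor
  · intro h
    have hle : ∀ B, MeasurableSet[Pin μ T] B → IsZE μ T B := by
      intro B hB
      induction B, hB using MeasurableSpace.generateFrom_induction with
      | hC t ht _ => exact ht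
      | empty => exact zb_empty μ T hT
      | compl t _ ht => exact za_compl μ T hT t ht
      | iUnion f _ hf => exact zb_iUnion μ T hT f hf
    exact hle A h
  · intro h
    exact MeasurableSpace.measurableSet_generateFrom h

end Pool.Agent.ZEN
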