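import Pool.Agent.ZEN.Zb
import Pool.Agent.ZEN.GF

set_option autoImplicit false

/-! Module Zc: the Pinsker factor as a system of zero entropy: the same space `X` with the σ-algebra `Pin μ T` and the restricted measure `μ.trim`.
`zc_act`: `T v` is measurable from `Pin` to `Pin` (`pin_iff`, `za_shift`) and preserves `μ.trim` (`trim_measurableSet_eq`).
`zc_ze`: entropies of Pin-measurable partitions with respect to `μ.trim` and `μ` agree: the sets `{x | (decide (T v x ∈ A))_v = b}` are finite intersections of sets `T v ⁻¹' A`, `T v ⁻¹' Aᶜ` in `Pin`. -/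

open Finset Filter Topology MeasureTheory

namespace Pool.Agent.ZEN

theorem zc_pre {X : Type*} [mX : MeasurableSpace X] (μ : Measure X) [IsProbabilityMeasure μ]
    {r : ℕ} (T : Zr r → X → X) (hT : IsAct μ T) (v : Zr r) (A : Set X)
    (hA : MeasurableSet[Pin μ T] A) : MeasurableSet[Pin μ T] (T v ⁻¹' A) :=
  (pin_iff μ T hT _).mpr (za_shift μ T hT A ((pin_iff μ T hT A).mp hA) v)

theorem zc_act {X : Type*} [mX : MeasurableSpace X] (μ : Measure X) [IsProbabilityMeasure μ]
    {r : ℕ} (T : Zr r → X → X) (hT : IsAct μ T) :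
    @IsAct X (Pin μ T) (μ.trim (pin_le' μ T)) r T := by
  have hm : ∀ v, @Measurable X X (Pin μ T) (Pin μ T) (T v) := fun v A hA => zc_pre μ T hT v A hA
  refine @IsAct.mk X (Pin μ T) (μ.trim (pin_le' μ T)) r T hT.zero hT.add ?_
  intro v
  refine @MeasurePreserving.mk X X (Pin μ T) (Pin μ T) (T v) _ _ (hm v) ?_
  refine @Measure.ext X (Pin μ T) _ _ ?_
  intro A hA
  rw [@Measure.map_apply X X (Pin μ T) (Pin μ T) _ (T v) (hm v) A hA,
    trim_measurableSet_eq (pin_le' μ T) (zc_pre μ T hT v A hA),
    trim_measurableSet_eq (pin_le' μ T) hA]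
  exact (hT.mp v).measure_preimage (pin_le' μ T A hA).nullMeasurableSet

theorem zc_ze {X : Type*} [mX : MeasurableSpace X] (μ : Measure X) [IsProbabilityMeasure μ]
    {r : ℕ} (T : Zr r → X → X) (hT : IsAct μ T) (A : Set X) (hA : MeasurableSet[Pin μ T] A) :
    @IsZE X (Pin μ T) (μ.trim (pin_le' μ T)) r T A := by
  classical
  refine ⟨hA, ?_⟩
  intro ε hε
  obtain ⟨n, hn, he⟩ := ((pin_iff μ T hT A).mp hA).2 ε hε
  refine ⟨n, hn, ?_⟩
  refine le_trans (le_of_eq ?_) he
  unfold ent
  apply Finset.sum_congr rfl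
  intro b _
  congr 1
  unfold Measure.real
  rw [trim_measurableSet_eq (pin_le' μ T)]
  have hset : (fun x (v : box r n) => decide (T v x ∈ A)) ⁻¹' {b} =
      ⋂ v : box r n, {x | decide (T v x ∈ A) = b v} := by
    ext x
    simp only [Set.mem_preimage, Set.mem_singleton_iff, Set.mem_iInter]
    constructor
    · intro h v
      show decide (T v x ∈ A) = b v
      rw [← h]
    · intro h
      funext v
      exact h v
  rw [hset]
  refine @MeasurableSet.iInter X _ (Pin μ T) _ _ ?_
  intro v
  cases hb : b v with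
  | true =>
    have h1 : {x | decide (T v x ∈ A) = true} = T v ⁻¹' A := by
      ext x
      show decide (T v x ∈ A) = true ↔ T v x ∈ A
      simp
    rw [h1]
    exact zc_pre μ T hT v A hA
  | false =>
    have h1 : {x | decide (T v x ∈ A) = false} = (T v ⁻¹' A)ᶜ := by
      ext x
      show decide (T v x ∈ A) = false ↔ ¬ (T v x ∈ A)
      simp
    rw [h1]
    exact @MeasurableSet.compl X _ (Pin μ T) (zc_pre μ T hT v A hA)

end Pool.Agent.ZEN
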