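import Pool.Agent.ZEN.Zc
import Pool.Agent.ZEN.GP

set_option autoImplicit false

/-! Module Zd: reduction of the a.e. convergence to zero entropy, and completely positive entropy.
`reduce`: apply the hypothesis to `(X, Pin μ T, μ.trim)` (`zc_act`, `zc_ze`) and to Pin-measurable bounded versions `g i` of `μ[f i | Pin μ T]` (`stronglyMeasurable_condExp`, cut off at `±C`; `|μ[f|m]| ≤ C` a.e., `ae_bdd_condExp_of_ae_bdd` or as in GF);
`T v` preserves null sets, so a.e. `x` satisfies `g i (T v x) = μ[f i | Pin] (T v x)` for all `v` (countably many); `ae_of_ae_trim`; `main_poly`.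
`cpe`: if zero entropy sets have measure `0` or `1` then `μ[f | Pin] = ∫ f` a.e. (`ae_eq_condExp_of_forall_setIntegral_eq`, all sets of `Pin` have measure `0` or `1` by `pin_iff`); again countably many `v`. -/

open Finset Filter Topology MeasureTheory Polynomial

namespace Pool.Agent.ZEN

universe u

theorem reduce {r k : ℕ} (v w : Fin k → Zr r) (p : Fin k → ℤ[X]) (hv : ∀ i, v i ≠ 0)
    (hp : ∀ i, 1 ≤ (p i).natDegree)
    (hd : ∀ i j, i ≠ j → ∃ s : ℕ, 1 ≤ s ∧ (p i).coeff s • v i ≠ (p j).coeff s • v j)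
    (H : ∀ (X : Type u) [MeasurableSpace X] (μ : Measure X) [IsProbabilityMeasure μ]
      (T : Zr r → X → X), IsAct μ T → (∀ A : Set X, MeasurableSet A → IsZE μ T A) →
      ∀ f : Fin k → X → ℝ, (∀ i, Measurable (f i)) → (∀ i, ∃ C : ℝ, ∀ x, |f i x| ≤ C) →
      ∀ᵐ x ∂μ, ∃ L : ℝ, Tendsto (fun N : ℕ => (1 / (N : ℝ)) * ∑ n ∈ Finset.Icc 1 N,
        ∏ i, f i (T ((p i).eval (n : ℤ) • v i + w i) x)) atTop (𝓝 L))
    (X : Type u) [mX : MeasurableSpace X] (μ : Measure X) [IsProbabilityMeasure μ]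
    (T : Zr r → X → X) (hT : IsAct μ T)
    (f : Fin k → X → ℝ) (hf : ∀ i, Measurable (f i)) (hb : ∀ i, ∃ C : ℝ, ∀ x, |f i x| ≤ C) :
    ∀ᵐ x ∂μ, ∃ L : ℝ, Tendsto (fun N : ℕ => (1 / (N : ℝ)) * ∑ n ∈ Finset.Icc 1 N,
        ∏ i, f i (T ((p i).eval (n : ℤ) • v i + w i) x)) atTop (𝓝 L) := by
  choose Cf hCf using hb
  have hpin := pin_le' μ T
  have hG : ∀ i, ∃ g : X → ℝ, @Measurable X ℝ (Pin μ T) _ g ∧ (∀ x, |g x| ≤ Cf i) ∧
      g =ᵐ[μ] μ[f i|Pin μ T] :=
    fun i => cond_version μ (Pin μ T) hpin (f i) (hf i) (Cf i) (hCf i)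
  choose G hGm hGC hGE using hG
  have hpr : @IsProbabilityMeasure X (Pin μ T) (μ.trim hpin) := ⟨by
    rw [trim_measurableSet_eq hpin MeasurableSet.univ]
    exact measure_univ⟩
  have h1 := @H X (Pin μ T) (μ.trim hpin) hpr T (zc_act μ T hT)
    (fun A hA => zc_ze μ T hT A hA) G hGm (fun i => ⟨Cf i, hGC i⟩)
  have h2 := ae_of_ae_trim hpin h1
  have h3 := main_poly μ T hT v w p hv hp hd f hf (fun i => ⟨Cf i, hCf i⟩)
  have h4 : ∀ᵐ x ∂μ, ∀ (n : ℕ) (i : Fin k), G i (T ((p i).eval (n : ℤ) • v i + w i) x) =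
      (μ[f i|Pin μ T]) (T ((p i).eval (n : ℤ) • v i + w i) x) := by
    rw [ae_all_iff]
    intro n
    rw [ae_all_iff]
    intro i
    exact (hT.mp ((p i).eval (n : ℤ) • v i + w i)).quasiMeasurePreserving.ae (hGE i)
  filter_upwards [h2, h3, h4] with x h2 h3 h4
  obtain ⟨L, hL⟩ := h2
  refine ⟨L, ?_⟩
  have h5 := h3.add hL
  rw [zero_add] at h5
  refine h5.congr fun N => ?_
  rw [← mul_add, ← Finset.sum_add_distrib]
  congr 1
  refine Finset.sum_congr rfl fun n _ => ?_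
  have h6 : ∏ i, G i (T ((p i).eval (n : ℤ) • v i + w i) x) =
      ∏ i, (μ[f i|Pin μ T]) (T ((p i).eval (n : ℤ) • v i + w i) x) :=
    Finset.prod_congr rfl fun i _ => h4 n i
  rw [h6]
  ring

theorem cpe {X : Type*} [mX : MeasurableSpace X] (μ : Measure X) [IsProbabilityMeasure μ]
    {r k : ℕ} (T : Zr r → X → X) (hT : IsAct μ T)
    (hK : ∀ A : Set X, IsZE μ T A → μ A = 0 ∨ μ A = 1) (v w : Fin k → Zr r)
    (p : Fin k → ℤ[X]) (hv : ∀ i, v i ≠ 0) (hp : ∀ i, 1 ≤ (p i).natDegree)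
    (hd : ∀ i j, i ≠ j → ∃ s : ℕ, 1 ≤ s ∧ (p i).coeff s • v i ≠ (p j).coeff s • v j)
    (f : Fin k → X → ℝ) (hf : ∀ i, Measurable (f i)) (hb : ∀ i, ∃ C : ℝ, ∀ x, |f i x| ≤ C) :
    ∀ᵐ x ∂μ, Tendsto (fun N : ℕ => (1 / (N : ℝ)) * ∑ n ∈ Finset.Icc 1 N,
      ∏ i, f i (T ((p i).eval (n : ℤ) • v i + w i) x)) atTop (𝓝 (∏ i, ∫ x, f i x ∂μ)) := by
  have hpin := pin_le' μ T
  have hint : ∀ i, Integrable (f i) μ := fun i => by
    obtain ⟨C, hC⟩ := hb i
    exact Integrable.of_bound (hf i).aestronglyMeasurable C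
      (Eventually.of_forall fun x => by rw [Real.norm_eq_abs]; exact hC x)
  have hE : ∀ i, (fun _ => ∫ x, f i x ∂μ) =ᵐ[μ] μ[f i|Pin μ T] := by
    intro i
    apply ae_eq_condExp_of_forall_setIntegral_eq hpin (hint i)
    · intro s _ _
      exact integrableOn_const (measure_ne_top μ s)
    · intro s hs _
      rcases hK s ((pin_iff μ T hT s).1 hs) with h0 | h1
      · rw [setIntegral_measure_zero _ h0, setIntegral_measure_zero _ h0]
      · have hm : MeasurableSet s := hpin s hs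
        have h2 : μ.restrict s = μ := by
          apply Measure.restrict_eq_self_of_ae_mem
          rw [ae_iff]
          exact (prob_compl_eq_zero_iff hm).2 h1
        rw [h2]
        simp
    · exact aestronglyMeasurable_const
  have h3 := main_poly μ T hT v w p hv hp hd f hf hb
  have h4 : ∀ᵐ x ∂μ, ∀ (n : ℕ) (i : Fin k), (∫ x, f i x ∂μ) =
      (μ[f i|Pin μ T]) (T ((p i).eval (n : ℤ) • v i + w i) x) := by
    rw [ae_all_iff]
    intro n
    rw [ae_all_iff]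
    intro i
    exact (hT.mp ((p i).eval (n : ℤ) • v i + w i)).quasiMeasurePreserving.ae (hE i)
  filter_upwards [h3, h4] with x h3 h4
  have h5 : Tendsto (fun N : ℕ => (1 / (N : ℝ)) * ∑ n ∈ Finset.Icc 1 N,
      (∏ i, ∫ x, f i x ∂μ)) atTop (𝓝 (∏ i, ∫ x, f i x ∂μ)) := by
    apply tendsto_const_nhds.congr'
    filter_upwards [eventually_gt_atTop 0] with N hN
    have hN0 : (N : ℝ) ≠ 0 := by exact_mod_cast hN.ne'
    rw [Finset.sum_const, Nat.card_Icc, Nat.add_sub_cancel, nsmul_eq_mul]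
    field_simp
  have h6 := h3.add h5
  rw [zero_add] at h6
  refine h6.congr fun N => ?_
  rw [← mul_add, ← Finset.sum_add_distrib]
  congr 1
  refine Finset.sum_congr rfl fun n _ => ?_
  have h7 : ∏ i, (μ[f i|Pin μ T]) (T ((p i).eval (n : ℤ) • v i + w i) x) =
      ∏ i, ∫ x, f i x ∂μ := Finset.prod_congr rfl fun i _ => (h4 n i).symm
  rw [h7]
  ring

end Pool.Agent.ZEN
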